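import Pool.Agent.MP7489fb.Base

set_option autoImplicit false

namespace Pool.Agent.MP7489fb

/-- There is a double cover of `[3]^d` with at most `x * 2^d` boxes. -/
def Has (d : ℕ) (x : ℝ) : Prop :=
  ∃ F : Multiset (Fin d → Finset (Fin 3)), IsDoubleCover 3 d F ∧ (F.card : ℝ) ≤ x * 2 ^ d

theorem has_two (d : ℕ) : Has d 2 := by
  refine ⟨P d + P d, ⟨proper_add (proper_P d) (proper_P d), fun x => ?_⟩, ?_⟩
  · rw [cov_add, cov_P]
  · rw [Multiset.card_add, card_P]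
    push_cast
    linarith

theorem Has.mono {d : ℕ} {x y : ℝ} (h : Has d x) (hxy : x ≤ y) : Has d y := by
  obtain ⟨F, hF, hc⟩ := h
  refine ⟨F, hF, hc.trans ?_⟩
  gcongr

/-- The step: `e = m + 1`. -/
theorem Has.step {d : ℕ} {x : ℝ} (h : Has d x) (m : ℕ) : Has ((m + 1) + d)
    ((2 * (m + 1) + (2 ^ (m + 1) + 1 - 2 * (m + 1)) * x) / 2 ^ (m + 1)) := by
  obtain ⟨F, hF, hc⟩ := h
  refine ⟨prodM (S (m + 1)) (P d) + prodM (T (m + 1)) F, ⟨?_, fun y => ?_⟩, ?_⟩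
  · exact proper_add (proper_prodM (proper_S _) (proper_P d)) (proper_prodM (proper_T _) hF.proper)
  · rw [cov_add, cov_prodM, cov_prodM, cov_P, hF.twice, mul_one]
    have := cov_S_T (m + 1) (fun i => y (Fin.castAdd d i))
    omega
  · rw [Multiset.card_add, card_prodM, card_prodM, card_S, card_P]
    have h1 : ((T (m + 1)).card : ℝ) = 2 ^ (m + 1) + 1 - 2 * (m + 1) := by
      have := card_T m
      have h2 : (((T (m + 1)).card + 2 * (m + 1) : ℕ) : ℝ) = ((2 ^ (m + 1) + 1 : ℕ) : ℝ) := by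
        rw [this]
      push_cast at h2
      linarith
    have h3 : (0 : ℝ) ≤ ((T (m + 1)).card : ℝ) := by positivity
    push_cast
    have h4 : ((T (m + 1)).card : ℝ) * (F.card : ℝ) ≤ ((T (m + 1)).card : ℝ) * (x * 2 ^ d) :=
      mul_le_mul_of_nonneg_left hc h3
    have h5 : (2 * ((m : ℝ) + 1) + (2 ^ (m + 1) + 1 - 2 * (m + 1)) * x) / 2 ^ (m + 1) *
        2 ^ (m + 1 + d) = 2 * ((m : ℝ) + 1) * 2 ^ d + (2 ^ (m + 1) + 1 - 2 * (m + 1)) * (x * 2 ^ d) := by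
      rw [pow_add (2 : ℝ) (m + 1) d]
      have hne : (2 : ℝ) ^ (m + 1) ≠ 0 := by positivity
      generalize (2 : ℝ) ^ (m + 1) = N at *
      generalize (2 : ℝ) ^ d = M at *
      field_simp
    rw [h5, ← h1]
    linarith

theorem two_mul_le_two_pow (m : ℕ) : (2 * ((m : ℝ) + 1) : ℝ) ≤ 2 ^ (m + 1) := by
  have h : m + 1 ≤ 2 ^ m := Nat.lt_two_pow_self
  have h2 : ((m + 1 : ℕ) : ℝ) ≤ ((2 ^ m : ℕ) : ℝ) := by exact_mod_cast h
  push_cast at h2
  rw [pow_succ]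
  linarith

theorem step_algebra (D N q : ℝ) (hD : D ≠ 0) (hN : N ≠ 0) :
    ((D + 1) + (N + 1 - (D + 1)) * ((D + 1) / D + q)) / N = (D + 1) / D + q * (1 - D / N) := by
  field_simp
  ring

/-- Iterating the step. -/
theorem has_iter (m r k : ℕ) : Has (k * (m + 1) + r)
    ((2 * (m + 1)) / (2 * (m + 1) - 1) +
      (1 - (2 * (m + 1) - 1) / 2 ^ (m + 1)) ^ k) := by
  have hd : (0 : ℝ) < 2 * ((m : ℝ) + 1) - 1 := by
    have : (0 : ℝ) ≤ m := by positivity
    linarith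
  have hp : (0 : ℝ) < 2 ^ (m + 1) := by positivity
  induction k with
  | zero =>
    rw [zero_mul, zero_add]
    refine (has_two r).mono ?_
    rw [pow_zero]
    have : 1 ≤ (2 * ((m : ℝ) + 1)) / (2 * (m + 1) - 1) := by
      rw [le_div_iff₀ hd]; linarith
    linarith
  | succ k ih =>
    have h1 := ih.step m
    have h2 : (m + 1) + (k * (m + 1) + r) = (k + 1) * (m + 1) + r := by ring
    rw [h2] at h1
    refine h1.mono (le_of_eq ?_)
    rw [pow_succ (1 - (2 * ((m : ℝ) + 1) - 1) / 2 ^ (m + 1)) k]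
    generalize (1 - (2 * ((m : ℝ) + 1) - 1) / 2 ^ (m + 1)) ^ k = q
    have h3 := step_algebra (2 * ((m : ℝ) + 1) - 1) (2 ^ (m + 1)) q hd.ne' hp.ne'
    have h4 : 2 * ((m : ℝ) + 1) - 1 + 1 = 2 * ((m : ℝ) + 1) := by ring
    rw [h4] at h3
    exact h3

theorem exists_small (ε : ℝ) (hε : 0 < ε) : ∃ d₀ : ℕ, ∀ d, d₀ ≤ d → Has d (1 + ε) := by
  obtain ⟨m, hm⟩ := exists_nat_gt (1 / ε)
  have hm0 : (0 : ℝ) ≤ m := by positivity
  have hd : (0 : ℝ) < 2 * ((m : ℝ) + 1) - 1 := by linarith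
  have hp : (0 : ℝ) < 2 ^ (m + 1) := by positivity
  have h1 : (2 * ((m : ℝ) + 1)) / (2 * (m + 1) - 1) ≤ 1 + ε / 2 := by
    rw [div_le_iff₀ hd]
    have : 1 < ε * m := by
      rw [div_lt_iff₀ hε] at hm
      linarith
    nlinarith
  set q : ℝ := 1 - (2 * ((m : ℝ) + 1) - 1) / 2 ^ (m + 1) with hq
  have hq0 : 0 ≤ q := by
    rw [hq, sub_nonneg, div_le_one hp]
    have := two_mul_le_two_pow m
    linarith
  have hq1 : q < 1 := by
    rw [hq]
    have : 0 < (2 * ((m : ℝ) + 1) - 1) / 2 ^ (m + 1) := div_pos hd hp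
    linarith
  obtain ⟨k₀, hk₀⟩ := exists_pow_lt_of_lt_one (show 0 < ε / 2 by linarith) hq1
  refine ⟨k₀ * (m + 1), fun d hd' => ?_⟩
  have hk : k₀ ≤ d / (m + 1) := (Nat.le_div_iff_mul_le (Nat.succ_pos m)).2 hd'
  have h2 := has_iter m (d % (m + 1)) (d / (m + 1))
  have h3 : d / (m + 1) * (m + 1) + d % (m + 1) = d := Nat.div_add_mod' d (m + 1)
  rw [h3] at h2
  refine h2.mono ?_
  have h4 : q ^ (d / (m + 1)) ≤ q ^ k₀ := pow_le_pow_of_le_one hq0 hq1.le hk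
  rw [← hq]
  linarith

/-! ### Transfer to larger alphabets -/

/-- The three classes of letters. -/
def cls {n : ℕ} (i : Fin n) : Fin 3 := if i.val = 0 then 0 else if i.val = 1 then 1 else 2

/-- Pull back a box. -/
def pull {n d : ℕ} (B : Fin d → Finset (Fin 3)) : Fin d → Finset (Fin n) :=
  fun i => Finset.univ.filter (fun x => cls x ∈ B i)

theorem cls_surj {n : ℕ} (hn : 3 ≤ n) (a : Fin 3) : ∃ i : Fin n, cls i = a := by
  fin_cases a
  · exact ⟨⟨0, by omega⟩, by simp [cls]⟩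
  · exact ⟨⟨1, by omega⟩, by simp [cls]⟩
  · exact ⟨⟨2, by omega⟩, by simp [cls]⟩

theorem proper_pull {n d : ℕ} (hn : 3 ≤ n) {B : Fin d → Finset (Fin 3)} (hB : IsProperBox B) :
    IsProperBox (pull B : Fin d → Finset (Fin n)) := by
  intro i
  obtain ⟨⟨a, ha⟩, h2⟩ := hB i
  constructor
  · obtain ⟨x, hx⟩ := cls_surj hn a
    exact ⟨x, by simp [pull, hx, ha]⟩
  · intro h3
    apply h2
    ext b
    simp only [Finset.mem_univ, iff_true]
    obtain ⟨x, hx⟩ := cls_surj hn b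
    have : x ∈ (pull B : Fin d → Finset (Fin n)) i := by rw [h3]; exact Finset.mem_univ x
    simp only [pull, Finset.mem_filter, Finset.mem_univ, true_and] at this
    rwa [hx] at this

theorem cov_pull {n d : ℕ} (F : Multiset (Fin d → Finset (Fin 3))) (x : Fin d → Fin n) :
    cov (F.map (pull : (Fin d → Finset (Fin 3)) → (Fin d → Finset (Fin n)))) x =
      cov F (fun i => cls (x i)) := by
  induction F using Multiset.induction_on with
  | empty => simp [cov_zero]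
  | cons B F ih =>
    rw [Multiset.map_cons, cov_cons, cov_cons, ih]
    congr 1
    simp [pull]

theorem exists_cover (n : ℕ) (hn : 3 ≤ n) (ε : ℝ) (hε : 0 < ε) : ∃ d₀ : ℕ, ∀ d, d₀ ≤ d →
    ∃ F : Multiset (Fin d → Finset (Fin n)), IsDoubleCover n d F ∧
      (F.card : ℝ) ≤ (1 + ε) * 2 ^ d := by
  obtain ⟨d₀, h⟩ := exists_small ε hε
  refine ⟨d₀, fun d hd => ?_⟩
  obtain ⟨F, hF, hc⟩ := h d hd
  refine ⟨F.map pull, ⟨?_, fun x => ?_⟩, ?_⟩
  · intro B hB
    rw [Multiset.mem_map] at hB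
    obtain ⟨C, hC, rfl⟩ := hB
    exact proper_pull hn (hF.proper C hC)
  · rw [cov_pull, hF.twice]
  · rw [Multiset.card_map]; exact hc

end Pool.Agent.MP7489fb
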