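import Pool.Agent.MP7489fb.Cover

set_option autoImplicit false

namespace Pool.Agent.MP7489fb

/-- The opposite letter: it exchanges `1` and `2`. -/
def o (a : Fin 3) : Fin 3 := -a

/-- `K a m`: words whose first nonzero letter is `a`; `L a m`: the other words. -/
def KL (a : Fin 3) : (m : ℕ) →
    Multiset (Fin m → Finset (Fin 3)) × Multiset (Fin m → Finset (Fin 3))
  | 0 => (0, {fun i => i.elim0})
  | m + 1 => (consM {0, a} (KL a m).1 + consM {a} (KL a m).2,
      consM {0, o a} (KL a m).2 + consM {o a} (KL a m).1)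

/-- Words whose first nonzero letter is `a` and which contain the other nonzero letter. -/
def J (a : Fin 3) : (m : ℕ) → Multiset (Fin m → Finset (Fin 3))
  | 0 => 0
  | m + 1 => consM {0, a} (J a m) + consM {a} (KL (o a) m).1

/-- Words whose first nonzero letter is `a`, with at least two changes of sign. -/
def E (a : Fin 3) : (m : ℕ) → Multiset (Fin m → Finset (Fin 3))
  | 0 => 0
  | m + 1 => consM {0, a} (E a m) + consM {a} (J (o a) m)

/-- The zero word. -/
def Z (m : ℕ) : Multiset (Fin m → Finset (Fin 3)) := {fun _ => {0}}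

/-- The boxes with prefix in `{0, a}`, one nonzero letter, and suffix in `{0, o a}`. -/
def U (a : Fin 3) : (m : ℕ) → Multiset (Fin m → Finset (Fin 3))
  | 0 => 0
  | m + 1 => consM {0, a} (U a m) + consM {1, 2} {fun _ => {0, o a}}

/-- A partition into `2^m` proper boxes. -/
def P : (m : ℕ) → Multiset (Fin m → Finset (Fin 3))
  | 0 => {fun i => i.elim0}
  | m + 1 => consM {0} (P m) + consM {1, 2} (P m)

/-- Saturating successor. -/
def sat (c : Fin 3) : Fin 3 := if c = 0 then 1 else 2

/-- Reading one more letter on the left. -/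
def stp (b : Fin 3) (q : Fin 3 × Fin 3) : Fin 3 × Fin 3 :=
  if b = 0 then q else if q.1 = 0 ∨ q.1 = b then (b, q.2) else (b, sat q.2)

/-- First nonzero letter and number of changes of sign (at most two are counted). -/
def fc : (m : ℕ) → (Fin m → Fin 3) → Fin 3 × Fin 3
  | 0, _ => (0, 0)
  | m + 1, y => stp (y 0) (fc m (Fin.tail y))

theorem fc_succ (m : ℕ) (y : Fin (m + 1) → Fin 3) :
    fc (m + 1) y = stp (y 0) (fc m (Fin.tail y)) := rfl

theorem fc_zero : ∀ (m : ℕ) (y : Fin m → Fin 3), (fc m y).1 = 0 → (fc m y).2 = 0 := by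
  intro m
  induction m with
  | zero => intro y _; rfl
  | succ m ih =>
    intro y
    rw [fc_succ]
    have h : ∀ (b : Fin 3) (q : Fin 3 × Fin 3), (q.1 = 0 → q.2 = 0) →
        (stp b q).1 = 0 → (stp b q).2 = 0 := by decide
    exact h _ _ (ih _)

theorem cov_const {m : ℕ} (A : Finset (Fin 3)) (y : Fin (m + 1) → Fin 3) :
    cov ({fun _ => A} : Multiset (Fin (m + 1) → Finset (Fin 3))) y =
      if y 0 ∈ A then cov ({fun _ => A} : Multiset (Fin m → Finset (Fin 3))) (Fin.tail y)
        else 0 := by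
  rw [cov_singleton, cov_singleton]
  simp only [Fin.forall_fin_succ, Fin.tail]
  by_cases h : y 0 ∈ A
  · simp [h]
  · simp [h]

theorem cov_KL (a : Fin 3) (ha : a ≠ 0) : ∀ (m : ℕ) (y : Fin m → Fin 3),
    cov (KL a m).1 y = (if (fc m y).1 = a then 1 else 0) ∧
    cov (KL a m).2 y = (if (fc m y).1 = a then 0 else 1) := by
  intro m
  induction m with
  | zero =>
    intro y
    simp only [KL, fc, cov_zero, cov_singleton]
    refine ⟨by simp [ha.symm], by simp [ha.symm]⟩
  | succ m ih =>
    intro y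
    obtain ⟨h1, h2⟩ := ih (Fin.tail y)
    simp only [KL, cov_add, cov_consM, h1, h2, fc_succ]
    have h : ∀ (a : Fin 3), a ≠ 0 → ∀ (b : Fin 3) (q : Fin 3 × Fin 3),
        (((if b ∈ ({0, a} : Finset (Fin 3)) then (if q.1 = a then 1 else 0) else 0) +
          (if b ∈ ({a} : Finset (Fin 3)) then (if q.1 = a then 0 else 1) else 0) : ℕ) =
          if (stp b q).1 = a then 1 else 0) ∧
        (((if b ∈ ({0, o a} : Finset (Fin 3)) then (if q.1 = a then 0 else 1) else 0) +
          (if b ∈ ({o a} : Finset (Fin 3)) then (if q.1 = a then 1 else 0) else 0) : ℕ) =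
          if (stp b q).1 = a then 0 else 1) := by decide
    exact h a ha _ _

theorem cov_J : ∀ (m : ℕ) (a : Fin 3), a ≠ 0 → ∀ (y : Fin m → Fin 3),
    cov (J a m) y = (if (fc m y).1 = a ∧ (fc m y).2 ≠ 0 then 1 else 0) := by
  intro m
  induction m with
  | zero => intro a _ y; simp [J, fc, cov_zero]
  | succ m ih =>
    intro a ha y
    have hz := fc_zero m (Fin.tail y)
    have hoa : o a ≠ 0 := by revert a; decide
    simp only [J, cov_add, cov_consM, ih a ha (Fin.tail y), (cov_KL (o a) hoa m (Fin.tail y)).1,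
      fc_succ]
    have h : ∀ (a : Fin 3), a ≠ 0 → ∀ (b : Fin 3) (q : Fin 3 × Fin 3), (q.1 = 0 → q.2 = 0) →
        (((if b ∈ ({0, a} : Finset (Fin 3)) then (if q.1 = a ∧ q.2 ≠ 0 then 1 else 0) else 0) +
          (if b ∈ ({a} : Finset (Fin 3)) then (if q.1 = o a then 1 else 0) else 0) : ℕ) =
          if (stp b q).1 = a ∧ (stp b q).2 ≠ 0 then 1 else 0) := by decide
    exact h a ha _ _ hz

theorem cov_E : ∀ (m : ℕ) (a : Fin 3), a ≠ 0 → ∀ (y : Fin m → Fin 3),
    cov (E a m) y = (if (fc m y).1 = a ∧ (fc m y).2 = 2 then 1 else 0) := by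
  intro m
  induction m with
  | zero => intro a _ y; simp [E, fc, cov_zero]
  | succ m ih =>
    intro a ha y
    have hz := fc_zero m (Fin.tail y)
    have hoa : o a ≠ 0 := by revert a; decide
    simp only [E, cov_add, cov_consM, ih a ha (Fin.tail y), cov_J m (o a) hoa (Fin.tail y),
      fc_succ]
    have h : ∀ (a : Fin 3), a ≠ 0 → ∀ (b : Fin 3) (q : Fin 3 × Fin 3), (q.1 = 0 → q.2 = 0) →
        (((if b ∈ ({0, a} : Finset (Fin 3)) then (if q.1 = a ∧ q.2 = 2 then 1 else 0) else 0) +
          (if b ∈ ({a} : Finset (Fin 3)) then (if q.1 = o a ∧ q.2 ≠ 0 then 1 else 0) else 0) :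
            ℕ) =
          if (stp b q).1 = a ∧ (stp b q).2 = 2 then 1 else 0) := by decide
    exact h a ha _ _ hz

theorem cov_Z : ∀ (m : ℕ) (y : Fin m → Fin 3),
    cov (Z m) y = (if (fc m y).1 = 0 then 1 else 0) := by
  intro m
  induction m with
  | zero => intro y; simp [Z, fc, cov_singleton]
  | succ m ih =>
    intro y
    have ih' := ih (Fin.tail y)
    unfold Z at ih' ⊢
    rw [cov_const, ih', fc_succ]
    have h : ∀ (b : Fin 3) (q : Fin 3 × Fin 3),
        ((if b ∈ ({0} : Finset (Fin 3)) then (if q.1 = 0 then 1 else 0) else 0 : ℕ) =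
          if (stp b q).1 = 0 then 1 else 0) := by decide
    exact h _ _

theorem cov_suffix (a : Fin 3) (ha : a ≠ 0) : ∀ (m : ℕ) (y : Fin m → Fin 3),
    cov ({fun _ => {0, a}} : Multiset (Fin m → Finset (Fin 3))) y =
      (if (fc m y).2 = 0 ∧ (fc m y).1 ≠ o a then 1 else 0) := by
  intro m
  induction m with
  | zero =>
    intro y
    have hoa : o a ≠ 0 := by revert a; decide
    simp [fc, cov_singleton, hoa.symm]
  | succ m ih =>
    intro y
    have hz := fc_zero m (Fin.tail y)
    rw [cov_const, ih, fc_succ]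
    have h : ∀ (a : Fin 3), a ≠ 0 → ∀ (b : Fin 3) (q : Fin 3 × Fin 3), (q.1 = 0 → q.2 = 0) →
        ((if b ∈ ({0, a} : Finset (Fin 3)) then (if q.2 = 0 ∧ q.1 ≠ o a then 1 else 0) else 0 :
          ℕ) = if (stp b q).2 = 0 ∧ (stp b q).1 ≠ o a then 1 else 0) := by decide
    exact h a ha _ _ hz

theorem cov_U : ∀ (m : ℕ) (a : Fin 3), a ≠ 0 → ∀ (y : Fin m → Fin 3),
    cov (U a m) y = (if (fc m y).1 = 0 then 0 else if (fc m y).1 = a then
      (if (fc m y).2 = 0 then 1 else if (fc m y).2 = 1 then 2 else 0) else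
      (if (fc m y).2 = 0 then 1 else 0)) := by
  intro m
  induction m with
  | zero => intro a _ y; simp [U, fc, cov_zero]
  | succ m ih =>
    intro a ha y
    have hz := fc_zero m (Fin.tail y)
    have hoa : o a ≠ 0 := by revert a; decide
    simp only [U, cov_add, cov_consM, ih a ha (Fin.tail y), cov_suffix (o a) hoa m (Fin.tail y),
      fc_succ]
    have h : ∀ (a : Fin 3), a ≠ 0 → ∀ (b : Fin 3) (q : Fin 3 × Fin 3), (q.1 = 0 → q.2 = 0) →
        (((if b ∈ ({0, a} : Finset (Fin 3)) then (if q.1 = 0 then 0 else if q.1 = a then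
            (if q.2 = 0 then 1 else if q.2 = 1 then 2 else 0) else
            (if q.2 = 0 then 1 else 0)) else 0) +
          (if b ∈ ({1, 2} : Finset (Fin 3)) then (if q.2 = 0 ∧ q.1 ≠ o (o a) then 1 else 0)
            else 0) : ℕ) =
          if (stp b q).1 = 0 then 0 else if (stp b q).1 = a then
            (if (stp b q).2 = 0 then 1 else if (stp b q).2 = 1 then 2 else 0) else
            (if (stp b q).2 = 0 then 1 else 0)) := by decide
    exact h a ha _ _ hz

theorem cov_P : ∀ (m : ℕ) (y : Fin m → Fin 3), cov (P m) y = 1 := by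
  intro m
  induction m with
  | zero => intro y; simp [P, cov_singleton]
  | succ m ih =>
    intro y
    simp only [P, cov_add, cov_consM, ih (Fin.tail y)]
    have h : ∀ (b : Fin 3), ((if b ∈ ({0} : Finset (Fin 3)) then 1 else 0) +
        (if b ∈ ({1, 2} : Finset (Fin 3)) then 1 else 0) : ℕ) = 1 := by decide
    exact h _

/-- The single boxes. -/
def S (m : ℕ) : Multiset (Fin m → Finset (Fin 3)) := U 1 m + U 2 m

/-- The boxes which are used twice. -/
def T (m : ℕ) : Multiset (Fin m → Finset (Fin 3)) := E 1 m + E 2 m + Z m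

theorem cov_S_T (m : ℕ) (y : Fin m → Fin 3) : cov (S m) y + 2 * cov (T m) y = 2 := by
  have hz := fc_zero m y
  unfold S T
  simp only [cov_add, cov_U m 1 (by decide) y, cov_U m 2 (by decide) y,
    cov_E m 1 (by decide) y, cov_E m 2 (by decide) y, cov_Z m y]
  generalize fc m y = q at *
  revert q
  decide

theorem card_KL (a : Fin 3) : ∀ (m : ℕ), (KL a (m + 1)).1.card = 2 ^ m ∧
    (KL a (m + 1)).2.card = 2 ^ m := by
  intro m
  induction m with
  | zero => simp [KL, card_consM]
  | succ m ih =>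
    have h1 : (KL a (m + 1 + 1)).1 = consM {0, a} (KL a (m + 1)).1 + consM {a} (KL a (m + 1)).2 :=
      rfl
    have h2 : (KL a (m + 1 + 1)).2 = consM {0, o a} (KL a (m + 1)).2 +
      consM {o a} (KL a (m + 1)).1 := rfl
    rw [h1, h2]
    simp only [Multiset.card_add, card_consM, ih.1, ih.2]
    constructor <;> ring

theorem card_J : ∀ (m : ℕ) (a : Fin 3), (J a (m + 1)).card + 1 = 2 ^ m := by
  intro m
  induction m with
  | zero => intro a; simp [J, KL, consM]
  | succ m ih =>
    intro a
    have h1 : J a (m + 1 + 1) = consM {0, a} (J a (m + 1)) + consM {a} (KL (o a) (m + 1)).1 := rfl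
    rw [h1]
    simp only [Multiset.card_add, card_consM, (card_KL (o a) m).1]
    have := ih a
    rw [pow_succ]
    omega

theorem card_E : ∀ (m : ℕ) (a : Fin 3), (E a (m + 1)).card + (m + 1) = 2 ^ m := by
  intro m
  induction m with
  | zero => intro a; simp [E, J, consM]
  | succ m ih =>
    intro a
    have h1 : E a (m + 1 + 1) = consM {0, a} (E a (m + 1)) + consM {a} (J (o a) (m + 1)) := rfl
    rw [h1]
    simp only [Multiset.card_add, card_consM]
    have := ih a
    have := card_J m (o a)
    rw [pow_succ]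
    omega

theorem card_U : ∀ (m : ℕ) (a : Fin 3), (U a m).card = m := by
  intro m
  induction m with
  | zero => intro a; simp [U]
  | succ m ih =>
    intro a
    simp [U, card_consM, ih a]

theorem card_P : ∀ (m : ℕ), (P m).card = 2 ^ m := by
  intro m
  induction m with
  | zero => simp [P]
  | succ m ih =>
    simp only [P, Multiset.card_add, card_consM, ih]
    ring

theorem card_S (m : ℕ) : (S m).card = 2 * m := by
  unfold S; rw [Multiset.card_add, card_U, card_U]; ring

theorem card_T (m : ℕ) : (T (m + 1)).card + 2 * (m + 1) = 2 ^ (m + 1) + 1 := by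
  unfold T Z
  simp only [Multiset.card_add, Multiset.card_singleton]
  have := card_E m 1
  have := card_E m 2
  rw [pow_succ]
  omega

theorem ok1 (a : Fin 3) : ({a} : Finset (Fin 3)).Nonempty ∧ ({a} : Finset (Fin 3)) ≠ Finset.univ := by
  revert a; decide

theorem ok2 (a : Fin 3) : ({0, a} : Finset (Fin 3)).Nonempty ∧
    ({0, a} : Finset (Fin 3)) ≠ Finset.univ := by
  revert a; decide

theorem ok12 : ({1, 2} : Finset (Fin 3)).Nonempty ∧ ({1, 2} : Finset (Fin 3)) ≠ Finset.univ := by
  decide

theorem proper_add {d n : ℕ} {F G : Multiset (Fin d → Finset (Fin n))}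
    (hF : ∀ B ∈ F, IsProperBox B) (hG : ∀ B ∈ G, IsProperBox B) :
    ∀ B ∈ F + G, IsProperBox B := by
  intro B hB
  rcases Multiset.mem_add.1 hB with h | h
  · exact hF B h
  · exact hG B h

theorem proper_KL (a : Fin 3) : ∀ (m : ℕ), (∀ B ∈ (KL a m).1, IsProperBox B) ∧
    (∀ B ∈ (KL a m).2, IsProperBox B) := by
  intro m
  induction m with
  | zero =>
    refine ⟨by simp [KL], ?_⟩
    intro B _ i
    exact i.elim0
  | succ m ih =>
    exact ⟨proper_add (proper_consM (ok2 a) ih.1) (proper_consM (ok1 a) ih.2),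
      proper_add (proper_consM (ok2 (o a)) ih.2) (proper_consM (ok1 (o a)) ih.1)⟩

theorem proper_J : ∀ (m : ℕ) (a : Fin 3), ∀ B ∈ J a m, IsProperBox B := by
  intro m
  induction m with
  | zero => intro a; simp [J]
  | succ m ih =>
    intro a
    exact proper_add (proper_consM (ok2 a) (ih a)) (proper_consM (ok1 a) (proper_KL (o a) m).1)

theorem proper_E : ∀ (m : ℕ) (a : Fin 3), ∀ B ∈ E a m, IsProperBox B := by
  intro m
  induction m with
  | zero => intro a; simp [E]
  | succ m ih =>
    intro a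
    exact proper_add (proper_consM (ok2 a) (ih a)) (proper_consM (ok1 a) (proper_J m (o a)))

theorem proper_U : ∀ (m : ℕ) (a : Fin 3), ∀ B ∈ U a m, IsProperBox B := by
  intro m
  induction m with
  | zero => intro a; simp [U]
  | succ m ih =>
    intro a
    refine proper_add (proper_consM (ok2 a) (ih a)) (proper_consM ok12 ?_)
    intro B hB i
    rw [Multiset.mem_singleton] at hB
    rw [hB]
    exact ok2 (o a)

theorem proper_P : ∀ (m : ℕ), ∀ B ∈ P m, IsProperBox B := by
  intro m
  induction m with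
  | zero => intro B _ i; exact i.elim0
  | succ m ih => exact proper_add (proper_consM (ok1 0) ih) (proper_consM ok12 ih)

theorem proper_S (m : ℕ) : ∀ B ∈ S m, IsProperBox B :=
  proper_add (proper_U m 1) (proper_U m 2)

theorem proper_T (m : ℕ) : ∀ B ∈ T m, IsProperBox B := by
  refine proper_add (proper_add (proper_E m 1) (proper_E m 2)) ?_
  intro B hB i
  unfold Z at hB
  rw [Multiset.mem_singleton] at hB
  rw [hB]
  exact ok1 0

end Pool.Agent.MP7489fb
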