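import Mathlib

set_option autoImplicit false

/-! Double covers of `[n]^d` by proper boxes. -/

namespace Pool.Agent.MP7489fb

/-- The number of members of the family `F` of boxes (with multiplicity) which contain the
point `x`; the box `B` stands for the product of the sets `B i`. -/
def cov {d n : ℕ} (F : Multiset (Fin d → Finset (Fin n))) (x : Fin d → Fin n) : ℕ :=
  (F.filter (fun B => ∀ i, x i ∈ B i)).card

/-- The box is proper: every factor is nonempty and different from the whole of `[n]`. -/
def IsProperBox {d n : ℕ} (B : Fin d → Finset (Fin n)) : Prop :=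
  ∀ i, (B i).Nonempty ∧ B i ≠ Finset.univ

/-- The family `F` of proper boxes covers every point of `[n]^d` exactly twice. -/
structure IsDoubleCover (n d : ℕ) (F : Multiset (Fin d → Finset (Fin n))) : Prop where
  proper : ∀ B ∈ F, IsProperBox B
  twice : ∀ x : Fin d → Fin n, cov F x = 2

section basic

variable {d n : ℕ}

theorem cov_add (F G : Multiset (Fin d → Finset (Fin n))) (x : Fin d → Fin n) :
    cov (F + G) x = cov F x + cov G x := by
  unfold cov; rw [Multiset.filter_add, Multiset.card_add]

theorem cov_zero (x : Fin d → Fin n) : cov (0 : Multiset (Fin d → Finset (Fin n))) x = 0 := by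
  unfold cov; simp

theorem cov_singleton (B : Fin d → Finset (Fin n)) (x : Fin d → Fin n) :
    cov {B} x = if ∀ i, x i ∈ B i then 1 else 0 := by
  unfold cov
  rw [Multiset.filter_singleton]
  split_ifs <;> simp

theorem cov_cons (B : Fin d → Finset (Fin n)) (F : Multiset (Fin d → Finset (Fin n)))
    (x : Fin d → Fin n) : cov (B ::ₘ F) x = (if ∀ i, x i ∈ B i then 1 else 0) + cov F x := by
  rw [← Multiset.singleton_add, cov_add, cov_singleton]

/-- Add a first coordinate. -/
def consM (A : Finset (Fin n)) (F : Multiset (Fin d → Finset (Fin n))) :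
    Multiset (Fin (d + 1) → Finset (Fin n)) :=
  F.map (fun B => (Fin.cons A B : Fin (d + 1) → Finset (Fin n)))

theorem card_consM (A : Finset (Fin n)) (F : Multiset (Fin d → Finset (Fin n))) :
    (consM A F).card = F.card := by
  unfold consM; rw [Multiset.card_map]

theorem cov_consM (A : Finset (Fin n)) (F : Multiset (Fin d → Finset (Fin n)))
    (x : Fin (d + 1) → Fin n) :
    cov (consM A F) x = if x 0 ∈ A then cov F (Fin.tail x) else 0 := by
  induction F using Multiset.induction_on with
  | empty => simp [consM, cov_zero]
  | cons B F ih =>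
    have h1 : consM A (B ::ₘ F) = (Fin.cons A B : Fin (d + 1) → Finset (Fin n)) ::ₘ consM A F := by
      unfold consM; rw [Multiset.map_cons]
    rw [h1, cov_cons, cov_cons, ih]
    have h2 : (∀ i, x i ∈ (Fin.cons A B : Fin (d + 1) → Finset (Fin n)) i) ↔
        (x 0 ∈ A ∧ ∀ i, Fin.tail x i ∈ B i) := by
      rw [Fin.forall_fin_succ]
      simp only [Fin.cons_zero, Fin.cons_succ, Fin.tail]
    simp only [h2]
    by_cases h3 : x 0 ∈ A
    · simp [h3]
    · simp [h3]

theorem proper_consM {A : Finset (Fin n)} (hA : A.Nonempty ∧ A ≠ Finset.univ)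
    {F : Multiset (Fin d → Finset (Fin n))} (hF : ∀ B ∈ F, IsProperBox B) :
    ∀ B ∈ consM A F, IsProperBox B := by
  intro B hB
  unfold consM at hB
  rw [Multiset.mem_map] at hB
  obtain ⟨C, hC, rfl⟩ := hB
  intro i
  refine Fin.cases ?_ ?_ i
  · simpa using hA
  · intro j
    simpa using hF C hC j

/-- The product of two families. -/
def prodM {e : ℕ} (S : Multiset (Fin e → Finset (Fin n))) (F : Multiset (Fin d → Finset (Fin n))) :
    Multiset (Fin (e + d) → Finset (Fin n)) :=
  (S ×ˢ F).map (fun p => (Fin.append p.1 p.2 : Fin (e + d) → Finset (Fin n)))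

theorem card_prodM {e : ℕ} (S : Multiset (Fin e → Finset (Fin n)))
    (F : Multiset (Fin d → Finset (Fin n))) : (prodM S F).card = S.card * F.card := by
  unfold prodM; rw [Multiset.card_map, Multiset.card_product]

theorem forall_append {e : ℕ} (B : Fin e → Finset (Fin n)) (C : Fin d → Finset (Fin n))
    (x : Fin (e + d) → Fin n) : (∀ i, x i ∈ Fin.append B C i) ↔
      ((∀ i, x (Fin.castAdd d i) ∈ B i) ∧ ∀ i, x (Fin.natAdd e i) ∈ C i) := by
  constructor
  · intro h
    refine ⟨fun i => ?_, fun i => ?_⟩
    · have := h (Fin.castAdd d i)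
      rwa [Fin.append_left] at this
    · have := h (Fin.natAdd e i)
      rwa [Fin.append_right] at this
  · rintro ⟨h1, h2⟩ i
    refine Fin.addCases (fun j => ?_) (fun j => ?_) i
    · rw [Fin.append_left]; exact h1 j
    · rw [Fin.append_right]; exact h2 j

theorem cov_prodM {e : ℕ} (S : Multiset (Fin e → Finset (Fin n)))
    (F : Multiset (Fin d → Finset (Fin n))) (x : Fin (e + d) → Fin n) :
    cov (prodM S F) x = cov S (fun i => x (Fin.castAdd d i)) *
      cov F (fun i => x (Fin.natAdd e i)) := by
  induction S using Multiset.induction_on with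
  | empty => simp [prodM, cov_zero]
  | cons B S ih =>
    have h1 : prodM (B ::ₘ S) F =
        F.map (fun C => (Fin.append B C : Fin (e + d) → Finset (Fin n))) + prodM S F := by
      unfold prodM
      rw [Multiset.cons_product, Multiset.map_add, Multiset.map_map]
      rfl
    rw [h1, cov_add, ih, cov_cons, add_mul]
    congr 1
    induction F using Multiset.induction_on with
    | empty => simp [cov_zero]
    | cons C F ih2 =>
      rw [Multiset.map_cons, cov_cons, cov_cons, mul_add]
      have ih3 : cov (Multiset.map (fun C => (Fin.append B C : Fin (e + d) → Finset (Fin n))) F) x =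
          (if ∀ i, x (Fin.castAdd d i) ∈ B i then 1 else 0) *
            cov F (fun i => x (Fin.natAdd e i)) := by
        clear ih h1 ih2
        induction F using Multiset.induction_on with
        | empty => simp [cov_zero]
        | cons C' F ih4 =>
          rw [Multiset.map_cons, cov_cons, cov_cons, mul_add, ih4]
          congr 1
          simp only [forall_append]
          by_cases h5 : ∀ i, x (Fin.castAdd d i) ∈ B i
          · simp [h5]
          · simp [h5]
      rw [ih3]
      congr 1
      simp only [forall_append]
      by_cases h5 : ∀ i, x (Fin.castAdd d i) ∈ B i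
      · simp [h5]
      · simp [h5]

theorem proper_prodM {e : ℕ} {S : Multiset (Fin e → Finset (Fin n))}
    {F : Multiset (Fin d → Finset (Fin n))} (hS : ∀ B ∈ S, IsProperBox B)
    (hF : ∀ B ∈ F, IsProperBox B) : ∀ B ∈ prodM S F, IsProperBox B := by
  intro B hB
  unfold prodM at hB
  rw [Multiset.mem_map] at hB
  obtain ⟨⟨C, C'⟩, hC, rfl⟩ := hB
  rw [Multiset.mem_product] at hC
  intro i
  refine Fin.addCases (fun j => ?_) (fun j => ?_) i
  · simp only [Fin.append_left]; exact hS C hC.1 j
  · simp only [Fin.append_right]; exact hF C' hC.2 j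

end basic

end Pool.Agent.MP7489fb
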