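import Pool.Agent.MP7489fb.Cover

set_option autoImplicit false

/-! Lower bound for double covers: the counting identities. -/

namespace Pool.Agent.MP7489fb.Low

open Finset

variable {d n : ℕ}

/-- The weight of the box `B` for the weights `f i a`. -/
def W (f : Fin d → Fin n → ℕ) (B : Fin d → Finset (Fin n)) : ℕ := ∏ i, ∑ a ∈ B i, f i a

theorem W_eq (f : Fin d → Fin n → ℕ) (B : Fin d → Finset (Fin n)) :
    W f B = ∑ x : Fin d → Fin n, (∏ i, f i (x i)) * (if ∀ i, x i ∈ B i then 1 else 0) := by
  unfold W
  rw [Finset.prod_univ_sum]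
  simp only [mul_ite, mul_one, mul_zero]
  rw [← Finset.sum_filter]
  apply Finset.sum_congr
  · ext x; simp [Fintype.mem_piFinset]
  · intro x _; rfl

theorem sum_W (f : Fin d → Fin n → ℕ) (F : Multiset (Fin d → Finset (Fin n))) :
    (F.map (W f)).sum = ∑ x : Fin d → Fin n, (∏ i, f i (x i)) * cov F x := by
  induction F using Multiset.induction_on with
  | empty => simp [cov_zero]
  | cons B F ih =>
    rw [Multiset.map_cons, Multiset.sum_cons, ih, W_eq, ← Finset.sum_add_distrib]
    refine Finset.sum_congr rfl fun x _ => ?_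
    rw [cov_cons, mul_add]

theorem sum_W_double (f : Fin d → Fin n → ℕ) (F : Multiset (Fin d → Finset (Fin n)))
    (hF : IsDoubleCover n d F) :
    (F.map (W f)).sum = 2 * ∏ i, ∑ a, f i a := by
  rw [sum_W, Finset.prod_univ_sum, Finset.mul_sum]
  have : (Fintype.piFinset fun _ : Fin d => (Finset.univ : Finset (Fin n))) = Finset.univ := by
    ext x; simp
  rw [this]
  refine Finset.sum_congr rfl fun x _ => ?_
  rw [hF.twice x, mul_comm]

theorem count_le_two (F : Multiset (Fin d → Finset (Fin n))) (hF : IsDoubleCover n d F)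
    (B : Fin d → Finset (Fin n)) : F.count B ≤ 2 := by
  by_cases hB : B ∈ F
  · have hp := hF.proper B hB
    choose x hx using fun i => (hp i).1
    have h := hF.twice x
    rw [← h, cov, ← Multiset.count_filter_of_pos (p := fun B => ∀ i, x i ∈ B i) hx]
    exact Multiset.count_le_card _ _
  · rw [Multiset.count_eq_zero_of_notMem hB]; omega

/-- The boxes which occur exactly once. -/
def S (F : Multiset (Fin d → Finset (Fin n))) : Finset (Fin d → Finset (Fin n)) :=
  univ.filter (fun B => F.count B = 1)

/-- The boxes which occur exactly twice. -/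
def T (F : Multiset (Fin d → Finset (Fin n))) : Finset (Fin d → Finset (Fin n)) :=
  univ.filter (fun B => F.count B = 2)

theorem sum_split (F : Multiset (Fin d → Finset (Fin n))) (hF : IsDoubleCover n d F)
    (g : (Fin d → Finset (Fin n)) → ℕ) :
    (F.map g).sum = ∑ B ∈ S F, g B + 2 * ∑ B ∈ T F, g B := by
  rw [Finset.sum_multiset_map_count, S, T, Finset.sum_filter, Finset.sum_filter,
    Finset.mul_sum, ← Finset.sum_add_distrib]
  rw [← Finset.sum_subset (Finset.subset_univ F.toFinset)]
  · refine Finset.sum_congr rfl fun B hB => ?_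
    have h1 := count_le_two F hF B
    have h0 : 0 < F.count B := Multiset.count_pos.2 (Multiset.mem_toFinset.1 hB)
    rcases (show F.count B = 1 ∨ F.count B = 2 by omega) with h | h
    · simp [h]
    · simp [h]
  · intro B _ hB
    have : F.count B = 0 := by
      rw [Multiset.count_eq_zero]
      intro h; exact hB (Multiset.mem_toFinset.2 h)
    simp [this]

theorem card_split (F : Multiset (Fin d → Finset (Fin n))) (hF : IsDoubleCover n d F) :
    F.card = (S F).card + 2 * (T F).card := by
  have := sum_split F hF (fun _ => 1)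
  simpa using this

theorem toFinset_card (F : Multiset (Fin d → Finset (Fin n))) (hF : IsDoubleCover n d F) :
    F.toFinset.card = (S F).card + (T F).card := by
  rw [← Finset.card_union_of_disjoint]
  · congr 1
    ext B
    have h1 := count_le_two F hF B
    rw [Multiset.mem_toFinset, Finset.mem_union, S, T, Finset.mem_filter, Finset.mem_filter,
      ← Multiset.count_pos]
    simp only [Finset.mem_univ, true_and]
    omega
  · rw [Finset.disjoint_left]
    intro B h1 h2
    rw [S, Finset.mem_filter] at h1
    rw [T, Finset.mem_filter] at h2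
    omega

/-- The basic identity. -/
theorem main_id (f : Fin d → Fin n → ℕ) (F : Multiset (Fin d → Finset (Fin n)))
    (hF : IsDoubleCover n d F) :
    ∑ B ∈ S F, W f B + 2 * ∑ B ∈ T F, W f B = 2 * ∏ i, ∑ a, f i a := by
  rw [← sum_split F hF (W f), sum_W_double f F hF]

theorem S_proper (F : Multiset (Fin d → Finset (Fin n))) (hF : IsDoubleCover n d F)
    {B : Fin d → Finset (Fin n)} (hB : B ∈ S F) : IsProperBox B := by
  apply hF.proper
  rw [S, Finset.mem_filter] at hB
  rw [← Multiset.count_pos]; omega

theorem T_proper (F : Multiset (Fin d → Finset (Fin n))) (hF : IsDoubleCover n d F)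
    {B : Fin d → Finset (Fin n)} (hB : B ∈ T F) : IsProperBox B := by
  apply hF.proper
  rw [T, Finset.mem_filter] at hB
  rw [← Multiset.count_pos]; omega

/-! ### Odd vectors -/

/-- The vectors modulo two with sum one. -/
def Odds (n : ℕ) : Finset (Fin n → ZMod 2) := univ.filter (fun r => ∑ a, r a = 1)

/-- The sign of a residue modulo two. -/
def sg (z : ZMod 2) : ℤ := if z = 0 then 1 else -1

theorem sg_add (x y : ZMod 2) : sg (x + y) = sg x * sg y := by
  revert x y; decide

theorem sum_sg_zero (v : Fin n → ZMod 2) (h1 : ∃ a, v a = 1) (h0 : ∃ b, v b = 0) :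
    ∑ r ∈ Odds n, sg (∑ a, r a * v a) = 0 := by
  obtain ⟨a, ha⟩ := h1
  obtain ⟨b, hb⟩ := h0
  have hab : a ≠ b := by rintro rfl; rw [ha] at hb; exact absurd hb (by decide)
  set c : Fin n → ZMod 2 := fun i => if i = a then 1 else if i = b then 1 else 0 with hc
  have hc1 : ∑ i, c i = 0 := by
    have : ∀ i, c i = (if i = a then 1 else 0) + (if i = b then 1 else 0) := by
      intro i
      simp only [hc]
      by_cases h : i = a
      · subst h; simp [hab]
      · simp [h]
    simp only [this, Finset.sum_add_distrib, Finset.sum_ite_eq', Finset.mem_univ, if_true]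
    decide
  have hcv : ∑ i, c i * v i = 1 := by
    have : ∀ i, c i * v i = (if i = a then 1 else 0) := by
      intro i
      simp only [hc]
      by_cases h : i = a
      · subst h; simp [ha]
      · by_cases h' : i = b
        · subst h'; simp [h, hb]
        · simp [h, h']
    simp only [this, Finset.sum_ite_eq', Finset.mem_univ, if_true]
  have hcc : ∀ i, c i + c i = 0 := by intro i; exact CharTwo.add_self_eq_zero (c i)
  have key : ∑ r ∈ Odds n, sg (∑ a, r a * v a) = ∑ r ∈ Odds n, - sg (∑ a, r a * v a) := by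
    refine Finset.sum_nbij' (fun r => r + c) (fun r => r + c) ?_ ?_ ?_ ?_ ?_
    · intro r hr
      rw [Odds, Finset.mem_filter] at hr ⊢
      refine ⟨Finset.mem_univ _, ?_⟩
      simp only [Pi.add_apply, Finset.sum_add_distrib, hc1, add_zero, hr.2]
    · intro r hr
      rw [Odds, Finset.mem_filter] at hr ⊢
      refine ⟨Finset.mem_univ _, ?_⟩
      simp only [Pi.add_apply, Finset.sum_add_distrib, hc1, add_zero, hr.2]
    · intro r _
      ext i; simp only [Pi.add_apply, add_assoc, hcc, add_zero]
    · intro r _
      ext i; simp only [Pi.add_apply, add_assoc, hcc, add_zero]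
    · intro r _
      have : ∑ i, (r + c) i * v i = ∑ i, r i * v i + 1 := by
        simp only [Pi.add_apply, add_mul, Finset.sum_add_distrib, hcv]
      rw [this, sg_add]
      have : sg 1 = -1 := by decide
      rw [this]; ring
  rw [Finset.sum_neg_distrib] at key
  linarith

theorem sum_sg_nonpos (v : Fin n → ZMod 2) (h1 : ∃ a, v a = 1) :
    ∑ r ∈ Odds n, sg (∑ a, r a * v a) ≤ 0 := by
  by_cases h0 : ∃ b, v b = 0
  · exact le_of_eq (sum_sg_zero v h1 h0)
  · push Not at h0
    apply Finset.sum_nonpos
    intro r hr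
    rw [Odds, Finset.mem_filter] at hr
    have : ∀ a, v a = 1 := by
      intro a
      have := h0 a
      revert this
      generalize v a = z
      revert z; decide
    simp only [this, mul_one, hr.2]
    decide

/-- Indicator vector. -/
def ind (A : Finset (Fin n)) (a : Fin n) : ZMod 2 := if a ∈ A then 1 else 0

/-- The number of elements of the support of `r` in `A`. -/
def pr (A : Finset (Fin n)) (r : Fin n → ZMod 2) : ℕ := ∑ a ∈ A, (r a).val

theorem pr_cast (A : Finset (Fin n)) (r : Fin n → ZMod 2) :
    ((pr A r : ℕ) : ZMod 2) = ∑ a, r a * ind A a := by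
  unfold pr ind
  simp only [Nat.cast_sum, ZMod.natCast_val, ZMod.cast_id', id_eq, mul_ite, mul_one, mul_zero]
  rw [← Finset.sum_filter]
  congr 1
  ext a; simp

theorem sg_pr (A : Finset (Fin n)) (r : Fin n → ZMod 2) :
    sg (∑ a, r a * ind A a) = if Odd (pr A r) then -1 else 1 := by
  rw [← pr_cast]
  unfold sg
  by_cases h : Odd (pr A r)
  · rw [if_pos h, if_neg]
    rw [ZMod.natCast_eq_zero_iff_even]
    exact Nat.not_even_iff_odd.2 h
  · rw [if_neg h, if_pos]
    rw [ZMod.natCast_eq_zero_iff_even]
    exact Nat.not_odd_iff_even.1 h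

theorem half (A : Finset (Fin n)) (hA : A.Nonempty) (hA' : A ≠ univ) :
    2 * ((Odds n).filter (fun r => Odd (pr A r))).card = (Odds n).card := by
  have h := sum_sg_zero (ind A) (by obtain ⟨a, ha⟩ := hA; exact ⟨a, by simp [ind, ha]⟩)
    (by
      by_contra hcon
      push Not at hcon
      apply hA'
      ext a
      simp only [Finset.mem_univ, iff_true]
      by_contra ha
      exact hcon a (by simp [ind, ha]))
  have e : ∀ r, sg (∑ a, r a * ind A a) = 1 - 2 * (if Odd (pr A r) then 1 else 0) := by
    intro r; rw [sg_pr]; split_ifs <;> norm_num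
  simp only [e, Finset.sum_sub_distrib, Finset.sum_const, nsmul_eq_mul, mul_one,
    ← Finset.mul_sum, Finset.sum_boole] at h
  have : (2 * (((Odds n).filter (fun r => Odd (pr A r))).card : ℤ)) = (Odds n).card := by
    linarith
  exact_mod_cast this

theorem quarter (A A' : Finset (Fin n)) (hA : A.Nonempty) (hA1 : A ≠ univ) (hB : A'.Nonempty)
    (hB1 : A' ≠ univ) (hne : A ≠ A') :
    4 * ((Odds n).filter (fun r => ¬ Odd (pr A r) ∧ ¬ Odd (pr A' r))).card ≤ (Odds n).card := by
  have hind : ∀ C : Finset (Fin n), C.Nonempty → C ≠ univ →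
      ∑ r ∈ Odds n, sg (∑ a, r a * ind C a) = 0 := by
    intro C hC hC1
    apply sum_sg_zero
    · obtain ⟨a, ha⟩ := hC; exact ⟨a, by simp [ind, ha]⟩
    · by_contra hcon
      push Not at hcon
      apply hC1
      ext a
      simp only [Finset.mem_univ, iff_true]
      by_contra ha
      exact hcon a (by simp [ind, ha])
  have h1 := hind A hA hA1
  have h2 := hind A' hB hB1
  have h3 : ∑ r ∈ Odds n, sg (∑ a, r a * (ind A a + ind A' a)) ≤ 0 := by
    apply sum_sg_nonpos
    by_contra hcon
    push Not at hcon
    apply hne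
    ext a
    have := hcon a
    unfold ind at this
    by_cases h : a ∈ A <;> by_cases h' : a ∈ A' <;> simp [h, h'] at this ⊢
  have h3' : ∑ r ∈ Odds n, sg (∑ a, r a * ind A a) * sg (∑ a, r a * ind A' a) ≤ 0 := by
    refine le_of_eq_of_le ?_ h3
    refine Finset.sum_congr rfl fun r _ => ?_
    rw [← sg_add, ← Finset.sum_add_distrib]
    congr 1
    refine Finset.sum_congr rfl fun a _ => ?_
    ring
  have e : ∀ r, (4 : ℤ) * (if (¬ Odd (pr A r) ∧ ¬ Odd (pr A' r)) then 1 else 0) =
      1 + sg (∑ a, r a * ind A a) + sg (∑ a, r a * ind A' a) +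
        sg (∑ a, r a * ind A a) * sg (∑ a, r a * ind A' a) := by
    intro r
    rw [sg_pr, sg_pr]
    by_cases h : Odd (pr A r) <;> by_cases h' : Odd (pr A' r) <;> simp [h, h']
  have : (4 * (((Odds n).filter (fun r => ¬ Odd (pr A r) ∧ ¬ Odd (pr A' r))).card : ℤ)) ≤
      (Odds n).card := by
    have hh : (4 * (((Odds n).filter (fun r => ¬ Odd (pr A r) ∧ ¬ Odd (pr A' r))).card : ℤ)) =
        ∑ r ∈ Odds n, ((4 : ℤ) * (if (¬ Odd (pr A r) ∧ ¬ Odd (pr A' r)) then 1 else 0)) := by
      rw [← Finset.mul_sum, Finset.sum_boole]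
    rw [hh, Finset.sum_congr rfl fun r _ => e r]
    simp only [Finset.sum_add_distrib, Finset.sum_const, nsmul_eq_mul, mul_one]
    linarith
  exact_mod_cast this

end Pool.Agent.MP7489fb.Low
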