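import Pool.Agent.MP7489fb.Low1

set_option autoImplicit false

/-! Lower bound for double covers: the pointwise inequality. -/

namespace Pool.Agent.MP7489fb.Low

open Finset Classical

variable {d n : ℕ}

/-- The box is odd in every coordinate. -/
def oddB (R : Fin d → Fin n → ZMod 2) (B : Fin d → Finset (Fin n)) : Prop :=
  ∀ i, Odd (pr (B i) (R i))

/-- The box is odd in every coordinate different from `i`. -/
def near (i : Fin d) (R : Fin d → Fin n → ZMod 2) (B : Fin d → Finset (Fin n)) : Prop :=
  ∀ j, j ≠ i → Odd (pr (B j) (R j))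

/-- The boxes of multiplicity one which are odd in every coordinate different from `i`. -/
noncomputable def N (F : Multiset (Fin d → Finset (Fin n))) (i : Fin d)
    (R : Fin d → Fin n → ZMod 2) : Finset (Fin d → Finset (Fin n)) :=
  (S F).filter (near i R)

/-- Two of the near boxes differ in coordinate `i`, and all are even there. -/
def V (F : Multiset (Fin d → Finset (Fin n))) (i : Fin d) (R : Fin d → Fin n → ZMod 2) : Prop :=
  (∃ B ∈ N F i R, ∃ B' ∈ N F i R, B i ≠ B' i) ∧ ∀ B ∈ N F i R, ¬ Odd (pr (B i) (R i))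

theorem prod_mod_four (p : Fin d → ℕ) (i : Fin d) (hi : p i % 4 = 2)
    (hj : ∀ j, j ≠ i → Odd (p j)) : (∏ j, p j) % 4 = 2 := by
  rw [← Finset.mul_prod_erase Finset.univ p (Finset.mem_univ i)]
  have : Odd (∏ j ∈ Finset.univ.erase i, p j) := by
    apply Finset.prod_induction p Odd (fun a b ha hb => ha.mul hb) odd_one
    intro j hj'
    exact hj j (Finset.ne_of_mem_erase hj')
  obtain ⟨k, hk⟩ := this
  rw [hk]
  obtain ⟨m, hm⟩ : ∃ m, p i = 4 * m + 2 := ⟨p i / 4, by omega⟩
  rw [hm]
  have : (4 * m + 2) * (2 * k + 1) = 4 * (2 * m * k + m + k) + 2 := by ring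
  rw [this]; omega

theorem exists_of_prod_mod_four (p : Fin d → ℕ) (h : (∏ j, p j) % 4 = 2) :
    ∃ i, p i % 4 = 2 ∧ ∀ j, j ≠ i → Odd (p j) := by
  have h2 : 2 ∣ ∏ j, p j := by omega
  obtain ⟨i, _, hi⟩ := (Nat.prime_two.prime.dvd_finsetProd_iff p).1 h2
  have he := Finset.mul_prod_erase Finset.univ p (Finset.mem_univ i)
  rw [← he] at h
  have hodd : ¬ 2 ∣ ∏ j ∈ Finset.univ.erase i, p j := by
    intro h3
    obtain ⟨a, ha⟩ := hi
    obtain ⟨b, hb⟩ := h3
    rw [ha, hb] at h
    have : 2 * a * (2 * b) = 4 * (a * b) := by ring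
    rw [this] at h; omega
  refine ⟨i, ?_, ?_⟩
  · obtain ⟨k, hk⟩ : ∃ k, ∏ j ∈ Finset.univ.erase i, p j = 2 * k + 1 :=
      ⟨(∏ j ∈ Finset.univ.erase i, p j) / 2, by omega⟩
    rw [hk] at h
    obtain ⟨a, ha⟩ := hi
    rw [ha] at h ⊢
    have : 2 * a * (2 * k + 1) = 4 * (a * k) + 2 * a := by ring
    rw [this] at h; omega
  · intro j hj
    by_contra hcon
    apply hodd
    have h4 : 2 ∣ p j := by
      rw [Nat.not_odd_iff_even] at hcon
      exact hcon.two_dvd
    exact h4.trans (Finset.dvd_prod_of_mem p (Finset.mem_erase.2 ⟨hj, Finset.mem_univ j⟩))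

theorem sum_mod_two_card {α : Type*} (s : Finset α) (g : α → ℕ) :
    (∑ a ∈ s, g a) % 2 = (s.filter (fun a => Odd (g a))).card % 2 := by
  induction s using Finset.induction_on with
  | empty => simp
  | insert a s ha ih =>
    rw [Finset.sum_insert ha, Finset.filter_insert]
    by_cases h : Odd (g a)
    · rw [if_pos h, Finset.card_insert_of_notMem (by simp [ha])]
      have := Nat.odd_iff.1 h
      omega
    · rw [if_neg h]
      have := Nat.even_iff.1 (Nat.not_odd_iff_even.1 h)
      omega

theorem sum_mod_four_card {α : Type*} (s : Finset α) (g : α → ℕ) (hg : ∀ a ∈ s, ¬ Odd (g a)) :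
    (∑ a ∈ s, g a) % 4 = (2 * (s.filter (fun a => g a % 4 = 2)).card) % 4 := by
  induction s using Finset.induction_on with
  | empty => simp
  | insert a s ha ih =>
    have ih' := ih (fun b hb => hg b (Finset.mem_insert_of_mem hb))
    have h0 : g a % 2 = 0 := Nat.even_iff.1 (Nat.not_odd_iff_even.1 (hg a (Finset.mem_insert_self _ _)))
    rw [Finset.sum_insert ha, Finset.filter_insert]
    by_cases h : g a % 4 = 2
    · rw [if_pos h, Finset.card_insert_of_notMem (by simp [ha])]
      omega
    · rw [if_neg h]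
      omega

theorem odd_prod_iff (p : Fin d → ℕ) : Odd (∏ j, p j) ↔ ∀ j, Odd (p j) := by
  constructor
  · intro h j
    by_contra hcon
    rw [Nat.not_odd_iff_even] at hcon
    have := hcon.two_dvd.trans (Finset.dvd_prod_of_mem p (Finset.mem_univ j))
    have h2 := Nat.odd_iff.1 h
    omega
  · intro h
    exact Finset.prod_induction p Odd (fun a b ha hb => ha.mul hb) odd_one (fun j _ => h j)

/-- The weights attached to `R`. -/
def wt (R : Fin d → Fin n → ZMod 2) : Fin d → Fin n → ℕ := fun i a => (R i a).val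

theorem W_wt (R : Fin d → Fin n → ZMod 2) (B : Fin d → Finset (Fin n)) :
    W (wt R) B = ∏ i, pr (B i) (R i) := rfl

theorem odd_total (R : Fin n → ZMod 2) (hR : R ∈ Odds n) : Odd (∑ a, (R a).val) := by
  rw [Odds, Finset.mem_filter] at hR
  have h : ((∑ a, (R a).val : ℕ) : ZMod 2) = 1 := by
    simp only [Nat.cast_sum, ZMod.natCast_val, ZMod.cast_id', id_eq]
    exact hR.2
  by_contra hcon
  rw [Nat.not_odd_iff_even, ← ZMod.natCast_eq_zero_iff_even, h] at hcon
  exact absurd hcon (by decide)

theorem even_card_S (F : Multiset (Fin d → Finset (Fin n))) (hF : IsDoubleCover n d F)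
    (R : Fin d → Fin n → ZMod 2) : ((S F).filter (oddB R)).card % 2 = 0 := by
  have h := main_id (wt R) F hF
  have h1 := sum_mod_two_card (S F) (W (wt R))
  have h2 : (S F).filter (fun B => Odd (W (wt R) B)) = (S F).filter (oddB R) := by
    apply Finset.filter_congr
    intro B _
    rw [W_wt, odd_prod_iff]; rfl
  rw [h2] at h1
  omega

theorem even_fiber (F : Multiset (Fin d → Finset (Fin n))) (hF : IsDoubleCover n d F)
    (R : Fin d → Fin n → ZMod 2) (i : Fin d) (a : Fin n) :
    ((N F i R).filter (fun B => a ∈ B i)).card % 2 = 0 := by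
  set f : Fin d → Fin n → ℕ := fun j b => if j = i then (if b = a then 1 else 0) else (R j b).val
    with hf
  have h := main_id f F hF
  have h1 := sum_mod_two_card (S F) (W f)
  have h2 : (S F).filter (fun B => Odd (W f B)) = (N F i R).filter (fun B => a ∈ B i) := by
    rw [N, Finset.filter_filter]
    apply Finset.filter_congr
    intro B _
    rw [W, odd_prod_iff]
    have hi : ∑ b ∈ B i, f i b = if a ∈ B i then 1 else 0 := by
      simp only [hf, if_true, Finset.sum_ite_eq']
    have hj : ∀ j, j ≠ i → ∑ b ∈ B j, f j b = pr (B j) (R j) := by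
      intro j hj
      simp only [hf, if_neg hj, pr]
    constructor
    · intro H
      refine ⟨fun j hji => ?_, ?_⟩
      · rw [← hj j hji]; exact H j
      · have := H i
        rw [hi] at this
        by_contra hcon
        rw [if_neg hcon] at this
        exact absurd this (by decide)
    · rintro ⟨H1, H2⟩ j
      by_cases hji : j = i
      · subst hji
        rw [hi, if_pos H2]; exact odd_one
      · rw [hj j hji]; exact H1 j hji
  rw [h2] at h1
  omega

/-- At a bad place some direction is active. -/
theorem exists_active (F : Multiset (Fin d → Finset (Fin n))) (hF : IsDoubleCover n d F)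
    (R : Fin d → Fin n → ZMod 2) (hR : ∀ i, R i ∈ Odds n)
    (hS : (S F).filter (oddB R) = ∅) (hT : (T F).filter (oddB R) = ∅) :
    ∃ i, V F i R ∧ 3 ≤ (N F i R).card := by
  have hSe : ∀ B ∈ S F, ¬ Odd (W (wt R) B) := by
    intro B hB h
    rw [W_wt, odd_prod_iff] at h
    exact (Finset.eq_empty_iff_forall_notMem.1 hS B) (Finset.mem_filter.2 ⟨hB, h⟩)
  have hTe : ∀ B ∈ T F, ¬ Odd (W (wt R) B) := by
    intro B hB h
    rw [W_wt, odd_prod_iff] at h
    exact (Finset.eq_empty_iff_forall_notMem.1 hT B) (Finset.mem_filter.2 ⟨hB, h⟩)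
  have h := main_id (wt R) F hF
  have hR' : Odd (∏ i, ∑ a, wt R i a) := by
    rw [odd_prod_iff]
    intro i; exact odd_total (R i) (hR i)
  have h1 := sum_mod_four_card (S F) (W (wt R)) hSe
  have h2 := sum_mod_four_card (T F) (W (wt R)) hTe
  have h3 := Nat.odd_iff.1 hR'
  have hcard : ((S F).filter (fun B => W (wt R) B % 4 = 2)).card % 2 = 1 := by omega
  -- split into directions
  have hsplit : ((S F).filter (fun B => W (wt R) B % 4 = 2)).card =
      ∑ i, ((N F i R).filter (fun B => pr (B i) (R i) % 4 = 2)).card := by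
    have : (S F).filter (fun B => W (wt R) B % 4 = 2) =
        Finset.univ.biUnion (fun i => (N F i R).filter (fun B => pr (B i) (R i) % 4 = 2)) := by
      ext B
      simp only [Finset.mem_filter, Finset.mem_biUnion, Finset.mem_univ, true_and, N]
      constructor
      · rintro ⟨hB, hW⟩
        rw [W_wt] at hW
        obtain ⟨i, hi, hj⟩ := exists_of_prod_mod_four _ hW
        exact ⟨i, ⟨hB, hj⟩, hi⟩
      · rintro ⟨i, ⟨hB, hj⟩, hi⟩
        exact ⟨hB, by rw [W_wt]; exact prod_mod_four _ i hi hj⟩
    rw [this, Finset.card_biUnion]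
    intro i _ j _ hij
    rw [Function.onFun, Finset.disjoint_left]
    intro B hB1 hB2
    rw [Finset.mem_filter, N, Finset.mem_filter] at hB1 hB2
    have h5 := hB1.1.2 j (Ne.symm hij)
    have h6 := Nat.odd_iff.1 h5
    omega
  obtain ⟨i, hi⟩ : ∃ i, Odd ((N F i R).filter (fun B => pr (B i) (R i) % 4 = 2)).card := by
    by_contra hcon
    push Not at hcon
    rw [hsplit] at hcard
    have := sum_mod_two_card Finset.univ
      (fun i => ((N F i R).filter (fun B => pr (B i) (R i) % 4 = 2)).card)
    rw [Finset.filter_false_of_mem (fun i _ => hcon i)] at this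
    simp only [Finset.card_empty] at this
    omega
  have hNe : ∀ B ∈ N F i R, ¬ Odd (pr (B i) (R i)) := by
    intro B hB hodd
    rw [N, Finset.mem_filter] at hB
    apply hSe B hB.1
    rw [W_wt, odd_prod_iff]
    intro j
    by_cases hji : j = i
    · subst hji; exact hodd
    · exact hB.2 j hji
  have hne : ∃ B ∈ N F i R, ∃ B' ∈ N F i R, B i ≠ B' i := by
    by_contra hcon
    push Not at hcon
    have hpos : ((N F i R).filter (fun B => pr (B i) (R i) % 4 = 2)).Nonempty := by
      rw [← Finset.card_pos]; exact hi.pos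
    obtain ⟨B, hB⟩ := hpos
    rw [Finset.mem_filter] at hB
    have hBS : B ∈ S F := by
      have := hB.1; rw [N, Finset.mem_filter] at this; exact this.1
    obtain ⟨a, ha⟩ := (S_proper F hF hBS i).1
    have he := even_fiber F hF R i a
    rw [Finset.filter_true_of_mem (fun B' hB' => by rw [hcon B' hB' B hB.1]; exact ha)] at he
    have hall : (N F i R).filter (fun B => pr (B i) (R i) % 4 = 2) = N F i R := by
      apply Finset.filter_true_of_mem
      intro B' hB'
      rw [hcon B' hB' B hB.1]; exact hB.2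
    rw [hall] at hi
    have := Nat.odd_iff.1 hi
    omega
  refine ⟨i, ⟨hne, hNe⟩, ?_⟩
  obtain ⟨B, hB, B', hB', hBB⟩ := hne
  by_contra hlt
  push Not at hlt
  have hneBB : B ≠ B' := fun h => hBB (by rw [h])
  have hsub : ({B, B'} : Finset (Fin d → Finset (Fin n))) ⊆ N F i R := by
    intro C hC
    rw [Finset.mem_insert, Finset.mem_singleton] at hC
    rcases hC with rfl | rfl
    · exact hB
    · exact hB'
  have hcard2 : ({B, B'} : Finset (Fin d → Finset (Fin n))).card = 2 := Finset.card_pair hneBB
  have heq : ({B, B'} : Finset (Fin d → Finset (Fin n))) = N F i R :=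
    Finset.eq_of_subset_of_card_le hsub (by omega)
  apply hBB
  ext a
  have he := even_fiber F hF R i a
  rw [← heq, Finset.filter_insert, Finset.filter_singleton] at he
  by_cases h1 : a ∈ B i <;> by_cases h2 : a ∈ B' i <;> simp [h1, h2] at he ⊢

/-- The pointwise inequality. -/
theorem pointwise (F : Multiset (Fin d → Finset (Fin n))) (hF : IsDoubleCover n d F)
    (R : Fin d → Fin n → ZMod 2) (hR : ∀ i, R i ∈ Odds n) :
    6 ≤ 3 * ((S F).filter (oddB R)).card + 6 * ((T F).filter (oddB R)).card +
      2 * ∑ i, (if V F i R then (N F i R).card else 0) := by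
  by_cases hS : (S F).filter (oddB R) = ∅
  · by_cases hT : (T F).filter (oddB R) = ∅
    · obtain ⟨i, hV, hc⟩ := exists_active F hF R hR hS hT
      have : (N F i R).card ≤ ∑ i, (if V F i R then (N F i R).card else 0) := by
        have := Finset.single_le_sum (f := fun i => (if V F i R then (N F i R).card else 0))
          (fun _ _ => Nat.zero_le _) (Finset.mem_univ i)
        simpa [hV] using this
      omega
    · have : 0 < ((T F).filter (oddB R)).card :=
        Finset.card_pos.2 (Finset.nonempty_iff_ne_empty.2 hT)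
      omega
  · have h1 : 0 < ((S F).filter (oddB R)).card :=
      Finset.card_pos.2 (Finset.nonempty_iff_ne_empty.2 hS)
    have h2 := even_card_S F hF R
    omega

end Pool.Agent.MP7489fb.Low
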