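import Pool.Agent.MP7489fb.Low2

set_option autoImplicit false

/-! Lower bound for double covers: summation over all odd product sets. -/

namespace Pool.Agent.MP7489fb.Low

open Finset Classical

variable {d n : ℕ}

/-- All tuples of odd vectors. -/
noncomputable def Om (d n : ℕ) : Finset (Fin d → Fin n → ZMod 2) :=
  Fintype.piFinset (fun _ => Odds n)

theorem mem_Om (R : Fin d → Fin n → ZMod 2) : R ∈ Om d n ↔ ∀ i, R i ∈ Odds n := by
  rw [Om, Fintype.mem_piFinset]

theorem card_Om : (Om d n).card = (Odds n).card ^ d := by
  rw [Om, Fintype.card_piFinset]; simp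

theorem card_oddB (B : Fin d → Finset (Fin n)) (hB : IsProperBox B) :
    2 ^ d * ((Om d n).filter (fun R => oddB R B)).card = (Odds n).card ^ d := by
  have h : (Om d n).filter (fun R => oddB R B) =
      Fintype.piFinset (fun i => (Odds n).filter (fun r => Odd (pr (B i) r))) := by
    ext R
    simp only [Finset.mem_filter, mem_Om, Fintype.mem_piFinset, oddB]
    exact ⟨fun h i => ⟨h.1 i, h.2 i⟩, fun h => ⟨fun i => (h i).1, fun i => (h i).2⟩⟩
  rw [h, Fintype.card_piFinset]
  have h2 : (2 : ℕ) ^ d = ∏ _i : Fin d, 2 := by simp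
  rw [h2, ← Finset.prod_mul_distrib]
  have h3 : ∀ i : Fin d, 2 * ((Odds n).filter (fun r => Odd (pr (B i) r))).card = (Odds n).card :=
    fun i => half (B i) (hB i).1 (hB i).2
  rw [Finset.prod_congr rfl fun i _ => h3 i]
  simp

theorem card_near (B : Fin d → Finset (Fin n)) (hB : IsProperBox B) (i : Fin d) :
    2 ^ d * ((Om d n).filter (fun R => near i R B)).card = 2 * (Odds n).card ^ d := by
  have h : (Om d n).filter (fun R => near i R B) =
      Fintype.piFinset (fun j => if j = i then Odds n else
        (Odds n).filter (fun r => Odd (pr (B j) r))) := by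
    ext R
    simp only [Finset.mem_filter, mem_Om, Fintype.mem_piFinset, near]
    constructor
    · rintro ⟨h1, h2⟩ j
      by_cases hj : j = i
      · rw [if_pos hj]; exact h1 j
      · rw [if_neg hj, Finset.mem_filter]; exact ⟨h1 j, h2 j hj⟩
    · intro h
      refine ⟨fun j => ?_, fun j hj => ?_⟩
      · have := h j
        by_cases hj : j = i
        · rw [if_pos hj] at this; exact this
        · rw [if_neg hj, Finset.mem_filter] at this; exact this.1
      · have := h j
        rw [if_neg hj, Finset.mem_filter] at this; exact this.2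
  rw [h, Fintype.card_piFinset]
  have h2 : (2 : ℕ) ^ d = ∏ _i : Fin d, 2 := by simp
  rw [h2, ← Finset.prod_mul_distrib]
  have h3 : ∀ j : Fin d, 2 * (if j = i then Odds n else
      (Odds n).filter (fun r => Odd (pr (B j) r))).card =
        (Odds n).card * (if j = i then 2 else 1) := by
    intro j
    by_cases hj : j = i
    · rw [if_pos hj, if_pos hj]; ring
    · rw [if_neg hj, if_neg hj, mul_one]; exact half (B j) (hB j).1 (hB j).2
  rw [Finset.prod_congr rfl fun i _ => h3 i, Finset.prod_mul_distrib]
  simp [mul_comm]

/-- Summation over the lines in direction `i`. -/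
theorem swap (i : Fin d) (f : (Fin d → Fin n → ZMod 2) → ℕ) :
    ∑ R ∈ Om d n, ∑ r ∈ Odds n, f (Function.update R i r) =
      (Odds n).card * ∑ R ∈ Om d n, f R := by
  rw [← Finset.sum_product']
  have h : (Odds n).card * ∑ R ∈ Om d n, f R =
      ∑ p ∈ (Om d n) ×ˢ (Odds n), f p.1 := by
    rw [Finset.sum_product]
    simp [Finset.mul_sum]
  rw [h]
  refine Finset.sum_nbij' (fun p => (Function.update p.1 i p.2, p.1 i))
    (fun p => (Function.update p.1 i p.2, p.1 i)) ?_ ?_ ?_ ?_ ?_
  · rintro ⟨R, r⟩ h
    rw [Finset.mem_product, mem_Om] at h ⊢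
    refine ⟨fun j => ?_, h.1 i⟩
    by_cases hj : j = i
    · subst hj; simpa using h.2
    · simpa [Function.update_of_ne hj] using h.1 j
  · rintro ⟨R, r⟩ h
    rw [Finset.mem_product, mem_Om] at h ⊢
    refine ⟨fun j => ?_, h.1 i⟩
    by_cases hj : j = i
    · subst hj; simpa using h.2
    · simpa [Function.update_of_ne hj] using h.1 j
  · rintro ⟨R, r⟩ _
    simp
  · rintro ⟨R, r⟩ _
    simp
  · rintro ⟨R, r⟩ _
    rfl

theorem near_update (i : Fin d) (R : Fin d → Fin n → ZMod 2) (r : Fin n → ZMod 2)
    (B : Fin d → Finset (Fin n)) : near i (Function.update R i r) B ↔ near i R B := by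
  unfold near
  constructor
  · intro h j hj
    have := h j hj
    rwa [Function.update_of_ne hj] at this
  · intro h j hj
    rw [Function.update_of_ne hj]; exact h j hj

theorem N_update (F : Multiset (Fin d → Finset (Fin n))) (i : Fin d)
    (R : Fin d → Fin n → ZMod 2) (r : Fin n → ZMod 2) :
    N F i (Function.update R i r) = N F i R := by
  unfold N
  apply Finset.filter_congr
  intro B _
  exact near_update i R r B

theorem line_bound (F : Multiset (Fin d → Finset (Fin n))) (hF : IsDoubleCover n d F) (i : Fin d)
    (R : Fin d → Fin n → ZMod 2) (B : Fin d → Finset (Fin n)) :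
    4 * ∑ r ∈ Odds n, (if near i (Function.update R i r) B ∧ V F i (Function.update R i r)
      then 1 else 0) ≤ (Odds n).card * (if near i R B then 1 else 0) := by
  by_cases hn : near i R B
  · by_cases hq : ∃ B ∈ N F i R, ∃ B' ∈ N F i R, B i ≠ B' i
    · obtain ⟨C, hC, C', hC', hne⟩ := hq
      have hCS : C ∈ S F := by rw [N, Finset.mem_filter] at hC; exact hC.1
      have hCS' : C' ∈ S F := by rw [N, Finset.mem_filter] at hC'; exact hC'.1
      have h1 := S_proper F hF hCS i
      have h2 := S_proper F hF hCS' i
      have hq := quarter (C i) (C' i) h1.1 h1.2 h2.1 h2.2 hne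
      rw [if_pos hn, mul_one]
      refine le_trans ?_ hq
      rw [Finset.card_filter]
      apply Nat.mul_le_mul_left
      apply Finset.sum_le_sum
      intro r _
      by_cases hV : near i (Function.update R i r) B ∧ V F i (Function.update R i r)
      · rw [if_pos hV]
        have h3 := hV.2.2
        rw [N_update] at h3
        have h4 := h3 C hC
        have h5 := h3 C' hC'
        rw [Function.update_self] at h4 h5
        rw [if_pos ⟨h4, h5⟩]
      · rw [if_neg hV]; exact Nat.zero_le _
    · have : ∀ r ∈ Odds n, (if near i (Function.update R i r) B ∧ V F i (Function.update R i r)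
          then 1 else 0) = 0 := by
        intro r _
        rw [if_neg]
        rintro ⟨_, hV, _⟩
        rw [N_update] at hV
        exact hq hV
      rw [Finset.sum_congr rfl this]
      simp
  · have : ∀ r ∈ Odds n, (if near i (Function.update R i r) B ∧ V F i (Function.update R i r)
        then 1 else 0) = 0 := by
      intro r _
      rw [if_neg]
      rintro ⟨h, _⟩
      rw [near_update] at h
      exact hn h
    rw [Finset.sum_congr rfl this]
    simp

theorem odds_pos (hn : 0 < n) : 0 < (Odds n).card := by
  apply Finset.card_pos.2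
  refine ⟨fun a => if a = ⟨0, hn⟩ then 1 else 0, ?_⟩
  rw [Odds, Finset.mem_filter]
  refine ⟨Finset.mem_univ _, ?_⟩
  rw [Finset.sum_ite_eq']
  simp

theorem card_near_V (F : Multiset (Fin d → Finset (Fin n))) (hF : IsDoubleCover n d F)
    (hn : 0 < n) (i : Fin d) (B : Fin d → Finset (Fin n)) :
    4 * ((Om d n).filter (fun R => near i R B ∧ V F i R)).card ≤
      ((Om d n).filter (fun R => near i R B)).card := by
  have h1 := swap i (fun R : Fin d → Fin n → ZMod 2 => if near i R B ∧ V F i R then 1 else 0)
  rw [Finset.card_filter, Finset.card_filter]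
  have h2 : 4 * ∑ R ∈ Om d n, ∑ r ∈ Odds n, (if near i (Function.update R i r) B ∧
      V F i (Function.update R i r) then 1 else 0) ≤
      (Odds n).card * ∑ R ∈ Om d n, (if near i R B then 1 else 0) := by
    rw [Finset.mul_sum, Finset.mul_sum]
    exact Finset.sum_le_sum fun R _ => line_bound F hF i R B
  rw [h1] at h2
  have h3 := odds_pos hn
  have h4 : (Odds n).card * (4 * ∑ R ∈ Om d n, (if near i R B ∧ V F i R then 1 else 0)) ≤
      (Odds n).card * ∑ R ∈ Om d n, (if near i R B then 1 else 0) := by
    calc _ = 4 * ((Odds n).card * ∑ R ∈ Om d n, (if near i R B ∧ V F i R then 1 else 0)) := by ring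
      _ ≤ _ := h2
  exact Nat.le_of_mul_le_mul_left h4 h3

/-- The lower bound. -/
theorem lower (F : Multiset (Fin d → Finset (Fin n))) (hF : IsDoubleCover n d F) (hn : 0 < n) :
    6 * 2 ^ d ≤ (d + 3) * (S F).card + 6 * (T F).card := by
  have hpt : ∀ R ∈ Om d n, 6 ≤ 3 * ((S F).filter (oddB R)).card +
      6 * ((T F).filter (oddB R)).card + 2 * ∑ i, (if V F i R then (N F i R).card else 0) :=
    fun R hR => pointwise F hF R ((mem_Om R).1 hR)
  have hsum := Finset.sum_le_sum hpt
  rw [Finset.sum_const, smul_eq_mul, card_Om, Finset.sum_add_distrib, Finset.sum_add_distrib,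
    ← Finset.mul_sum, ← Finset.mul_sum, ← Finset.mul_sum] at hsum
  -- the three sums
  have hS : 2 ^ d * ∑ R ∈ Om d n, ((S F).filter (oddB R)).card =
      (S F).card * (Odds n).card ^ d := by
    simp only [Finset.card_filter]
    rw [Finset.sum_comm, Finset.mul_sum, Finset.sum_congr rfl (g := fun _ => (Odds n).card ^ d)]
    · simp
    · intro B hB
      have := card_oddB B (S_proper F hF hB)
      rw [Finset.card_filter] at this
      exact this
  have hT : 2 ^ d * ∑ R ∈ Om d n, ((T F).filter (oddB R)).card =
      (T F).card * (Odds n).card ^ d := by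
    simp only [Finset.card_filter]
    rw [Finset.sum_comm, Finset.mul_sum, Finset.sum_congr rfl (g := fun _ => (Odds n).card ^ d)]
    · simp
    · intro B hB
      have := card_oddB B (T_proper F hF hB)
      rw [Finset.card_filter] at this
      exact this
  have hV : 2 ^ d * (2 * ∑ R ∈ Om d n, ∑ i, (if V F i R then (N F i R).card else 0)) ≤
      d * ((S F).card * (Odds n).card ^ d) := by
    rw [Finset.sum_comm, Finset.mul_sum, Finset.mul_sum]
    have hone : ∀ i ∈ (Finset.univ : Finset (Fin d)),
        2 ^ d * (2 * ∑ R ∈ Om d n, (if V F i R then (N F i R).card else 0)) ≤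
        (S F).card * (Odds n).card ^ d := by
      intro i _
      have e1 : ∑ R ∈ Om d n, (if V F i R then (N F i R).card else 0) =
          ∑ B ∈ S F, ((Om d n).filter (fun R => near i R B ∧ V F i R)).card := by
        simp only [Finset.card_filter]
        rw [Finset.sum_comm]
        refine Finset.sum_congr rfl fun R _ => ?_
        by_cases h : V F i R
        · rw [if_pos h, N, Finset.card_filter]
          refine Finset.sum_congr rfl fun B _ => ?_
          simp [h]
        · simp [h]
      rw [e1, Finset.mul_sum, Finset.mul_sum, ← smul_eq_mul (a := (S F).card), ← Finset.sum_const]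
      apply Finset.sum_le_sum
      intro B hB
      have h1 := card_near_V F hF hn i B
      have h2 := card_near B (S_proper F hF hB) i
      have h3 : 2 ^ d * (4 * ((Om d n).filter (fun R => near i R B ∧ V F i R)).card) ≤
          2 * (Odds n).card ^ d := by
        rw [← h2]; exact Nat.mul_le_mul_left _ h1
      have h4 : 2 * (2 ^ d * (2 * ((Om d n).filter (fun R => near i R B ∧ V F i R)).card)) ≤
          2 * (Odds n).card ^ d := by
        calc _ = 2 ^ d * (4 * ((Om d n).filter (fun R => near i R B ∧ V F i R)).card) := by ring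
          _ ≤ _ := h3
      omega
    calc _ ≤ ∑ _i : Fin d, (S F).card * (Odds n).card ^ d := by
          rw [← Finset.mul_sum]
          rw [← Finset.mul_sum]
          have := Finset.sum_le_sum hone
          rw [← Finset.mul_sum, ← Finset.mul_sum] at this
          exact this
      _ = _ := by simp
  have hq : 0 < (Odds n).card ^ d := pow_pos (odds_pos hn) d
  have hfin : 2 ^ d * ((Odds n).card ^ d * 6) ≤ (Odds n).card ^ d *
      ((d + 3) * (S F).card + 6 * (T F).card) := by
    calc 2 ^ d * ((Odds n).card ^ d * 6) ≤ 2 ^ d * (3 * ∑ R ∈ Om d n, ((S F).filter (oddB R)).card +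
          6 * ∑ R ∈ Om d n, ((T F).filter (oddB R)).card +
          2 * ∑ R ∈ Om d n, ∑ i, (if V F i R then (N F i R).card else 0)) :=
          Nat.mul_le_mul_left _ hsum
      _ = 3 * (2 ^ d * ∑ R ∈ Om d n, ((S F).filter (oddB R)).card) +
          6 * (2 ^ d * ∑ R ∈ Om d n, ((T F).filter (oddB R)).card) +
          2 ^ d * (2 * ∑ R ∈ Om d n, ∑ i, (if V F i R then (N F i R).card else 0)) := by ring
      _ ≤ 3 * ((S F).card * (Odds n).card ^ d) + 6 * ((T F).card * (Odds n).card ^ d) +
          d * ((S F).card * (Odds n).card ^ d) := by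
          rw [hS, hT]; exact Nat.add_le_add_left hV _
      _ = _ := by ring
  have : (Odds n).card ^ d * (6 * 2 ^ d) ≤ (Odds n).card ^ d *
      ((d + 3) * (S F).card + 6 * (T F).card) := by
    calc _ = 2 ^ d * ((Odds n).card ^ d * 6) := by ring
      _ ≤ _ := hfin
  exact Nat.le_of_mul_le_mul_left this hq

end Pool.Agent.MP7489fb.Low
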