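import Pool.Agent.MP7489fb.Low3

set_option autoImplicit false

/-! The least size of a double cover and its exponential growth rate. -/

namespace Pool.Agent.MP7489fb

open Finset Filter Topology

/-- The least number of boxes (with multiplicity) in a double cover of `[n]^d`. -/
noncomputable def g (n d : ℕ) : ℕ :=
  sInf {m : ℕ | ∃ F : Multiset (Fin d → Finset (Fin n)), IsDoubleCover n d F ∧ F.card = m}

namespace Low

variable {d n : ℕ}

/-- The two blocks of the letter set. -/
def blk (n : ℕ) (hn : 2 ≤ n) (s : Bool) : Finset (Fin n) :=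
  if s then {⟨0, by omega⟩} else ({⟨0, by omega⟩} : Finset (Fin n))ᶜ

/-- The partition into `2^d` boxes. -/
def part (n d : ℕ) (hn : 2 ≤ n) : Multiset (Fin d → Finset (Fin n)) :=
  (Finset.univ : Finset (Fin d → Bool)).val.map (fun s i => blk n hn (s i))

theorem cov_part (hn : 2 ≤ n) (x : Fin d → Fin n) : cov (part n d hn) x = 1 := by
  unfold cov part
  rw [Multiset.filter_map, Multiset.card_map]
  have : (Multiset.filter ((fun B : Fin d → Finset (Fin n) => ∀ i, x i ∈ B i) ∘
      fun (s : Fin d → Bool) i => blk n hn (s i)) (Finset.univ : Finset (Fin d → Bool)).val) =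
      (({fun i => decide (x i = ⟨0, by omega⟩)} : Finset (Fin d → Bool))).val := by
    rw [← Finset.filter_val]
    congr 1
    ext s
    simp only [Finset.mem_filter, Finset.mem_univ, true_and, Function.comp, Finset.mem_singleton]
    constructor
    · intro h
      funext i
      have := h i
      unfold blk at this
      cases hs : s i
      · simp [hs] at this; simp [this]
      · simp [hs] at this; simp [this]
    · rintro rfl i
      unfold blk
      by_cases h : x i = ⟨0, by omega⟩
      · simp [h]
      · simp [h]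
  rw [this]; simp

theorem part_proper (hn : 2 ≤ n) : ∀ B ∈ part n d hn, IsProperBox B := by
  intro B hB i
  unfold part at hB
  rw [Multiset.mem_map] at hB
  obtain ⟨s, _, rfl⟩ := hB
  have h1 : (⟨1, by omega⟩ : Fin n) ∈ (({⟨0, by omega⟩} : Finset (Fin n))ᶜ) := by simp
  have h0 : (⟨0, by omega⟩ : Fin n) ∉ (({⟨0, by omega⟩} : Finset (Fin n))ᶜ) := by simp
  have key : ∀ b : Bool, (blk n hn b).Nonempty ∧ blk n hn b ≠ Finset.univ := by
    intro b
    cases b
    · have e : blk n hn false = (({⟨0, by omega⟩} : Finset (Fin n))ᶜ) := by simp [blk]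
      rw [e]
      exact ⟨⟨_, h1⟩, fun h => h0 (by rw [h]; exact Finset.mem_univ _)⟩
    · have e : blk n hn true = ({⟨0, by omega⟩} : Finset (Fin n)) := by simp [blk]
      rw [e]
      refine ⟨⟨_, Finset.mem_singleton_self _⟩, fun h => ?_⟩
      have h2 : (⟨1, by omega⟩ : Fin n) ∈ ({⟨0, by omega⟩} : Finset (Fin n)) := by
        rw [h]; exact Finset.mem_univ _
      simp at h2
  exact key (s i)

theorem two_copies (hn : 2 ≤ n) : IsDoubleCover n d (part n d hn + part n d hn) where
  proper := by
    intro B hB
    rw [Multiset.mem_add] at hB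
    rcases hB with h | h
    · exact part_proper hn B h
    · exact part_proper hn B h
  twice := by
    intro x
    rw [cov_add, cov_part]

theorem card_two (hn : 2 ≤ n) : (part n d hn + part n d hn).card = 2 * 2 ^ d := by
  rw [Multiset.card_add, part, Multiset.card_map]
  simp [two_mul]

theorem g_le (hn : 2 ≤ n) : g n d ≤ 2 * 2 ^ d :=
  Nat.sInf_le ⟨_, two_copies hn, card_two hn⟩

theorem g_spec (hn : 2 ≤ n) :
    ∃ F : Multiset (Fin d → Finset (Fin n)), IsDoubleCover n d F ∧ F.card = g n d :=
  Nat.sInf_mem (s := {m : ℕ | ∃ F : Multiset (Fin d → Finset (Fin n)),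
    IsDoubleCover n d F ∧ F.card = m}) ⟨_, _, two_copies hn, rfl⟩

theorem le_card (F : Multiset (Fin d → Finset (Fin n))) (hF : IsDoubleCover n d F) (hn : 0 < n) :
    6 * 2 ^ d ≤ (d + 3) * F.card := by
  have h := lower F hF hn
  have h2 := card_split F hF
  rw [h2]
  have : (d + 3) * ((S F).card + 2 * (T F).card) =
      (d + 3) * (S F).card + 6 * (T F).card + 2 * d * (T F).card := by ring
  omega

theorem le_g (hn : 2 ≤ n) : 6 * 2 ^ d ≤ (d + 3) * g n d := by
  obtain ⟨F, hF, hc⟩ := g_spec (d := d) hn
  rw [← hc]; exact le_card F hF (by omega)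

theorem distinct (F : Multiset (Fin d → Finset (Fin n))) (hF : IsDoubleCover n d F) (hn : 0 < n)
    (hd : d ≤ 3) : 2 ^ d ≤ F.toFinset.card := by
  have h := lower F hF hn
  rw [toFinset_card F hF]
  have : (d + 3) * (S F).card ≤ 6 * (S F).card := Nat.mul_le_mul_right _ (by omega)
  omega

theorem growth (n : ℕ) (hn : 2 ≤ n) :
    Tendsto (fun d : ℕ => Real.log (g n d) / d) atTop (𝓝 (Real.log 2)) := by
  have hlow : ∀ d : ℕ, 1 ≤ d → Real.log 2 - Real.log ((d : ℝ) + 3) / d ≤ Real.log (g n d) / d := by
    intro d hd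
    have hd' : (0 : ℝ) < d := by exact_mod_cast hd
    have h := le_g (d := d) hn
    have h' : (6 : ℝ) * 2 ^ d ≤ ((d : ℝ) + 3) * g n d := by exact_mod_cast h
    have hg : (0 : ℝ) < g n d := by
      by_contra hcon
      have h0 : (g n d : ℝ) = 0 := le_antisymm (not_lt.1 hcon) (Nat.cast_nonneg _)
      rw [h0, mul_zero] at h'
      have : (0 : ℝ) < 6 * 2 ^ d := by positivity
      linarith
    have h3 : Real.log ((2 : ℝ) ^ d) ≤ Real.log (((d : ℝ) + 3) * g n d) := by
      apply Real.log_le_log (by positivity)
      have : (0 : ℝ) < 2 ^ d := by positivity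
      linarith
    rw [Real.log_pow, Real.log_mul (by positivity) hg.ne'] at h3
    rw [sub_le_iff_le_add, ← add_div, le_div_iff₀ hd']
    linarith
  have hup : ∀ d : ℕ, 1 ≤ d → Real.log (g n d) / d ≤ Real.log 2 + Real.log 2 / d := by
    intro d hd
    have hd' : (0 : ℝ) < d := by exact_mod_cast hd
    have h := g_le (d := d) hn
    have h' : (g n d : ℝ) ≤ 2 * 2 ^ d := by exact_mod_cast h
    have hg : (0 : ℝ) < g n d := by
      have h1 := le_g (d := d) hn
      by_contra hcon
      have h0 : (g n d : ℝ) = 0 := le_antisymm (not_lt.1 hcon) (Nat.cast_nonneg _)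
      have h00 : g n d = 0 := by exact_mod_cast h0
      rw [h00, mul_zero] at h1
      have : 0 < 6 * 2 ^ d := by positivity
      omega
    have h3 : Real.log (g n d) ≤ Real.log (2 * 2 ^ d) := Real.log_le_log hg h'
    rw [Real.log_mul (by norm_num) (by positivity), Real.log_pow] at h3
    have h4 : Real.log 2 + Real.log 2 / d = (Real.log 2 + d * Real.log 2) / d := by
      field_simp; ring
    rw [h4]
    exact div_le_div_of_nonneg_right h3 hd'.le
  have hlim : Tendsto (fun d : ℕ => Real.log ((d : ℝ) + 3) / d) atTop (𝓝 0) := by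
    have h1 : Tendsto (fun x : ℝ => Real.log x / x) atTop (𝓝 0) := by
      have := Real.isLittleO_log_id_atTop.tendsto_div_nhds_zero
      simpa using this
    have h2 : Tendsto (fun d : ℕ => ((d : ℝ) + 3)) atTop atTop :=
      tendsto_atTop_add_const_right _ _ tendsto_natCast_atTop_atTop
    have h3 := h1.comp h2
    have h4 : Tendsto (fun d : ℕ => ((d : ℝ) + 3) / d) atTop (𝓝 1) := by
      have h5 : Tendsto (fun d : ℕ => 1 + (3 : ℝ) / d) atTop (𝓝 (1 + 0)) :=
        tendsto_const_nhds.add (tendsto_const_div_atTop_nhds_zero_nat 3)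
      rw [add_zero] at h5
      refine h5.congr' ?_
      filter_upwards [eventually_ge_atTop 1] with d hd
      have hd' : (0 : ℝ) < d := by exact_mod_cast hd
      field_simp
    have h5 := h3.mul h4
    rw [zero_mul] at h5
    refine h5.congr' ?_
    filter_upwards [eventually_ge_atTop 1] with d hd
    have hd' : (0 : ℝ) < d := by exact_mod_cast hd
    simp only [Function.comp]
    field_simp
  have hl : Tendsto (fun d : ℕ => Real.log 2 - Real.log ((d : ℝ) + 3) / d) atTop
      (𝓝 (Real.log 2)) := by
    have := (tendsto_const_nhds (x := Real.log 2)).sub hlim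
    simpa using this
  have hu : Tendsto (fun d : ℕ => Real.log 2 + Real.log 2 / (d : ℝ)) atTop
      (𝓝 (Real.log 2)) := by
    have := (tendsto_const_nhds (x := Real.log 2)).add
      (tendsto_const_div_atTop_nhds_zero_nat (Real.log 2))
    simpa using this
  refine tendsto_of_tendsto_of_tendsto_of_le_of_le' hl hu ?_ ?_
  · filter_upwards [eventually_ge_atTop 1] with d hd using hlow d hd
  · filter_upwards [eventually_ge_atTop 1] with d hd using hup d hd

end Low

end Pool.Agent.MP7489fb
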