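import Pool.Agent.MP7489fb.Low3

set_option autoImplicit false

/-! Lower bound for double covers: the two-coordinate lemma, one side. -/

namespace Pool.Agent.MP7489fb.Low

open Finset Classical

variable {n : ℕ}

/-- The pairing of two vectors modulo two. -/
def dt (r v : Fin n → ZMod 2) : ZMod 2 := ∑ a, r a * v a

theorem dt_add (r v w : Fin n → ZMod 2) : dt r (v + w) = dt r v + dt r w := by
  unfold dt
  rw [← Finset.sum_add_distrib]
  refine Finset.sum_congr rfl fun a _ => ?_
  rw [Pi.add_apply]; ring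

/-- The sum of the signs over all odd vectors. -/
def sm (v : Fin n → ZMod 2) : ℤ := ∑ r ∈ Odds n, sg (dt r v)

theorem zmod_ne_zero (z : ZMod 2) (h : z ≠ 0) : z = 1 := by
  revert z; decide

theorem zmod_ne_one (z : ZMod 2) (h : z ≠ 1) : z = 0 := by
  revert z; decide

theorem exists_one (v : Fin n → ZMod 2) (hv : v ≠ 0) : ∃ a, v a = 1 := by
  by_contra hcon
  push Not at hcon
  apply hv
  funext a
  exact zmod_ne_one _ (hcon a)

theorem sm_nonpos (v : Fin n → ZMod 2) (hv : v ≠ 0) : sm v ≤ 0 :=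
  sum_sg_nonpos v (exists_one v hv)

theorem sm_eq (v : Fin n → ZMod 2) (hv : v ≠ 0) : sm v = 0 ∨ sm v = - (Odds n).card := by
  by_cases h0 : ∃ b, v b = 0
  · left; exact sum_sg_zero v (exists_one v hv) h0
  · right
    push Not at h0
    have : ∀ a, v a = 1 := fun a => zmod_ne_zero _ (h0 a)
    have h2 : ∀ r ∈ Odds n, sg (dt r v) = -1 := by
      intro r hr
      rw [Odds, Finset.mem_filter] at hr
      simp only [dt, this, mul_one, hr.2]
      decide
    unfold sm
    rw [Finset.sum_congr rfl h2]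
    simp

theorem cnt1 (v : Fin n → ZMod 2) (α : ZMod 2) :
    2 * (((Odds n).filter (fun r => dt r v = α)).card : ℤ) = (Odds n).card + sg α * sm v := by
  have e : ∀ r, (2 : ℤ) * (if dt r v = α then 1 else 0) = 1 + sg α * sg (dt r v) := by
    intro r
    generalize dt r v = z
    revert z α; decide
  rw [← Finset.sum_boole, Finset.mul_sum, Finset.sum_congr rfl fun r _ => e r,
    Finset.sum_add_distrib, ← Finset.mul_sum]
  simp [sm]

theorem cnt2 (v w : Fin n → ZMod 2) (α β : ZMod 2) :
    4 * (((Odds n).filter (fun r => dt r v = α ∧ dt r w = β)).card : ℤ) =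
      (Odds n).card + sg α * sm v + sg β * sm w + sg α * sg β * sm (v + w) := by
  have e : ∀ r, (4 : ℤ) * (if (dt r v = α ∧ dt r w = β) then 1 else 0) =
      1 + sg α * sg (dt r v) + sg β * sg (dt r w) + sg α * sg β * sg (dt r (v + w)) := by
    intro r
    rw [dt_add]
    generalize dt r v = z
    generalize dt r w = y
    revert z y α β; decide
  rw [← Finset.sum_boole, Finset.mul_sum, Finset.sum_congr rfl fun r _ => e r,
    Finset.sum_add_distrib, Finset.sum_add_distrib, Finset.sum_add_distrib,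
    ← Finset.mul_sum, ← Finset.mul_sum, ← Finset.mul_sum]
  simp [sm]

theorem cnt3 (u v w : Fin n → ZMod 2) :
    8 * (((Odds n).filter (fun r => dt r u = 0 ∧ dt r v = 0 ∧ dt r w = 0)).card : ℤ) =
      (Odds n).card + sm u + sm v + sm w + sm (u + v) + sm (u + w) + sm (v + w) +
        sm (u + v + w) := by
  have e : ∀ r, (8 : ℤ) * (if (dt r u = 0 ∧ dt r v = 0 ∧ dt r w = 0) then 1 else 0) =
      1 + sg (dt r u) + sg (dt r v) + sg (dt r w) + sg (dt r (u + v)) + sg (dt r (u + w)) +
        sg (dt r (v + w)) + sg (dt r (u + v + w)) := by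
    intro r
    rw [dt_add, dt_add, dt_add, dt_add, dt_add]
    generalize dt r u = x
    generalize dt r v = z
    generalize dt r w = y
    revert x z y; decide
  rw [← Finset.sum_boole, Finset.mul_sum, Finset.sum_congr rfl fun r _ => e r,
    Finset.sum_add_distrib, Finset.sum_add_distrib, Finset.sum_add_distrib,
    Finset.sum_add_distrib, Finset.sum_add_distrib, Finset.sum_add_distrib,
    Finset.sum_add_distrib]
  simp [sm]

theorem add_ne_zero' (v w : Fin n → ZMod 2) (h : v ≠ w) : v + w ≠ 0 := by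
  intro h0
  apply h
  funext a
  have := congrFun h0 a
  simp only [Pi.add_apply, Pi.zero_apply] at this
  revert this
  generalize v a = x
  generalize w a = y
  revert x y; decide

theorem eighth_vec (u v w : Fin n → ZMod 2) (hu : u ≠ 0) (hv : v ≠ 0) (hw : w ≠ 0)
    (huv : u ≠ v) (huw : u ≠ w) (hvw : v ≠ w) (h3 : w ≠ u + v) :
    8 * ((Odds n).filter (fun r => dt r u = 0 ∧ dt r v = 0 ∧ dt r w = 0)).card ≤
      (Odds n).card := by
  have h := cnt3 u v w
  have h1 := sm_nonpos u hu
  have h2 := sm_nonpos v hv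
  have h4 := sm_nonpos w hw
  have h5 := sm_nonpos (u + v) (add_ne_zero' u v huv)
  have h6 := sm_nonpos (u + w) (add_ne_zero' u w huw)
  have h7 := sm_nonpos (v + w) (add_ne_zero' v w hvw)
  have h8 := sm_nonpos (u + v + w) (add_ne_zero' (u + v) w (Ne.symm h3))
  have : (8 * (((Odds n).filter (fun r => dt r u = 0 ∧ dt r v = 0 ∧ dt r w = 0)).card : ℤ)) ≤
    (Odds n).card := by linarith
  exact_mod_cast this

theorem even_iff_dt (L : Finset (Fin n)) (r : Fin n → ZMod 2) :
    ¬ Odd (pr L r) ↔ dt r (ind L) = 0 := by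
  rw [dt, ← pr_cast, ZMod.natCast_eq_zero_iff_even, Nat.not_odd_iff_even]

theorem odd_iff_dt (L : Finset (Fin n)) (r : Fin n → ZMod 2) :
    Odd (pr L r) ↔ dt r (ind L) = 1 := by
  constructor
  · intro h
    apply zmod_ne_zero
    rw [Ne, ← even_iff_dt]
    exact not_not.2 h
  · intro h
    by_contra hcon
    rw [even_iff_dt, h] at hcon
    exact absurd hcon (by decide)

theorem ind_inj {L M : Finset (Fin n)} (h : ind L = ind M) : L = M := by
  ext a
  have := congrFun h a
  unfold ind at this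
  by_cases h1 : a ∈ L <;> by_cases h2 : a ∈ M <;> simp [h1, h2] at this ⊢

theorem ind_ne_zero {L : Finset (Fin n)} (h : L.Nonempty) : ind L ≠ 0 := by
  obtain ⟨a, ha⟩ := h
  intro h0
  have := congrFun h0 a
  simp [ind, ha] at this

/-- Four letters cannot all be even with probability more than one eighth. -/
theorem eighth (U : Finset (Finset (Fin n))) (hU : ∀ L ∈ U, L.Nonempty) (hc : 4 ≤ U.card) :
    8 * ((Odds n).filter (fun r => ∀ L ∈ U, ¬ Odd (pr L r))).card ≤ (Odds n).card := by
  obtain ⟨L1, h1⟩ : U.Nonempty := Finset.card_pos.1 (by omega)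
  obtain ⟨L2, h2⟩ : (U.erase L1).Nonempty := by
    apply Finset.card_pos.1
    rw [Finset.card_erase_of_mem h1]; omega
  have hc2 : 2 ≤ ((U.erase L1).erase L2).card := by
    rw [Finset.card_erase_of_mem h2, Finset.card_erase_of_mem h1]; omega
  obtain ⟨L3, h3, h3'⟩ : ∃ L ∈ (U.erase L1).erase L2, ind L ≠ ind L1 + ind L2 := by
    by_contra hcon
    push Not at hcon
    have : ((U.erase L1).erase L2).card ≤ 1 := by
      rw [Finset.card_le_one]
      intro a ha b hb
      apply ind_inj
      rw [hcon a ha, hcon b hb]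
    omega
  rw [Finset.mem_erase] at h2
  rw [Finset.mem_erase, Finset.mem_erase] at h3
  have h := eighth_vec (ind L1) (ind L2) (ind L3) (ind_ne_zero (hU _ h1))
    (ind_ne_zero (hU _ h2.2)) (ind_ne_zero (hU _ h3.2.2))
    (fun h => h2.1 (ind_inj h).symm) (fun h => h3.2.1 (ind_inj h).symm)
    (fun h => h3.1 (ind_inj h).symm) h3'
  refine le_trans (Nat.mul_le_mul_left _ (Finset.card_le_card ?_)) h
  intro r hr
  rw [Finset.mem_filter] at hr ⊢
  refine ⟨hr.1, ?_, ?_, ?_⟩
  · rw [← even_iff_dt]; exact hr.2 _ h1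
  · rw [← even_iff_dt]; exact hr.2 _ h2.2
  · rw [← even_iff_dt]; exact hr.2 _ h3.2.2

/-! ### The vectors attached to the letters -/

section

variable {ι : Type*} (F : Finset ι) (A C : ι → Finset (Fin n))

/-- The vector of the letter `L`. -/
noncomputable def vv (L : Finset (Fin n)) : Fin n → ZMod 2 :=
  ∑ B ∈ F.filter (fun B => A B = L), ind (C B)

/-- The letter `L` occurs an odd number of times at `q`. -/
def Mu (q : Fin n → ZMod 2) (L : Finset (Fin n)) : Prop :=
  Odd (F.filter (fun B => Odd (pr (C B) q) ∧ A B = L)).card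

/-- Some letter occurs an odd number of times at `q`. -/
def Rich (q : Fin n → ZMod 2) : Prop := ∃ L, Mu F A C q L

theorem dt_sum {κ : Type*} (s : Finset κ) (q : Fin n → ZMod 2) (g : κ → Fin n → ZMod 2) :
    dt q (∑ B ∈ s, g B) = ∑ B ∈ s, dt q (g B) := by
  induction s using Finset.induction_on with
  | empty => simp [dt]
  | insert a s ha ih => rw [Finset.sum_insert ha, Finset.sum_insert ha, dt_add, ih]

theorem mu_iff (q : Fin n → ZMod 2) (L : Finset (Fin n)) :
    Mu F A C q L ↔ dt q (vv F A C L) = 1 := by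
  have h : dt q (vv F A C L) =
      ((F.filter (fun B => Odd (pr (C B) q) ∧ A B = L)).card : ZMod 2) := by
    unfold vv
    rw [dt_sum]
    have : ∀ B ∈ F.filter (fun B => A B = L), dt q (ind (C B)) =
        if Odd (pr (C B) q) then 1 else 0 := by
      intro B _
      by_cases h : Odd (pr (C B) q)
      · rw [if_pos h]; exact (odd_iff_dt _ _).1 h
      · rw [if_neg h]; exact (even_iff_dt _ _).1 h
    rw [Finset.sum_congr rfl this, Finset.sum_boole, Finset.filter_filter]
    congr 2
    apply Finset.filter_congr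
    intro B _
    exact and_comm
  rw [h, Mu]
  constructor
  · intro h1
    apply zmod_ne_zero
    rw [Ne, ZMod.natCast_eq_zero_iff_even, Nat.not_even_iff_odd]
    exact h1
  · intro h1
    rw [← Nat.not_even_iff_odd, ← ZMod.natCast_eq_zero_iff_even, h1]
    decide

theorem mu_mem (q : Fin n → ZMod 2) (L : Finset (Fin n)) (h : Mu F A C q L) :
    ∃ B ∈ F, Odd (pr (C B) q) ∧ A B = L := by
  have h1 : 0 < (F.filter (fun B => Odd (pr (C B) q) ∧ A B = L)).card := h.pos
  obtain ⟨B, hB⟩ := Finset.card_pos.1 h1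
  rw [Finset.mem_filter] at hB
  exact ⟨B, hB.1, hB.2⟩

/-- The letters which occur an odd number of times at `q`. -/
noncomputable def UU (q : Fin n → ZMod 2) : Finset (Finset (Fin n)) :=
  univ.filter (fun L => Mu F A C q L)

/-- The family is even. -/
def Ev : Prop := ∀ a c, Even (F.filter (fun B => a ∈ A B ∧ c ∈ C B)).card

theorem Ev.symm {F : Finset ι} {A C : ι → Finset (Fin n)} (h : Ev F A C) : Ev F C A := by
  intro a c
  have := h c a
  rwa [Finset.filter_congr (fun B _ => and_comm (a := c ∈ A B) (b := a ∈ C B))] at this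

theorem sum_ind_vv (h : Ev F A C) (a : Fin n) :
    ∑ L : Finset (Fin n), ind L a • vv F A C L = 0 := by
  funext c
  have h1 : (∑ L : Finset (Fin n), ind L a • vv F A C L) c =
      ∑ L : Finset (Fin n), ∑ B ∈ F.filter (fun B => A B = L), ind (A B) a * ind (C B) c := by
    rw [Finset.sum_apply]
    refine Finset.sum_congr rfl fun L _ => ?_
    rw [Pi.smul_apply, smul_eq_mul, vv, Finset.sum_apply, Finset.mul_sum]
    refine Finset.sum_congr rfl fun B hB => ?_
    rw [Finset.mem_filter] at hB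
    rw [hB.2]
  rw [h1, Finset.sum_fiberwise]
  have h2 : ∀ B ∈ F, ind (A B) a * ind (C B) c = if a ∈ A B ∧ c ∈ C B then 1 else 0 := by
    intro B _
    unfold ind
    by_cases h : a ∈ A B <;> by_cases h' : c ∈ C B <;> simp [h, h']
  rw [Finset.sum_congr rfl h2, Finset.sum_boole, Pi.zero_apply, ZMod.natCast_eq_zero_iff_even]
  exact h a c

theorem sum_UU (h : Ev F A C) (q : Fin n → ZMod 2) (a : Fin n) :
    ∑ L ∈ UU F A C q, ind L a = 0 := by
  have h1 := sum_ind_vv F A C h a
  have h2 : dt q (∑ L : Finset (Fin n), ind L a • vv F A C L) = 0 := by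
    rw [h1]; simp [dt]
  rw [dt_sum] at h2
  have h3 : ∀ L : Finset (Fin n), dt q (ind L a • vv F A C L) =
      if Mu F A C q L then ind L a else 0 := by
    intro L
    have h4 : dt q (ind L a • vv F A C L) = ind L a * dt q (vv F A C L) := by
      unfold dt
      rw [Finset.mul_sum]
      refine Finset.sum_congr rfl fun c _ => ?_
      rw [Pi.smul_apply, smul_eq_mul]; ring
    rw [h4]
    by_cases hm : Mu F A C q L
    · rw [if_pos hm, (mu_iff F A C q L).1 hm, mul_one]
    · rw [if_neg hm, zmod_ne_one _ (fun h5 => hm ((mu_iff F A C q L).2 h5)), mul_zero]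
  rw [Finset.sum_congr rfl fun L _ => h3 L, ← Finset.sum_filter] at h2
  exact h2

theorem UU_prop (hA : ∀ B ∈ F, (A B).Nonempty ∧ A B ≠ univ) (q : Fin n → ZMod 2) :
    ∀ L ∈ UU F A C q, L.Nonempty ∧ L ≠ univ := by
  intro L hL
  rw [UU, Finset.mem_filter] at hL
  obtain ⟨B, hB, _, h2⟩ := mu_mem F A C q L hL.2
  rw [← h2]; exact hA B hB

theorem three_le (h : Ev F A C) (hA : ∀ B ∈ F, (A B).Nonempty ∧ A B ≠ univ)
    (q : Fin n → ZMod 2) (hq : Rich F A C q) : 3 ≤ (UU F A C q).card := by
  obtain ⟨L, hL⟩ := hq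
  have hLU : L ∈ UU F A C q := by rw [UU, Finset.mem_filter]; exact ⟨Finset.mem_univ _, hL⟩
  have hp := UU_prop F A C hA q
  by_contra hlt
  push Not at hlt
  by_cases h1 : (UU F A C q).card = 1
  · obtain ⟨M, hM⟩ := Finset.card_eq_one.1 h1
    obtain ⟨a, ha⟩ := (hp L hLU).1
    have hs := sum_UU F A C h q a
    rw [hM, Finset.sum_singleton] at hs
    rw [hM, Finset.mem_singleton] at hLU
    subst hLU
    simp [ind, ha] at hs
  · have hpos : 0 < (UU F A C q).card := Finset.card_pos.2 ⟨L, hLU⟩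
    obtain ⟨M, M', hne, hM⟩ := Finset.card_eq_two.1 (show (UU F A C q).card = 2 by omega)
    apply hne
    ext a
    have hs := sum_UU F A C h q a
    rw [hM, Finset.sum_pair hne] at hs
    unfold ind at hs
    by_cases h1 : a ∈ M <;> by_cases h2 : a ∈ M' <;> simp [h1, h2] at hs ⊢

/-- No member of the family is odd in both coordinates. -/
def Nul (r q : Fin n → ZMod 2) : Prop := ∀ B ∈ F, ¬ (Odd (pr (A B) r) ∧ Odd (pr (C B) q))

theorem nul_sub (q : Fin n → ZMod 2) :
    (Odds n).filter (fun r => Nul F A C r q) ⊆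
      (Odds n).filter (fun r => ∀ L ∈ UU F A C q, ¬ Odd (pr L r)) := by
  intro r hr
  rw [Finset.mem_filter] at hr ⊢
  refine ⟨hr.1, fun L hL hodd => ?_⟩
  rw [UU, Finset.mem_filter] at hL
  obtain ⟨B, hB, h1, h2⟩ := mu_mem F A C q L hL.2
  exact hr.2 B hB ⟨by rw [h2]; exact hodd, h1⟩

theorem nul_quarter (h : Ev F A C) (hA : ∀ B ∈ F, (A B).Nonempty ∧ A B ≠ univ)
    (q : Fin n → ZMod 2) (hq : Rich F A C q) :
    4 * ((Odds n).filter (fun r => Nul F A C r q)).card ≤ (Odds n).card := by
  have h3 := three_le F A C h hA q hq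
  obtain ⟨L, hL, M, hM, hne⟩ := Finset.one_lt_card.1 (show 1 < (UU F A C q).card by omega)
  have hp := UU_prop F A C hA q
  refine le_trans (Nat.mul_le_mul_left _ (Finset.card_le_card ?_))
    (quarter L M (hp L hL).1 (hp L hL).2 (hp M hM).1 (hp M hM).2 hne)
  refine (nul_sub F A C q).trans ?_
  intro r hr
  rw [Finset.mem_filter] at hr ⊢
  exact ⟨hr.1, hr.2 L hL, hr.2 M hM⟩

theorem nul_eighth (hA : ∀ B ∈ F, (A B).Nonempty ∧ A B ≠ univ)
    (q : Fin n → ZMod 2) (hq : 4 ≤ (UU F A C q).card) :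
    8 * ((Odds n).filter (fun r => Nul F A C r q)).card ≤ (Odds n).card := by
  have hp := UU_prop F A C hA q
  refine le_trans (Nat.mul_le_mul_left _ (Finset.card_le_card (nul_sub F A C q)))
    (eighth (UU F A C q) (fun L hL => (hp L hL).1) hq)

end

end Pool.Agent.MP7489fb.Low
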