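import Pool.Agent.MP7489fb.Low5

set_option autoImplicit false

/-! Lower bound for double covers: the two-coordinate lemma. -/

namespace Pool.Agent.MP7489fb.Low

open Finset Classical

variable {n : ℕ} {ι : Type*} (F : Finset ι) (A C : ι → Finset (Fin n))

/-- The number of odd `r` at which the family vanishes together with `q`. -/
noncomputable def nn (q : Fin n → ZMod 2) : ℕ := ((Odds n).filter (fun r => Nul F A C r q)).card

theorem class_two (h : Ev F A C) (hA : ∀ B ∈ F, (A B).Nonempty ∧ A B ≠ univ)
    (Q : Finset (Fin n → ZMod 2)) (hQ : ∀ q ∈ Q, Rich F A C q)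
    (hc : 4 * Q.card = (Odds n).card) :
    32 * ∑ q ∈ Q, nn F A C q ≤ 2 * ((Odds n).card * (Odds n).card) := by
  have h1 : ∀ q ∈ Q, 4 * nn F A C q ≤ (Odds n).card :=
    fun q hq => nul_quarter F A C h hA q (hQ q hq)
  have h2 := Finset.sum_le_sum h1
  rw [← Finset.mul_sum, Finset.sum_const, smul_eq_mul] at h2
  calc 32 * ∑ q ∈ Q, nn F A C q = 8 * (4 * ∑ q ∈ Q, nn F A C q) := by ring
    _ ≤ 8 * (Q.card * (Odds n).card) := Nat.mul_le_mul_left _ h2
    _ = 2 * ((4 * Q.card) * (Odds n).card) := by ring
    _ = _ := by rw [hc]

theorem class_one (hA : ∀ B ∈ F, (A B).Nonempty ∧ A B ≠ univ)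
    (Q : Finset (Fin n → ZMod 2)) (hQ : ∀ q ∈ Q, 4 ≤ (UU F A C q).card)
    (hc : 4 * Q.card = (Odds n).card) :
    32 * ∑ q ∈ Q, nn F A C q ≤ (Odds n).card * (Odds n).card := by
  have h1 : ∀ q ∈ Q, 8 * nn F A C q ≤ (Odds n).card :=
    fun q hq => nul_eighth F A C hA q (hQ q hq)
  have h2 := Finset.sum_le_sum h1
  rw [← Finset.mul_sum, Finset.sum_const, smul_eq_mul] at h2
  calc 32 * ∑ q ∈ Q, nn F A C q = 4 * (8 * ∑ q ∈ Q, nn F A C q) := by ring
    _ ≤ 4 * (Q.card * (Odds n).card) := Nat.mul_le_mul_left _ h2
    _ = (4 * Q.card) * (Odds n).card := by ring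
    _ = _ := by rw [hc]

theorem UU_eq (q : Fin n → ZMod 2) :
    UU F A C q = univ.filter (fun L => dt q (vv F A C L) = 1) := by
  unfold UU
  apply Finset.filter_congr
  intro L _
  exact mu_iff F A C q L

theorem dt_zero (q : Fin n → ZMod 2) : dt q 0 = 0 := by simp [dt]

/-- The number of odd `q` which are rich. -/
noncomputable def XX : ℕ := ((Odds n).filter (fun q => Rich F A C q)).card

/-- The number of pairs with `q` rich at which the family vanishes. -/
noncomputable def PP : ℕ := ∑ q ∈ (Odds n).filter (fun q => Rich F A C q), nn F A C q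

theorem XX_add : XX F A C + ((Odds n).filter (fun q => ¬ Rich F A C q)).card = (Odds n).card :=
  Finset.card_filter_add_card_filter_not _

theorem PP_le (h : Ev F A C) (hA : ∀ B ∈ F, (A B).Nonempty ∧ A B ≠ univ) :
    4 * PP F A C ≤ XX F A C * (Odds n).card := by
  unfold PP XX
  rw [Finset.mul_sum, ← smul_eq_mul (a := Finset.card _), ← Finset.sum_const]
  apply Finset.sum_le_sum
  intro q hq
  rw [Finset.mem_filter] at hq
  exact nul_quarter F A C h hA q hq.2

theorem case_two (h : Ev F A C) (hA : ∀ B ∈ F, (A B).Nonempty ∧ A B ≠ univ)
    (v w : Fin n → ZMod 2) (hv : v ≠ 0) (hw : w ≠ 0) (hvw : v ≠ w)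
    (hLv : ∃ L, vv F A C L = v) (hLw : ∃ L, vv F A C L = w)
    (hall : ∀ L, vv F A C L = 0 ∨ vv F A C L = v ∨ vv F A C L = w ∨ vv F A C L = v + w) :
    (4 * XX F A C = 3 * (Odds n).card ∧
      32 * PP F A C ≤ 5 * ((Odds n).card * (Odds n).card)) ∨
      7 * (Odds n).card ≤ 8 * XX F A C := by
  have hvw' := add_ne_zero' v w hvw
  have hrich : ∀ q, Rich F A C q ↔ (dt q v = 1 ∨ dt q w = 1) := by
    intro q
    constructor
    · rintro ⟨L, hL⟩
      rw [mu_iff] at hL
      by_contra hcon
      push Not at hcon
      have h1 := zmod_ne_one _ hcon.1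
      have h2 := zmod_ne_one _ hcon.2
      rcases hall L with h | h | h | h
      · rw [h, dt_zero] at hL; exact absurd hL (by decide)
      · rw [h, h1] at hL; exact absurd hL (by decide)
      · rw [h, h2] at hL; exact absurd hL (by decide)
      · rw [h, dt_add, h1, h2] at hL; exact absurd hL (by decide)
    · rintro (h1 | h1)
      · obtain ⟨L, hL⟩ := hLv
        exact ⟨L, by rw [mu_iff, hL]; exact h1⟩
      · obtain ⟨L, hL⟩ := hLw
        exact ⟨L, by rw [mu_iff, hL]; exact h1⟩
  have hpoor : (Odds n).filter (fun q => ¬ Rich F A C q) =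
      (Odds n).filter (fun q => dt q v = 0 ∧ dt q w = 0) := by
    apply Finset.filter_congr
    intro q _
    rw [hrich]
    push Not
    constructor
    · rintro ⟨h1, h2⟩; exact ⟨zmod_ne_one _ h1, zmod_ne_one _ h2⟩
    · rintro ⟨h1, h2⟩; rw [h1, h2]; exact ⟨by decide, by decide⟩
  have hX := XX_add F A C
  rw [hpoor] at hX
  have h00 := cnt2 v w 0 0
  have h01 := cnt2 v w 0 1
  have h10 := cnt2 v w 1 0
  have h11 := cnt2 v w 1 1
  have s0 : sg 0 = 1 := by decide
  have s1 : sg 1 = -1 := by decide
  rw [s0] at h00
  rw [s0, s1] at h01 h10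
  rw [s1] at h11
  by_cases hz : sm v = 0 ∧ sm w = 0 ∧ sm (v + w) = 0
  · left
    obtain ⟨z1, z2, z3⟩ := hz
    rw [z1, z2, z3] at h00 h01 h10 h11
    have k00 : 4 * ((Odds n).filter (fun r => dt r v = 0 ∧ dt r w = 0)).card = (Odds n).card := by
      have : (4 * (((Odds n).filter (fun r => dt r v = 0 ∧ dt r w = 0)).card : ℤ)) =
        (Odds n).card := by linarith
      exact_mod_cast this
    have k01 : 4 * ((Odds n).filter (fun r => dt r v = 0 ∧ dt r w = 1)).card = (Odds n).card := by
      have : (4 * (((Odds n).filter (fun r => dt r v = 0 ∧ dt r w = 1)).card : ℤ)) =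
        (Odds n).card := by linarith
      exact_mod_cast this
    have k10 : 4 * ((Odds n).filter (fun r => dt r v = 1 ∧ dt r w = 0)).card = (Odds n).card := by
      have : (4 * (((Odds n).filter (fun r => dt r v = 1 ∧ dt r w = 0)).card : ℤ)) =
        (Odds n).card := by linarith
      exact_mod_cast this
    have k11 : 4 * ((Odds n).filter (fun r => dt r v = 1 ∧ dt r w = 1)).card = (Odds n).card := by
      have : (4 * (((Odds n).filter (fun r => dt r v = 1 ∧ dt r w = 1)).card : ℤ)) =
        (Odds n).card := by linarith
      exact_mod_cast this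
    refine ⟨by omega, ?_⟩
    -- the three classes
    set Q01 := (Odds n).filter (fun r => dt r v = 0 ∧ dt r w = 1) with hQ01
    set Q10 := (Odds n).filter (fun r => dt r v = 1 ∧ dt r w = 0) with hQ10
    set Q11 := (Odds n).filter (fun r => dt r v = 1 ∧ dt r w = 1) with hQ11
    have r01 : ∀ q ∈ Q01, Rich F A C q := by
      intro q hq; rw [hQ01, Finset.mem_filter] at hq; rw [hrich]; exact Or.inr hq.2.2
    have r10 : ∀ q ∈ Q10, Rich F A C q := by
      intro q hq; rw [hQ10, Finset.mem_filter] at hq; rw [hrich]; exact Or.inl hq.2.1
    have r11 : ∀ q ∈ Q11, Rich F A C q := by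
      intro q hq; rw [hQ11, Finset.mem_filter] at hq; rw [hrich]; exact Or.inl hq.2.1
    have hP : PP F A C ≤ ∑ q ∈ Q01, nn F A C q + ∑ q ∈ Q10, nn F A C q +
        ∑ q ∈ Q11, nn F A C q := by
      unfold PP
      rw [hQ01, hQ10, hQ11, Finset.sum_filter, Finset.sum_filter, Finset.sum_filter,
        Finset.sum_filter, ← Finset.sum_add_distrib, ← Finset.sum_add_distrib]
      apply Finset.sum_le_sum
      intro q _
      by_cases hr : Rich F A C q
      · rw [if_pos hr]
        by_cases h1 : dt q v = 1
        · by_cases h2 : dt q w = 1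
          · simp [h1, h2]
          · have h2' := zmod_ne_one _ h2
            simp [h1, h2']
        · have h1' := zmod_ne_one _ h1
          have h2 : dt q w = 1 := by
            rcases (hrich q).1 hr with h | h
            · exact absurd h h1
            · exact h
          simp [h1', h2]
      · rw [if_neg hr]; exact Nat.zero_le _
    set K1 := (univ : Finset (Finset (Fin n))).filter (fun L => vv F A C L = v) with hK1
    set K2 := (univ : Finset (Finset (Fin n))).filter (fun L => vv F A C L = w) with hK2
    set K3 := (univ : Finset (Finset (Fin n))).filter (fun L => vv F A C L = v + w) with hK3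
    have hv3 : v ≠ v + w := by
      intro h0; apply hw
      have : v + 0 = v + w := by rw [add_zero]; exact h0
      exact (add_left_cancel this).symm
    have hw3 : w ≠ v + w := by
      intro h0; apply hv
      have : 0 + w = v + w := by rw [zero_add]; exact h0
      exact (add_right_cancel this).symm
    have u01 : ∀ q ∈ Q01, (UU F A C q).card = K2.card + K3.card := by
      intro q hq
      rw [hQ01, Finset.mem_filter] at hq
      rw [UU_eq, ← Finset.card_union_of_disjoint]
      · congr 1
        rw [hK2, hK3, ← Finset.filter_or]
        apply Finset.filter_congr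
        intro L _
        constructor
        · intro h1
          rcases hall L with h | h | h | h
          · rw [h, dt_zero] at h1; exact absurd h1 (by decide)
          · rw [h, hq.2.1] at h1; exact absurd h1 (by decide)
          · exact Or.inl h
          · exact Or.inr h
        · rintro (h | h)
          · rw [h]; exact hq.2.2
          · rw [h, dt_add, hq.2.1, hq.2.2]; decide
      · rw [Finset.disjoint_left]
        intro L h1 h2
        rw [hK2, Finset.mem_filter] at h1
        rw [hK3, Finset.mem_filter] at h2
        exact hw3 (h1.2.symm.trans h2.2)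
    have u10 : ∀ q ∈ Q10, (UU F A C q).card = K1.card + K3.card := by
      intro q hq
      rw [hQ10, Finset.mem_filter] at hq
      rw [UU_eq, ← Finset.card_union_of_disjoint]
      · congr 1
        rw [hK1, hK3, ← Finset.filter_or]
        apply Finset.filter_congr
        intro L _
        constructor
        · intro h1
          rcases hall L with h | h | h | h
          · rw [h, dt_zero] at h1; exact absurd h1 (by decide)
          · exact Or.inl h
          · rw [h, hq.2.2] at h1; exact absurd h1 (by decide)
          · exact Or.inr h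
        · rintro (h | h)
          · rw [h]; exact hq.2.1
          · rw [h, dt_add, hq.2.1, hq.2.2]; decide
      · rw [Finset.disjoint_left]
        intro L h1 h2
        rw [hK1, Finset.mem_filter] at h1
        rw [hK3, Finset.mem_filter] at h2
        exact hv3 (h1.2.symm.trans h2.2)
    have u11 : ∀ q ∈ Q11, (UU F A C q).card = K1.card + K2.card := by
      intro q hq
      rw [hQ11, Finset.mem_filter] at hq
      rw [UU_eq, ← Finset.card_union_of_disjoint]
      · congr 1
        rw [hK1, hK2, ← Finset.filter_or]
        apply Finset.filter_congr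
        intro L _
        constructor
        · intro h1
          rcases hall L with h | h | h | h
          · rw [h, dt_zero] at h1; exact absurd h1 (by decide)
          · exact Or.inl h
          · exact Or.inr h
          · rw [h, dt_add, hq.2.1, hq.2.2] at h1; exact absurd h1 (by decide)
        · rintro (h | h)
          · rw [h]; exact hq.2.1
          · rw [h]; exact hq.2.2
      · rw [Finset.disjoint_left]
        intro L h1 h2
        rw [hK1, Finset.mem_filter] at h1
        rw [hK2, Finset.mem_filter] at h2
        exact hvw (h1.2.symm.trans h2.2)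
    have b01 := class_two F A C h hA Q01 r01 k01
    have b10 := class_two F A C h hA Q10 r10 k10
    have b11 := class_two F A C h hA Q11 r11 k11
    by_cases c01 : 4 ≤ K2.card + K3.card
    · have := class_one F A C hA Q01 (fun q hq => by rw [u01 q hq]; exact c01) k01
      omega
    · by_cases c10 : 4 ≤ K1.card + K3.card
      · have := class_one F A C hA Q10 (fun q hq => by rw [u10 q hq]; exact c10) k10
        omega
      · by_cases c11 : 4 ≤ K1.card + K2.card
        · have := class_one F A C hA Q11 (fun q hq => by rw [u11 q hq]; exact c11) k11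
          omega
        · by_cases hm : (Odds n).card = 0
          · have e01 : Q01.card = 0 := by omega
            have e10 : Q10.card = 0 := by omega
            have e11 : Q11.card = 0 := by omega
            rw [Finset.card_eq_zero] at e01 e10 e11
            rw [e01, e10, e11] at hP
            simp only [Finset.sum_empty] at hP
            omega
          · exfalso
            obtain ⟨q1, hq1⟩ := Finset.card_pos.1 (show 0 < Q01.card by omega)
            obtain ⟨q2, hq2⟩ := Finset.card_pos.1 (show 0 < Q10.card by omega)
            obtain ⟨q3, hq3⟩ := Finset.card_pos.1 (show 0 < Q11.card by omega)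
            have t1 := three_le F A C h hA q1 (r01 q1 hq1)
            have t2 := three_le F A C h hA q2 (r10 q2 hq2)
            have t3 := three_le F A C h hA q3 (r11 q3 hq3)
            rw [u01 q1 hq1] at t1
            rw [u10 q2 hq2] at t2
            rw [u11 q3 hq3] at t3
            omega
  · right
    have e1 := sm_eq v hv
    have e2 := sm_eq w hw
    have e3 := sm_eq (v + w) hvw'
    have n1 := sm_nonpos v hv
    have n2 := sm_nonpos w hw
    have n3 := sm_nonpos (v + w) hvw'
    have hp0 : ((Odds n).filter (fun r => dt r v = 0 ∧ dt r w = 0)).card = 0 := by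
      have : (((Odds n).filter (fun r => dt r v = 0 ∧ dt r w = 0)).card : ℤ) ≤ 0 := by
        by_contra hcon
        push Not at hcon
        apply hz
        refine ⟨?_, ?_, ?_⟩
        · rcases e1 with h1 | h1
          · exact h1
          · rw [h1] at h00; linarith
        · rcases e2 with h1 | h1
          · exact h1
          · rw [h1] at h00; linarith
        · rcases e3 with h1 | h1
          · exact h1
          · rw [h1] at h00; linarith
      omega
    omega

theorem oneside (h : Ev F A C) (hA : ∀ B ∈ F, (A B).Nonempty ∧ A B ≠ univ) :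
    XX F A C = 0 ∨ 2 * XX F A C = (Odds n).card ∨
    (4 * XX F A C = 3 * (Odds n).card ∧
      32 * PP F A C ≤ 5 * ((Odds n).card * (Odds n).card)) ∨
      7 * (Odds n).card ≤ 8 * XX F A C := by
  have hX := XX_add F A C
  by_cases h0 : ∀ L, vv F A C L = 0
  · left
    rw [XX, Finset.card_eq_zero, Finset.filter_eq_empty_iff]
    rintro q _ ⟨L, hL⟩
    rw [mu_iff, h0 L, dt_zero] at hL
    exact absurd hL (by decide)
  · push Not at h0
    obtain ⟨L1, h1⟩ := h0
    by_cases hs1 : ∀ L, vv F A C L = 0 ∨ vv F A C L = vv F A C L1
    · have hrich : (Odds n).filter (fun q => Rich F A C q) =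
          (Odds n).filter (fun q => dt q (vv F A C L1) = 1) := by
        apply Finset.filter_congr
        intro q _
        constructor
        · rintro ⟨L, hL⟩
          rw [mu_iff] at hL
          rcases hs1 L with h2 | h2
          · rw [h2, dt_zero] at hL; exact absurd hL (by decide)
          · rw [← h2]; exact hL
        · intro h2
          exact ⟨L1, by rw [mu_iff]; exact h2⟩
      have hc := cnt1 (vv F A C L1) 1
      rw [← hrich] at hc
      have s1 : sg 1 = -1 := by decide
      rw [s1] at hc
      rcases sm_eq _ h1 with h2 | h2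
      · right; left
        rw [h2] at hc
        have : (2 * (((Odds n).filter (fun q => Rich F A C q)).card : ℤ)) = (Odds n).card := by
          linarith
        rw [XX]
        exact_mod_cast this
      · right; right; right
        rw [h2] at hc
        have : ((((Odds n).filter (fun q => Rich F A C q)).card : ℤ)) = (Odds n).card := by
          linarith
        have h3 : ((Odds n).filter (fun q => Rich F A C q)).card = (Odds n).card := by
          exact_mod_cast this
        rw [XX, h3]; omega
    · push Not at hs1
      obtain ⟨L2, h2, h12⟩ := hs1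
      right; right
      by_cases hs2 : ∀ L, vv F A C L = 0 ∨ vv F A C L = vv F A C L1 ∨
          vv F A C L = vv F A C L2 ∨ vv F A C L = vv F A C L1 + vv F A C L2
      · exact case_two F A C h hA _ _ h1 h2 (Ne.symm h12) ⟨L1, rfl⟩ ⟨L2, rfl⟩ hs2
      · right
        push Not at hs2
        obtain ⟨L3, h3, h31, h32, h3s⟩ := hs2
        have he := eighth_vec _ _ _ h1 h2 h3 (Ne.symm h12) (Ne.symm h31) (Ne.symm h32) h3s
        have hsub : (Odds n).filter (fun q => ¬ Rich F A C q) ⊆
            (Odds n).filter (fun r => dt r (vv F A C L1) = 0 ∧ dt r (vv F A C L2) = 0 ∧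
              dt r (vv F A C L3) = 0) := by
          intro q hq
          rw [Finset.mem_filter] at hq ⊢
          have hq2 : ∀ L, dt q (vv F A C L) = 0 := by
            intro L
            apply zmod_ne_one
            intro h4
            exact hq.2 ⟨L, (mu_iff F A C q L).2 h4⟩
          exact ⟨hq.1, hq2 _, hq2 _, hq2 _⟩
        have := Finset.card_le_card hsub
        omega

end Pool.Agent.MP7489fb.Low
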