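import Pool.Agent.MP7489fb.Low6

set_option autoImplicit false

/-! Lower bound for double covers: the two-coordinate lemma, both sides. -/

namespace Pool.Agent.MP7489fb.Low

open Finset Classical

variable {n : ℕ} {ι : Type*} (F : Finset ι) (A C : ι → Finset (Fin n))

theorem nul_symm (r q : Fin n → ZMod 2) : Nul F A C r q ↔ Nul F C A q r := by
  unfold Nul
  constructor
  · intro h B hB hc; exact h B hB ⟨hc.2, hc.1⟩
  · intro h B hB hc; exact h B hB ⟨hc.2, hc.1⟩

theorem real_core (m X Y P P' D : ℤ) (hm : 0 ≤ m) (hX0 : 0 ≤ X) (hY0 : 0 ≤ Y)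
    (hXm : X ≤ m) (hYm : Y ≤ m) (hP : 4 * P ≤ X * m) (hP' : 4 * P' ≤ Y * m)
    (h1 : D ≤ P + P') (h2 : D ≤ P + (m - X) * Y) (h3 : D ≤ P' + (m - Y) * X)
    (cX : X = 0 ∨ 2 * X = m ∨ (4 * X = 3 * m ∧ 32 * P ≤ 5 * (m * m)) ∨ 7 * m ≤ 8 * X)
    (cY : Y = 0 ∨ 2 * Y = m ∨ (4 * Y = 3 * m ∧ 32 * P' ≤ 5 * (m * m)) ∨ 7 * m ≤ 8 * Y) :
    3 * D ≤ m * m - (m - X) * (m - Y) := by
  have hXY : 0 ≤ X * Y := mul_nonneg hX0 hY0
  have hXm' : X * X ≤ X * m := mul_le_mul_of_nonneg_left hXm hX0
  by_cases hx : 7 * m ≤ 8 * X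
  · by_cases hle : Y ≤ X
    · have k1 : 8 * ((m - X) * Y) ≤ m * X := by
        have e1 : 8 * (m - X) ≤ m := by linarith
        have e2 : (8 * (m - X)) * Y ≤ m * Y := mul_le_mul_of_nonneg_right e1 hY0
        have e3 : m * Y ≤ m * X := mul_le_mul_of_nonneg_left hle hm
        linarith
      nlinarith
    · push Not at hle
      have k1 : 8 * ((m - Y) * X) ≤ m * Y := by
        have e1 : 8 * (m - Y) ≤ m := by linarith
        have e2 : (8 * (m - Y)) * X ≤ m * X := mul_le_mul_of_nonneg_right e1 hX0
        have e3 : m * X ≤ m * Y := mul_le_mul_of_nonneg_left hle.le hm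
        linarith
      nlinarith
  · by_cases hy : 7 * m ≤ 8 * Y
    · have hle : X ≤ Y := by linarith
      have k1 : 8 * ((m - Y) * X) ≤ m * Y := by
        have e1 : 8 * (m - Y) ≤ m := by linarith
        have e2 : (8 * (m - Y)) * X ≤ m * X := mul_le_mul_of_nonneg_right e1 hX0
        have e3 : m * X ≤ m * Y := mul_le_mul_of_nonneg_left hle hm
        linarith
      nlinarith
    · rcases cX with h | h | h | h
      · subst h
        have : P ≤ 0 := by linarith
        nlinarith
      · rcases cY with k | k | k | k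
        · subst k
          have : P' ≤ 0 := by linarith
          nlinarith
        · obtain rfl : m = 2 * X := h.symm
          obtain rfl : Y = X := by linarith
          nlinarith
        · obtain rfl : m = 2 * X := h.symm
          have k2 := k.2
          have k1 : 2 * Y = 3 * X := by linarith [k.1]
          nlinarith
        · exact absurd k hy
      · rcases cY with k | k | k | k
        · subst k
          have : P' ≤ 0 := by linarith
          nlinarith
        · obtain rfl : m = 2 * Y := k.symm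
          have k2 := h.2
          have k1 : 2 * X = 3 * Y := by linarith [h.1]
          nlinarith
        · have e : X = Y := by linarith [h.1, k.1]
          subst e
          have h2 := h.2
          have k2 := k.2
          have e2 : 4 * X = 3 * m := h.1
          have e3 : 16 * (X * X) = 9 * (m * m) := by
            have : (4 * X) * (4 * X) = (3 * m) * (3 * m) := by rw [e2]
            linarith
          have e4 : 4 * (m * X) = 3 * (m * m) := by
            have : m * (4 * X) = m * (3 * m) := by rw [e2]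
            linarith
          nlinarith
        · exact absurd k hy
      · exact absurd h hx

/-- The number of members of the family which are odd in both coordinates is even. -/
theorem even_both (h : Ev F A C) (r q : Fin n → ZMod 2) :
    (F.filter (fun B => Odd (pr (A B) r) ∧ Odd (pr (C B) q))).card % 2 = 0 := by
  have h1 : ((F.filter (fun B => Odd (pr (A B) r) ∧ Odd (pr (C B) q))).card : ZMod 2) =
      ∑ B ∈ F, dt r (ind (A B)) * dt q (ind (C B)) := by
    rw [← Finset.sum_boole]
    refine Finset.sum_congr rfl fun B _ => ?_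
    by_cases h1 : Odd (pr (A B) r)
    · by_cases h2 : Odd (pr (C B) q)
      · rw [if_pos ⟨h1, h2⟩, (odd_iff_dt _ _).1 h1, (odd_iff_dt _ _).1 h2, mul_one]
      · rw [if_neg (fun h => h2 h.2), (even_iff_dt _ _).1 h2, mul_zero]
    · rw [if_neg (fun h => h1 h.1), (even_iff_dt _ _).1 h1, zero_mul]
  have h2 : ∑ B ∈ F, dt r (ind (A B)) * dt q (ind (C B)) = 0 := by
    have h3 : ∀ B ∈ F, dt r (ind (A B)) * dt q (ind (C B)) =
        ∑ a, ∑ c, r a * q c * (if a ∈ A B ∧ c ∈ C B then 1 else 0) := by
      intro B _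
      unfold dt
      rw [Finset.sum_mul_sum]
      refine Finset.sum_congr rfl fun a _ => Finset.sum_congr rfl fun c _ => ?_
      unfold ind
      by_cases h4 : a ∈ A B <;> by_cases h5 : c ∈ C B <;> simp [h4, h5]
    rw [Finset.sum_congr rfl h3, Finset.sum_comm]
    apply Finset.sum_eq_zero
    intro a _
    rw [Finset.sum_comm]
    apply Finset.sum_eq_zero
    intro c _
    rw [← Finset.mul_sum, Finset.sum_boole]
    have := h a c
    rw [← ZMod.natCast_eq_zero_iff_even] at this
    rw [this, mul_zero]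
  rw [h2, ZMod.natCast_eq_zero_iff_even] at h1
  exact Nat.even_iff.1 h1

theorem count_not_nul (h : Ev F A C) (hA : ∀ B ∈ F, (A B).Nonempty ∧ A B ≠ univ)
    (hC : ∀ B ∈ F, (C B).Nonempty ∧ C B ≠ univ) :
    8 * ∑ r ∈ Odds n, ∑ q ∈ Odds n, (if ¬ Nul F A C r q then 1 else 0) ≤
      F.card * ((Odds n).card * (Odds n).card) := by
  have h1 : ∀ r q : Fin n → ZMod 2, 2 * (if ¬ Nul F A C r q then 1 else 0) ≤
      ∑ B ∈ F, (if Odd (pr (A B) r) then 1 else 0) * (if Odd (pr (C B) q) then 1 else 0) := by
    intro r q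
    have e : ∑ B ∈ F, (if Odd (pr (A B) r) then 1 else 0) * (if Odd (pr (C B) q) then 1 else 0) =
        (F.filter (fun B => Odd (pr (A B) r) ∧ Odd (pr (C B) q))).card := by
      rw [Finset.card_filter]
      refine Finset.sum_congr rfl fun B _ => ?_
      by_cases h1 : Odd (pr (A B) r) <;> by_cases h2 : Odd (pr (C B) q) <;> simp [h1, h2]
    rw [e]
    have he := even_both F A C h r q
    by_cases hn : Nul F A C r q
    · simp [hn]
    · rw [if_pos hn]
      have : 0 < (F.filter (fun B => Odd (pr (A B) r) ∧ Odd (pr (C B) q))).card := by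
        apply Finset.card_pos.2
        unfold Nul at hn
        push Not at hn
        obtain ⟨B, hB, h2⟩ := hn
        exact ⟨B, Finset.mem_filter.2 ⟨hB, h2⟩⟩
      omega
  have h2 : 2 * ∑ r ∈ Odds n, ∑ q ∈ Odds n, (if ¬ Nul F A C r q then 1 else 0) ≤
      ∑ r ∈ Odds n, ∑ q ∈ Odds n, ∑ B ∈ F, (if Odd (pr (A B) r) then 1 else 0) *
        (if Odd (pr (C B) q) then 1 else 0) := by
    rw [Finset.mul_sum]
    apply Finset.sum_le_sum
    intro r _
    rw [Finset.mul_sum]
    apply Finset.sum_le_sum
    intro q _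
    exact h1 r q
  have h3 : 4 * ∑ r ∈ Odds n, ∑ q ∈ Odds n, ∑ B ∈ F, (if Odd (pr (A B) r) then 1 else 0) *
        (if Odd (pr (C B) q) then 1 else 0) = F.card * ((Odds n).card * (Odds n).card) := by
    have e : ∑ r ∈ Odds n, ∑ q ∈ Odds n, ∑ B ∈ F, (if Odd (pr (A B) r) then 1 else 0) *
        (if Odd (pr (C B) q) then 1 else 0) = ∑ B ∈ F,
          ((Odds n).filter (fun r => Odd (pr (A B) r))).card *
            ((Odds n).filter (fun q => Odd (pr (C B) q))).card := by
      have e1 : ∀ r ∈ Odds n, ∑ q ∈ Odds n, ∑ B ∈ F, (if Odd (pr (A B) r) then 1 else 0) *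
        (if Odd (pr (C B) q) then 1 else 0) = ∑ B ∈ F, ∑ q ∈ Odds n,
          (if Odd (pr (A B) r) then 1 else 0) * (if Odd (pr (C B) q) then 1 else 0) :=
        fun r _ => Finset.sum_comm
      rw [Finset.sum_congr rfl e1, Finset.sum_comm]
      refine Finset.sum_congr rfl fun B _ => ?_
      rw [Finset.card_filter, Finset.card_filter, Finset.sum_mul_sum]
    rw [e, Finset.mul_sum, Finset.sum_congr rfl (g := fun _ => (Odds n).card * (Odds n).card)]
    · simp
    · intro B hB
      have a1 := half (A B) (hA B hB).1 (hA B hB).2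
      have a2 := half (C B) (hC B hB).1 (hC B hB).2
      calc 4 * (((Odds n).filter (fun r => Odd (pr (A B) r))).card *
            ((Odds n).filter (fun q => Odd (pr (C B) q))).card) =
          (2 * ((Odds n).filter (fun r => Odd (pr (A B) r))).card) *
            (2 * ((Odds n).filter (fun q => Odd (pr (C B) q))).card) := by ring
        _ = _ := by rw [a1, a2]
  rw [← h3]
  calc _ = 4 * (2 * ∑ r ∈ Odds n, ∑ q ∈ Odds n, (if ¬ Nul F A C r q then 1 else 0)) := by ring
    _ ≤ _ := Nat.mul_le_mul_left _ h2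

/-- The bad pairs. -/
def Bd (r q : Fin n → ZMod 2) : Prop := Nul F A C r q ∧ (Rich F A C q ∨ Rich F C A r)

theorem PP_eq : PP F A C =
    ∑ r ∈ Odds n, ∑ q ∈ Odds n, (if Rich F A C q ∧ Nul F A C r q then 1 else 0) := by
  unfold PP nn
  rw [Finset.sum_filter, Finset.sum_comm]
  refine Finset.sum_congr rfl fun q _ => ?_
  by_cases h : Rich F A C q
  · rw [if_pos h, Finset.card_filter]
    refine Finset.sum_congr rfl fun r _ => ?_
    simp [h]
  · rw [if_neg h]; simp [h]

theorem PP_eq' : PP F C A =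
    ∑ r ∈ Odds n, ∑ q ∈ Odds n, (if Rich F C A r ∧ Nul F A C r q then 1 else 0) := by
  rw [PP_eq, Finset.sum_comm]
  refine Finset.sum_congr rfl fun r _ => Finset.sum_congr rfl fun q _ => ?_
  by_cases h : Rich F C A r ∧ Nul F A C r q
  · rw [if_pos h, if_pos ⟨h.1, (nul_symm F A C r q).1 h.2⟩]
  · rw [if_neg h, if_neg (fun h' => h ⟨h'.1, (nul_symm F A C r q).2 h'.2⟩)]

theorem prod_sum (p q : (Fin n → ZMod 2) → Prop) [DecidablePred p] [DecidablePred q] :
    ∑ r ∈ Odds n, ∑ s ∈ Odds n, (if p r ∧ q s then 1 else 0) =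
      ((Odds n).filter p).card * ((Odds n).filter q).card := by
  rw [Finset.card_filter, Finset.card_filter, Finset.sum_mul_sum]
  refine Finset.sum_congr rfl fun r _ => Finset.sum_congr rfl fun s _ => ?_
  by_cases h1 : p r <;> by_cases h2 : q s <;> simp [h1, h2]

/-- The two-coordinate lemma. -/
theorem twocoord (h : Ev F A C) (hA : ∀ B ∈ F, (A B).Nonempty ∧ A B ≠ univ)
    (hC : ∀ B ∈ F, (C B).Nonempty ∧ C B ≠ univ) :
    16 * ∑ r ∈ Odds n, ∑ q ∈ Odds n, (if Bd F A C r q then 1 else 0) ≤
      F.card * ((Odds n).card * (Odds n).card) := by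
  set m := (Odds n).card with hm
  set D := ∑ r ∈ Odds n, ∑ q ∈ Odds n, (if Bd F A C r q then 1 else 0) with hD
  set X := XX F A C with hX
  set Y := XX F C A with hY
  have cX := oneside F A C h hA
  have cY := oneside F C A h.symm hC
  have aX := XX_add F A C
  have aY := XX_add F C A
  have pX := PP_le F A C h hA
  have pY := PP_le F C A h.symm hC
  set X' := ((Odds n).filter (fun q => ¬ Rich F A C q)).card with hX'
  set Y' := ((Odds n).filter (fun q => ¬ Rich F C A q)).card with hY'
  rw [← hm, ← hX] at cX aX pX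
  rw [← hm, ← hY] at cY aY pY
  have d1 : D ≤ PP F A C + PP F C A := by
    rw [PP_eq, PP_eq', hD, ← Finset.sum_add_distrib]
    apply Finset.sum_le_sum
    intro r _
    rw [← Finset.sum_add_distrib]
    apply Finset.sum_le_sum
    intro q _
    unfold Bd
    by_cases h1 : Nul F A C r q <;> by_cases h2 : Rich F A C q <;>
      by_cases h3 : Rich F C A r <;> simp [h1, h2, h3]
  have d2 : D ≤ PP F A C + X' * Y := by
    have e : Y * X' = ∑ r ∈ Odds n, ∑ q ∈ Odds n,
        (if Rich F C A r ∧ ¬ Rich F A C q then 1 else 0) := by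
      rw [prod_sum (Rich F C A) (fun q => ¬ Rich F A C q)]
      rfl
    rw [mul_comm X' Y, e, PP_eq, hD, ← Finset.sum_add_distrib]
    apply Finset.sum_le_sum
    intro r _
    rw [← Finset.sum_add_distrib]
    apply Finset.sum_le_sum
    intro q _
    unfold Bd
    by_cases h1 : Nul F A C r q <;> by_cases h2 : Rich F A C q <;>
      by_cases h3 : Rich F C A r <;> simp [h1, h2, h3]
  have d3 : D ≤ PP F C A + Y' * X := by
    have e : Y' * X = ∑ r ∈ Odds n, ∑ q ∈ Odds n,
        (if ¬ Rich F C A r ∧ Rich F A C q then 1 else 0) := by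
      rw [prod_sum (fun r => ¬ Rich F C A r) (Rich F A C)]
      rfl
    rw [e, PP_eq', hD, ← Finset.sum_add_distrib]
    apply Finset.sum_le_sum
    intro r _
    rw [← Finset.sum_add_distrib]
    apply Finset.sum_le_sum
    intro q _
    unfold Bd
    by_cases h1 : Nul F A C r q <;> by_cases h2 : Rich F A C q <;>
      by_cases h3 : Rich F C A r <;> simp [h1, h2, h3]
  have d4 : m * m ≤ Y' * X' + (D + ∑ r ∈ Odds n, ∑ q ∈ Odds n,
      (if ¬ Nul F A C r q then 1 else 0)) := by
    have e : Y' * X' = ∑ r ∈ Odds n, ∑ q ∈ Odds n,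
        (if ¬ Rich F C A r ∧ ¬ Rich F A C q then 1 else 0) := by
      rw [prod_sum (fun r => ¬ Rich F C A r) (fun q => ¬ Rich F A C q)]
    have e2 : m * m = ∑ _r ∈ Odds n, ∑ _q ∈ Odds n, 1 := by simp [hm]
    rw [e, hD, e2, ← Finset.sum_add_distrib, ← Finset.sum_add_distrib]
    apply Finset.sum_le_sum
    intro r _
    rw [← Finset.sum_add_distrib, ← Finset.sum_add_distrib]
    apply Finset.sum_le_sum
    intro q _
    unfold Bd
    by_cases h1 : Nul F A C r q <;> by_cases h2 : Rich F A C q <;>
      by_cases h3 : Rich F C A r <;> simp [h1, h2, h3]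
  have d5 := count_not_nul F A C h hA hC
  set Z := ∑ r ∈ Odds n, ∑ q ∈ Odds n, (if ¬ Nul F A C r q then 1 else 0) with hZ
  rw [← hm] at d5
  have hXz : (X' : ℤ) = (m : ℤ) - X := by
    have : ((X + X' : ℕ) : ℤ) = m := by rw [aX]
    push_cast at this; linarith
  have hYz : (Y' : ℤ) = (m : ℤ) - Y := by
    have : ((Y + Y' : ℕ) : ℤ) = m := by rw [aY]
    push_cast at this; linarith
  have key : 3 * (D : ℤ) ≤ (m : ℤ) * m - ((m : ℤ) - X) * ((m : ℤ) - Y) := by
    apply real_core (m : ℤ) X Y (PP F A C) (PP F C A) D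
    · exact Nat.cast_nonneg _
    · exact Nat.cast_nonneg _
    · exact Nat.cast_nonneg _
    · have : X ≤ m := by omega
      exact_mod_cast this
    · have : Y ≤ m := by omega
      exact_mod_cast this
    · exact_mod_cast pX
    · exact_mod_cast pY
    · exact_mod_cast d1
    · rw [← hXz]; exact_mod_cast d2
    · rw [← hYz]; exact_mod_cast d3
    · rcases cX with c | c | c | c
      · left; exact_mod_cast c
      · right; left; exact_mod_cast c
      · right; right; left
        exact ⟨by exact_mod_cast c.1, by exact_mod_cast c.2⟩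
      · right; right; right; exact_mod_cast c
    · rcases cY with c | c | c | c
      · left; exact_mod_cast c
      · right; left; exact_mod_cast c
      · right; right; left
        exact ⟨by exact_mod_cast c.1, by exact_mod_cast c.2⟩
      · right; right; right; exact_mod_cast c
  have d4z : (m : ℤ) * m ≤ (Y' : ℤ) * X' + (D + Z) := by exact_mod_cast d4
  rw [hXz, hYz] at d4z
  have d5z : 8 * (Z : ℤ) ≤ F.card * ((m : ℤ) * m) := by exact_mod_cast d5
  have : 16 * (D : ℤ) ≤ F.card * ((m : ℤ) * m) := by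
    have : ((m : ℤ) - X) * ((m : ℤ) - Y) = ((m : ℤ) - Y) * ((m : ℤ) - X) := by ring
    linarith
  exact_mod_cast this

end Pool.Agent.MP7489fb.Low
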