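import Pool.Agent.MP7489fb.Low7

set_option autoImplicit false

/-! Lower bound for double covers: summation over the pairs of directions. -/

namespace Pool.Agent.MP7489fb.Low

open Finset Classical

variable {d n : ℕ}

/-- The box is odd in every coordinate different from `i` and `j`. -/
def near2 (i j : Fin d) (R : Fin d → Fin n → ZMod 2) (B : Fin d → Finset (Fin n)) : Prop :=
  ∀ k, k ≠ i → k ≠ j → Odd (pr (B k) (R k))

/-- The boxes of multiplicity one which are odd in every coordinate different from `i`, `j`. -/
noncomputable def N2 (F : Multiset (Fin d → Finset (Fin n))) (i j : Fin d)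
    (R : Fin d → Fin n → ZMod 2) : Finset (Fin d → Finset (Fin n)) :=
  (S F).filter (near2 i j R)

/-- Some letter occurs an odd number of times in direction `i`. -/
def Act (F : Multiset (Fin d → Finset (Fin n))) (i : Fin d) (R : Fin d → Fin n → ZMod 2) : Prop :=
  ∃ L, Odd ((N F i R).filter (fun B => B i = L)).card

/-- No box of multiplicity one is odd. -/
def Zr (F : Multiset (Fin d → Finset (Fin n))) (R : Fin d → Fin n → ZMod 2) : Prop :=
  (S F).filter (oddB R) = ∅

/-- No box is odd. -/
def Bad (F : Multiset (Fin d → Finset (Fin n))) (R : Fin d → Fin n → ZMod 2) : Prop :=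
  (S F).filter (oddB R) = ∅ ∧ (T F).filter (oddB R) = ∅

theorem exists_act (F : Multiset (Fin d → Finset (Fin n))) (hF : IsDoubleCover n d F)
    (R : Fin d → Fin n → ZMod 2) (hR : ∀ i, R i ∈ Odds n) (hb : Bad F R) :
    ∃ i, Act F i R := by
  obtain ⟨hS, hT⟩ := hb
  have hSe : ∀ B ∈ S F, ¬ Odd (W (wt R) B) := by
    intro B hB h
    rw [W_wt, odd_prod_iff] at h
    exact (Finset.eq_empty_iff_forall_notMem.1 hS B) (Finset.mem_filter.2 ⟨hB, h⟩)
  have hTe : ∀ B ∈ T F, ¬ Odd (W (wt R) B) := by
    intro B hB h
    rw [W_wt, odd_prod_iff] at h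
    exact (Finset.eq_empty_iff_forall_notMem.1 hT B) (Finset.mem_filter.2 ⟨hB, h⟩)
  have h := main_id (wt R) F hF
  have hR' : Odd (∏ i, ∑ a, wt R i a) := by
    rw [odd_prod_iff]
    intro i; exact odd_total (R i) (hR i)
  have h1 := sum_mod_four_card (S F) (W (wt R)) hSe
  have h2 := sum_mod_four_card (T F) (W (wt R)) hTe
  have h3 := Nat.odd_iff.1 hR'
  have hcard : ((S F).filter (fun B => W (wt R) B % 4 = 2)).card % 2 = 1 := by omega
  have hsplit : ((S F).filter (fun B => W (wt R) B % 4 = 2)).card =
      ∑ i, ((N F i R).filter (fun B => pr (B i) (R i) % 4 = 2)).card := by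
    have : (S F).filter (fun B => W (wt R) B % 4 = 2) =
        Finset.univ.biUnion (fun i => (N F i R).filter (fun B => pr (B i) (R i) % 4 = 2)) := by
      ext B
      simp only [Finset.mem_filter, Finset.mem_biUnion, Finset.mem_univ, true_and, N]
      constructor
      · rintro ⟨hB, hW⟩
        rw [W_wt] at hW
        obtain ⟨i, hi, hj⟩ := exists_of_prod_mod_four _ hW
        exact ⟨i, ⟨hB, hj⟩, hi⟩
      · rintro ⟨i, ⟨hB, hj⟩, hi⟩
        exact ⟨hB, by rw [W_wt]; exact prod_mod_four _ i hi hj⟩
    rw [this, Finset.card_biUnion]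
    intro i _ j _ hij
    rw [Function.onFun, Finset.disjoint_left]
    intro B hB1 hB2
    rw [Finset.mem_filter, N, Finset.mem_filter] at hB1 hB2
    have h5 := hB1.1.2 j (Ne.symm hij)
    have h6 := Nat.odd_iff.1 h5
    omega
  obtain ⟨i, hi⟩ : ∃ i, Odd ((N F i R).filter (fun B => pr (B i) (R i) % 4 = 2)).card := by
    by_contra hcon
    push Not at hcon
    rw [hsplit] at hcard
    have := sum_mod_two_card Finset.univ
      (fun i => ((N F i R).filter (fun B => pr (B i) (R i) % 4 = 2)).card)
    rw [Finset.filter_false_of_mem (fun i _ => hcon i)] at this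
    simp only [Finset.card_empty] at this
    omega
  refine ⟨i, ?_⟩
  by_contra hcon
  unfold Act at hcon
  push Not at hcon
  have hfib : ((N F i R).filter (fun B => pr (B i) (R i) % 4 = 2)).card =
      ∑ L : Finset (Fin n), (((N F i R).filter (fun B => pr (B i) (R i) % 4 = 2)).filter
        (fun B => B i = L)).card :=
    Finset.card_eq_sum_card_fiberwise (fun B _ => Finset.mem_univ (B i))
  have heach : ∀ L : Finset (Fin n), ¬ Odd (((N F i R).filter
      (fun B => pr (B i) (R i) % 4 = 2)).filter (fun B => B i = L)).card := by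
    intro L
    by_cases hL : pr L (R i) % 4 = 2
    · have e : ((N F i R).filter (fun B => pr (B i) (R i) % 4 = 2)).filter
          (fun B => B i = L) = (N F i R).filter (fun B => B i = L) := by
        rw [Finset.filter_filter]
        apply Finset.filter_congr
        intro B _
        constructor
        · intro h; exact h.2
        · intro h; exact ⟨by rw [h]; exact hL, h⟩
      rw [e]; exact hcon L
    · have e : ((N F i R).filter (fun B => pr (B i) (R i) % 4 = 2)).filter
          (fun B => B i = L) = ∅ := by
        rw [Finset.filter_filter, Finset.filter_eq_empty_iff]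
        intro B _ h
        rw [h.2] at h
        exact hL h.1
      rw [e]; simp
  have hsum := sum_mod_two_card Finset.univ
    (fun L : Finset (Fin n) => (((N F i R).filter (fun B => pr (B i) (R i) % 4 = 2)).filter
        (fun B => B i = L)).card)
  rw [Finset.filter_false_of_mem (fun L _ => heach L), ← hfib] at hsum
  simp only [Finset.card_empty] at hsum
  have := Nat.odd_iff.1 hi
  omega

theorem ev_N2 (F : Multiset (Fin d → Finset (Fin n))) (hF : IsDoubleCover n d F)
    (R : Fin d → Fin n → ZMod 2) (i j : Fin d) (hij : i ≠ j) :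
    Ev (N2 F i j R) (fun B => B i) (fun B => B j) := by
  intro a c
  set f : Fin d → Fin n → ℕ := fun k b => if k = i then (if b = a then 1 else 0) else
    if k = j then (if b = c then 1 else 0) else (R k b).val with hf
  have h := main_id f F hF
  have h1 := sum_mod_two_card (S F) (W f)
  have h2 : (S F).filter (fun B => Odd (W f B)) =
      (N2 F i j R).filter (fun B => a ∈ B i ∧ c ∈ B j) := by
    rw [N2, Finset.filter_filter]
    apply Finset.filter_congr
    intro B _
    rw [W, odd_prod_iff]
    have hi : ∑ b ∈ B i, f i b = if a ∈ B i then 1 else 0 := by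
      simp only [hf, if_true, Finset.sum_ite_eq']
    have hj : ∑ b ∈ B j, f j b = if c ∈ B j then 1 else 0 := by
      simp only [hf, if_neg (Ne.symm hij), if_true, Finset.sum_ite_eq']
    have hk : ∀ k, k ≠ i → k ≠ j → ∑ b ∈ B k, f k b = pr (B k) (R k) := by
      intro k hki hkj
      simp only [hf, if_neg hki, if_neg hkj, pr]
    constructor
    · intro H
      refine ⟨fun k hki hkj => ?_, ?_, ?_⟩
      · rw [← hk k hki hkj]; exact H k
      · have := H i
        rw [hi] at this
        by_contra hcon
        rw [if_neg hcon] at this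
        exact absurd this (by decide)
      · have := H j
        rw [hj] at this
        by_contra hcon
        rw [if_neg hcon] at this
        exact absurd this (by decide)
    · rintro ⟨H1, H2, H3⟩ k
      by_cases hki : k = i
      · subst hki
        rw [hi, if_pos H2]; exact odd_one
      · by_cases hkj : k = j
        · subst hkj
          rw [hj, if_pos H3]; exact odd_one
        · rw [hk k hki hkj]; exact H1 k hki hkj
  rw [h2] at h1
  have h3 : ((N2 F i j R).filter (fun B => a ∈ B i ∧ c ∈ B j)).card % 2 = 0 := by omega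
  exact Nat.even_iff.2 h3

theorem card_near2 (B : Fin d → Finset (Fin n)) (hB : IsProperBox B) (i j : Fin d)
    (hij : i ≠ j) :
    2 ^ d * ((Om d n).filter (fun R => near2 i j R B)).card = 4 * (Odds n).card ^ d := by
  have h : (Om d n).filter (fun R => near2 i j R B) =
      Fintype.piFinset (fun k => if k = i ∨ k = j then Odds n else
        (Odds n).filter (fun r => Odd (pr (B k) r))) := by
    ext R
    rw [Finset.mem_filter, mem_Om, Fintype.mem_piFinset]
    unfold near2
    constructor
    · rintro ⟨h1, h2⟩ k
      by_cases hk : k = i ∨ k = j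
      · rw [if_pos hk]; exact h1 k
      · rw [if_neg hk, Finset.mem_filter]
        push Not at hk
        exact ⟨h1 k, h2 k hk.1 hk.2⟩
    · intro h
      refine ⟨fun k => ?_, fun k hk1 hk2 => ?_⟩
      · have := h k
        by_cases hk : k = i ∨ k = j
        · rw [if_pos hk] at this; exact this
        · rw [if_neg hk, Finset.mem_filter] at this; exact this.1
      · have := h k
        rw [if_neg (by push Not; exact ⟨hk1, hk2⟩), Finset.mem_filter] at this; exact this.2
  rw [h, Fintype.card_piFinset]
  have h2 : (2 : ℕ) ^ d = ∏ _i : Fin d, 2 := by simp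
  rw [h2, ← Finset.prod_mul_distrib]
  have h3 : ∀ k : Fin d, 2 * (if k = i ∨ k = j then Odds n else
      (Odds n).filter (fun r => Odd (pr (B k) r))).card =
        (Odds n).card * ((if k = i then 2 else 1) * (if k = j then 2 else 1)) := by
    intro k
    by_cases hk : k = i
    · have hkj : k ≠ j := by rw [hk]; exact hij
      rw [if_pos (Or.inl hk), if_pos hk, if_neg hkj]; ring
    · by_cases hkj : k = j
      · rw [if_pos (Or.inr hkj), if_neg hk, if_pos hkj]; ring
      · rw [if_neg (by push Not; exact ⟨hk, hkj⟩), if_neg hk, if_neg hkj, mul_one, mul_one]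
        exact half (B k) (hB k).1 (hB k).2
  rw [Finset.prod_congr rfl fun k _ => h3 k, Finset.prod_mul_distrib, Finset.prod_mul_distrib]
  simp
  ring

theorem swap2 (i j : Fin d) (f : (Fin d → Fin n → ZMod 2) → ℕ) :
    ∑ R ∈ Om d n, ∑ r ∈ Odds n, ∑ q ∈ Odds n,
      f (Function.update (Function.update R i r) j q) =
      ((Odds n).card * (Odds n).card) * ∑ R ∈ Om d n, f R := by
  have h1 := swap i (fun R : Fin d → Fin n → ZMod 2 =>
    ∑ q ∈ Odds n, f (Function.update R j q))
  rw [h1, swap j f, mul_assoc]

section

variable (F : Multiset (Fin d → Finset (Fin n))) (i j : Fin d) (hij : i ≠ j)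
  (R : Fin d → Fin n → ZMod 2) (r q : Fin n → ZMod 2)

include hij

theorem upd_i : Function.update (Function.update R i r) j q i = r := by
  rw [Function.update_of_ne hij, Function.update_self]

omit hij in
theorem near2_upd (B : Fin d → Finset (Fin n)) :
    near2 i j (Function.update (Function.update R i r) j q) B ↔ near2 i j R B := by
  unfold near2
  constructor
  · intro h k hki hkj
    have := h k hki hkj
    rwa [Function.update_of_ne hkj, Function.update_of_ne hki] at this
  · intro h k hki hkj
    rw [Function.update_of_ne hkj, Function.update_of_ne hki]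
    exact h k hki hkj

theorem oddB_upd (B : Fin d → Finset (Fin n)) :
    oddB (Function.update (Function.update R i r) j q) B ↔
      near2 i j R B ∧ (Odd (pr (B i) r) ∧ Odd (pr (B j) q)) := by
  rw [← near2_upd i j R r q B]
  unfold oddB near2
  constructor
  · intro h
    refine ⟨fun k _ _ => h k, ?_, ?_⟩
    · have := h i
      rwa [upd_i i j hij] at this
    · have := h j
      rwa [Function.update_self] at this
  · rintro ⟨h1, h2, h3⟩ k
    by_cases hki : k = i
    · subst hki; rw [upd_i k j hij]; exact h2
    · by_cases hkj : k = j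
      · subst hkj; rw [Function.update_self]; exact h3
      · exact h1 k hki hkj

theorem near_i_upd (B : Fin d → Finset (Fin n)) :
    near i (Function.update (Function.update R i r) j q) B ↔
      near2 i j R B ∧ Odd (pr (B j) q) := by
  rw [← near2_upd i j R r q B]
  unfold near near2
  constructor
  · intro h
    refine ⟨fun k hki _ => h k hki, ?_⟩
    have := h j (Ne.symm hij)
    rwa [Function.update_self] at this
  · rintro ⟨h1, h3⟩ k hki
    by_cases hkj : k = j
    · subst hkj; rw [Function.update_self]; exact h3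
    · exact h1 k hki hkj

theorem near_j_upd (B : Fin d → Finset (Fin n)) :
    near j (Function.update (Function.update R i r) j q) B ↔
      near2 i j R B ∧ Odd (pr (B i) r) := by
  rw [← near2_upd i j R r q B]
  unfold near near2
  constructor
  · intro h
    refine ⟨fun k _ hkj => h k hkj, ?_⟩
    have := h i hij
    rwa [upd_i i j hij] at this
  · rintro ⟨h1, h3⟩ k hkj
    by_cases hki : k = i
    · subst hki; rw [upd_i k j hij]; exact h3
    · exact h1 k hki hkj

theorem zr_upd : Zr F (Function.update (Function.update R i r) j q) ↔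
    Nul (N2 F i j R) (fun B => B i) (fun B => B j) r q := by
  unfold Zr Nul N2
  rw [Finset.filter_eq_empty_iff]
  constructor
  · intro h B hB hc
    rw [Finset.mem_filter] at hB
    exact h hB.1 ((oddB_upd i j hij R r q B).2 ⟨hB.2, hc⟩)
  · intro h B hB hc
    rw [oddB_upd i j hij R r q B] at hc
    exact h B (Finset.mem_filter.2 ⟨hB, hc.1⟩) hc.2

theorem act_i_upd : Act F i (Function.update (Function.update R i r) j q) ↔
    Rich (N2 F i j R) (fun B => B i) (fun B => B j) q := by
  unfold Act Rich Mu
  have e : ∀ L, (N F i (Function.update (Function.update R i r) j q)).filter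
      (fun B => B i = L) = (N2 F i j R).filter (fun B => Odd (pr (B j) q) ∧ B i = L) := by
    intro L
    rw [N, N2, Finset.filter_filter, Finset.filter_filter]
    apply Finset.filter_congr
    intro B _
    rw [near_i_upd i j hij R r q B, and_assoc]
  constructor
  · rintro ⟨L, hL⟩; exact ⟨L, by rw [← e]; exact hL⟩
  · rintro ⟨L, hL⟩; exact ⟨L, by rw [e]; exact hL⟩

theorem act_j_upd : Act F j (Function.update (Function.update R i r) j q) ↔
    Rich (N2 F i j R) (fun B => B j) (fun B => B i) r := by
  unfold Act Rich Mu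
  have e : ∀ L, (N F j (Function.update (Function.update R i r) j q)).filter
      (fun B => B j = L) = (N2 F i j R).filter (fun B => Odd (pr (B i) r) ∧ B j = L) := by
    intro L
    rw [N, N2, Finset.filter_filter, Finset.filter_filter]
    apply Finset.filter_congr
    intro B _
    rw [near_j_upd i j hij R r q B, and_assoc]
  constructor
  · rintro ⟨L, hL⟩; exact ⟨L, by rw [← e]; exact hL⟩
  · rintro ⟨L, hL⟩; exact ⟨L, by rw [e]; exact hL⟩

end

theorem pair_bound (F : Multiset (Fin d → Finset (Fin n))) (hF : IsDoubleCover n d F)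
    (hn : 0 < n) (i j : Fin d) (hij : i ≠ j) :
    4 * (2 ^ d * ∑ R ∈ Om d n, (if Zr F R ∧ (Act F i R ∨ Act F j R) then 1 else 0)) ≤
      (S F).card * (Odds n).card ^ d := by
  have hm := odds_pos hn
  have h1 := swap2 i j (fun R : Fin d → Fin n → ZMod 2 =>
    if Zr F R ∧ (Act F i R ∨ Act F j R) then 1 else 0)
  have h2 : 16 * ∑ R ∈ Om d n, ∑ r ∈ Odds n, ∑ q ∈ Odds n,
      (if Zr F (Function.update (Function.update R i r) j q) ∧
        (Act F i (Function.update (Function.update R i r) j q) ∨
          Act F j (Function.update (Function.update R i r) j q)) then 1 else 0) ≤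
      (∑ R ∈ Om d n, (N2 F i j R).card) * ((Odds n).card * (Odds n).card) := by
    rw [Finset.mul_sum, Finset.sum_mul]
    apply Finset.sum_le_sum
    intro R _
    have hp : ∀ B ∈ N2 F i j R, ∀ k, (B k).Nonempty ∧ B k ≠ univ := by
      intro B hB k
      rw [N2, Finset.mem_filter] at hB
      exact S_proper F hF hB.1 k
    have h3 := twocoord (N2 F i j R) (fun B => B i) (fun B => B j) (ev_N2 F hF R i j hij)
      (fun B hB => hp B hB i) (fun B hB => hp B hB j)
    refine le_trans (le_of_eq ?_) h3
    congr 1
    refine Finset.sum_congr rfl fun r _ => Finset.sum_congr rfl fun q _ => ?_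
    refine if_congr ?_ rfl rfl
    unfold Bd
    rw [zr_upd F i j hij R r q, act_i_upd F i j hij R r q, act_j_upd F i j hij R r q]
  rw [h1] at h2
  have h4 : 2 ^ d * ∑ R ∈ Om d n, (N2 F i j R).card =
      4 * ((S F).card * (Odds n).card ^ d) := by
    have e : ∑ R ∈ Om d n, (N2 F i j R).card =
        ∑ B ∈ S F, ((Om d n).filter (fun R => near2 i j R B)).card := by
      simp only [N2, Finset.card_filter]
      exact Finset.sum_comm
    rw [e, Finset.mul_sum, Finset.sum_congr rfl (g := fun _ => 4 * (Odds n).card ^ d)]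
    · simp; ring
    · intro B hB
      exact card_near2 B (S_proper F hF hB) i j hij
  have hmm : 0 < (Odds n).card * (Odds n).card := Nat.mul_pos hm hm
  set tt := ∑ R ∈ Om d n, (if Zr F R ∧ (Act F i R ∨ Act F j R) then 1 else 0) with htt
  have h5 : ((Odds n).card * (Odds n).card) * (16 * (2 ^ d * tt)) ≤
      ((Odds n).card * (Odds n).card) * (4 * ((S F).card * (Odds n).card ^ d)) := by
    rw [← h4]
    calc ((Odds n).card * (Odds n).card) * (16 * (2 ^ d * tt)) =
        2 ^ d * (16 * (((Odds n).card * (Odds n).card) * tt)) := by ring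
      _ ≤ 2 ^ d * ((∑ R ∈ Om d n, (N2 F i j R).card) *
          ((Odds n).card * (Odds n).card)) := Nat.mul_le_mul_left _ h2
      _ = _ := by ring
  have h6 := Nat.le_of_mul_le_mul_left h5 hmm
  omega

theorem bad_pairs (F : Multiset (Fin d → Finset (Fin n))) (hF : IsDoubleCover n d F)
    (R : Fin d → Fin n → ZMod 2) (hR : ∀ i, R i ∈ Odds n) :
    2 * ((d - 1) * (if Bad F R then 1 else 0)) ≤
      ∑ i, ∑ j, (if i ≠ j then (if Zr F R ∧ (Act F i R ∨ Act F j R) then 1 else 0) else 0) := by
  by_cases hb : Bad F R
  · obtain ⟨i0, h0⟩ := exists_act F hF R hR hb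
    have hz : Zr F R := hb.1
    rw [if_pos hb, mul_one]
    have hcard : (Finset.univ.erase i0 : Finset (Fin d)).card = d - 1 := by
      rw [Finset.card_erase_of_mem (Finset.mem_univ _)]; simp
    rw [← Finset.add_sum_erase Finset.univ _ (Finset.mem_univ i0)]
    have h1 : d - 1 ≤ ∑ j, (if i0 ≠ j then (if Zr F R ∧ (Act F i0 R ∨ Act F j R) then 1 else 0)
        else 0) := by
      rw [← hcard, Finset.card_eq_sum_ones]
      refine le_trans (Finset.sum_le_sum (g := fun j => (if i0 ≠ j then
        (if Zr F R ∧ (Act F i0 R ∨ Act F j R) then 1 else 0) else 0)) ?_)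
        (Finset.sum_le_sum_of_subset (Finset.erase_subset _ _))
      intro j hj
      rw [if_pos (Ne.symm (Finset.ne_of_mem_erase hj)), if_pos ⟨hz, Or.inl h0⟩]
    have h2 : d - 1 ≤ ∑ i ∈ Finset.univ.erase i0, ∑ j, (if i ≠ j then
        (if Zr F R ∧ (Act F i R ∨ Act F j R) then 1 else 0) else 0) := by
      rw [← hcard, Finset.card_eq_sum_ones]
      apply Finset.sum_le_sum
      intro i hi
      refine le_trans ?_ (Finset.single_le_sum (fun _ _ => Nat.zero_le _) (Finset.mem_univ i0))
      rw [if_pos (Finset.ne_of_mem_erase hi), if_pos ⟨hz, Or.inr h0⟩]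
    omega
  · rw [if_neg hb]
    simp

theorem bad_count (F : Multiset (Fin d → Finset (Fin n))) (hF : IsDoubleCover n d F)
    (hn : 0 < n) (hd : 2 ≤ d) :
    8 * (2 ^ d * ∑ R ∈ Om d n, (if Bad F R then 1 else 0)) ≤
      d * ((S F).card * (Odds n).card ^ d) := by
  have h1 : 2 * ((d - 1) * ∑ R ∈ Om d n, (if Bad F R then 1 else 0)) ≤
      ∑ i, ∑ j, (if i ≠ j then ∑ R ∈ Om d n, (if Zr F R ∧ (Act F i R ∨ Act F j R) then 1 else 0)
        else 0) := by
    have e : ∑ i, ∑ j, (if i ≠ j then ∑ R ∈ Om d n,
          (if Zr F R ∧ (Act F i R ∨ Act F j R) then 1 else 0) else 0) =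
        ∑ R ∈ Om d n, ∑ i, ∑ j, (if i ≠ j then
          (if Zr F R ∧ (Act F i R ∨ Act F j R) then 1 else 0) else 0) := by
      rw [Finset.sum_comm (s := Om d n)]
      refine Finset.sum_congr rfl fun i _ => ?_
      rw [Finset.sum_comm (s := Om d n)]
      refine Finset.sum_congr rfl fun j _ => ?_
      by_cases h : i ≠ j
      · simp only [if_pos h]
      · simp only [if_neg h, Finset.sum_const_zero]
    rw [e, Finset.mul_sum, Finset.mul_sum]
    apply Finset.sum_le_sum
    intro R hR
    exact bad_pairs F hF R ((mem_Om R).1 hR)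
  have h2 : 4 * (2 ^ d * ∑ i : Fin d, ∑ j, (if i ≠ j then ∑ R ∈ Om d n,
      (if Zr F R ∧ (Act F i R ∨ Act F j R) then 1 else 0) else 0)) ≤
      d * ((d - 1) * ((S F).card * (Odds n).card ^ d)) := by
    have h3 : ∀ i ∈ (Finset.univ : Finset (Fin d)), 4 * (2 ^ d * ∑ j, (if i ≠ j then
        ∑ R ∈ Om d n, (if Zr F R ∧ (Act F i R ∨ Act F j R) then 1 else 0) else 0)) ≤
        (d - 1) * ((S F).card * (Odds n).card ^ d) := by
      intro i _
      have hcard : (Finset.univ.erase i : Finset (Fin d)).card = d - 1 := by
        rw [Finset.card_erase_of_mem (Finset.mem_univ _)]; simp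
      rw [← Finset.add_sum_erase Finset.univ _ (Finset.mem_univ i)]
      simp only [ne_eq, not_true_eq_false, if_false, zero_add]
      rw [← hcard, ← smul_eq_mul (a := (Finset.univ.erase i : Finset (Fin d)).card),
        ← Finset.sum_const, Finset.mul_sum, Finset.mul_sum]
      apply Finset.sum_le_sum
      intro j hj
      have hij : i ≠ j := Ne.symm (Finset.ne_of_mem_erase hj)
      rw [if_pos hij]
      exact pair_bound F hF hn i j hij
    have h4 := Finset.sum_le_sum h3
    rw [← Finset.mul_sum, ← Finset.mul_sum, Finset.sum_const, Finset.card_univ,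
      Fintype.card_fin, smul_eq_mul] at h4
    exact h4
  set b := ∑ R ∈ Om d n, (if Bad F R then 1 else 0) with hb
  have h5 : (d - 1) * (8 * (2 ^ d * b)) ≤
      (d - 1) * (d * ((S F).card * (Odds n).card ^ d)) := by
    calc (d - 1) * (8 * (2 ^ d * b)) = 4 * (2 ^ d * (2 * ((d - 1) * b))) := by ring
      _ ≤ 4 * (2 ^ d * ∑ i : Fin d, ∑ j, (if i ≠ j then ∑ R ∈ Om d n,
          (if Zr F R ∧ (Act F i R ∨ Act F j R) then 1 else 0) else 0)) :=
        Nat.mul_le_mul_left _ (Nat.mul_le_mul_left _ h1)
      _ ≤ d * ((d - 1) * ((S F).card * (Odds n).card ^ d)) := h2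
      _ = _ := by ring
  exact Nat.le_of_mul_le_mul_left h5 (by omega)

theorem pointwise2 (F : Multiset (Fin d → Finset (Fin n))) (hF : IsDoubleCover n d F)
    (R : Fin d → Fin n → ZMod 2) :
    2 ≤ ((S F).filter (oddB R)).card + 2 * ((T F).filter (oddB R)).card +
      2 * (if Bad F R then 1 else 0) := by
  by_cases hb : Bad F R
  · rw [if_pos hb]; omega
  · rw [if_neg hb]
    by_cases hS : (S F).filter (oddB R) = ∅
    · by_cases hT : (T F).filter (oddB R) = ∅
      · exact absurd ⟨hS, hT⟩ hb
      · have : 0 < ((T F).filter (oddB R)).card :=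
          Finset.card_pos.2 (Finset.nonempty_iff_ne_empty.2 hT)
        omega
    · have h1 : 0 < ((S F).filter (oddB R)).card :=
        Finset.card_pos.2 (Finset.nonempty_iff_ne_empty.2 hS)
      have h2 := even_card_S F hF R
      omega

/-- The improved lower bound. -/
theorem lower2 (F : Multiset (Fin d → Finset (Fin n))) (hF : IsDoubleCover n d F) (hn : 0 < n)
    (hd : 2 ≤ d) : 8 * 2 ^ d ≤ (d + 4) * (S F).card + 8 * (T F).card := by
  have hsum := Finset.sum_le_sum (fun R (_ : R ∈ Om d n) => pointwise2 F hF R)
  rw [Finset.sum_const, smul_eq_mul, card_Om, Finset.sum_add_distrib, Finset.sum_add_distrib,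
    ← Finset.mul_sum, ← Finset.mul_sum] at hsum
  have hS : 2 ^ d * ∑ R ∈ Om d n, ((S F).filter (oddB R)).card =
      (S F).card * (Odds n).card ^ d := by
    simp only [Finset.card_filter]
    rw [Finset.sum_comm, Finset.mul_sum, Finset.sum_congr rfl (g := fun _ => (Odds n).card ^ d)]
    · simp
    · intro B hB
      have := card_oddB B (S_proper F hF hB)
      rw [Finset.card_filter] at this
      exact this
  have hT : 2 ^ d * ∑ R ∈ Om d n, ((T F).filter (oddB R)).card =
      (T F).card * (Odds n).card ^ d := by
    simp only [Finset.card_filter]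
    rw [Finset.sum_comm, Finset.mul_sum, Finset.sum_congr rfl (g := fun _ => (Odds n).card ^ d)]
    · simp
    · intro B hB
      have := card_oddB B (T_proper F hF hB)
      rw [Finset.card_filter] at this
      exact this
  have hB := bad_count F hF hn hd
  have hq : 0 < (Odds n).card ^ d := pow_pos (odds_pos hn) d
  set b := ∑ R ∈ Om d n, (if Bad F R then 1 else 0) with hb
  have hfin : (Odds n).card ^ d * (8 * 2 ^ d) ≤ (Odds n).card ^ d *
      ((d + 4) * (S F).card + 8 * (T F).card) := by
    calc (Odds n).card ^ d * (8 * 2 ^ d) = 4 * (2 ^ d * ((Odds n).card ^ d * 2)) := by ring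
      _ ≤ 4 * (2 ^ d * (∑ R ∈ Om d n, ((S F).filter (oddB R)).card +
          2 * ∑ R ∈ Om d n, ((T F).filter (oddB R)).card + 2 * b)) :=
          Nat.mul_le_mul_left _ (Nat.mul_le_mul_left _ hsum)
      _ = 4 * (2 ^ d * ∑ R ∈ Om d n, ((S F).filter (oddB R)).card) +
          8 * (2 ^ d * ∑ R ∈ Om d n, ((T F).filter (oddB R)).card) +
          8 * (2 ^ d * b) := by ring
      _ ≤ 4 * ((S F).card * (Odds n).card ^ d) + 8 * ((T F).card * (Odds n).card ^ d) +
          d * ((S F).card * (Odds n).card ^ d) := by
          rw [hS, hT]; exact Nat.add_le_add_left hB _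
      _ = _ := by ring
  exact Nat.le_of_mul_le_mul_left hfin hq

end Pool.Agent.MP7489fb.Low
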