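import Pool.Agent.MP7489fb.Low4
import Pool.Agent.MP7489fb.Low8

set_option autoImplicit false

/-! Consequences of the improved lower bound for double covers. -/

namespace Pool.Agent.MP7489fb

open Finset

namespace Low

variable {d n : ℕ}

theorem le_card2 (F : Multiset (Fin d → Finset (Fin n))) (hF : IsDoubleCover n d F) (hn : 0 < n)
    (hd : 2 ≤ d) : 8 * 2 ^ d ≤ (d + 4) * F.card := by
  have h := lower2 F hF hn hd
  have h2 := card_split F hF
  rw [h2]
  have : (d + 4) * ((S F).card + 2 * (T F).card) =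
      (d + 4) * (S F).card + 8 * (T F).card + 2 * d * (T F).card := by ring
  omega

theorem le_g2 (hn : 2 ≤ n) (hd : 2 ≤ d) : 8 * 2 ^ d ≤ (d + 4) * g n d := by
  obtain ⟨F, hF, hc⟩ := g_spec (d := d) hn
  rw [← hc]; exact le_card2 F hF (by omega) hd

theorem distinct2 (F : Multiset (Fin d → Finset (Fin n))) (hF : IsDoubleCover n d F) (hn : 0 < n)
    (hd : d ≤ 4) : 2 ^ d ≤ F.toFinset.card := by
  by_cases h3 : d ≤ 3
  · exact distinct F hF hn h3
  · have h := lower2 F hF hn (by omega)
    rw [toFinset_card F hF]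
    have : (d + 4) * (S F).card ≤ 8 * (S F).card := Nat.mul_le_mul_right _ (by omega)
    omega

theorem q2_four (hn : 2 ≤ n) (hd : d ≤ 4) : 2 ^ d ≤ g n d := by
  obtain ⟨F, hF, hc⟩ := g_spec (d := d) hn
  rw [← hc]
  exact (distinct2 F hF (by omega) hd).trans (Multiset.toFinset_card_le F)

end Low

end Pool.Agent.MP7489fb
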