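import Pool.Agent.MP7489fb.Low3

set_option autoImplicit false

/-! Double covers with restrictions on the sides: slabs. -/

namespace Pool.Agent.MP7489fb.Mix

open Finset Classical Pool.Agent.MP7489fb.Low

variable {d n : ℕ}

/-- The members of `G` which are odd in every coordinate outside `N`. -/
noncomputable def SL (G : Finset (Fin d → Finset (Fin n))) (N : Finset (Fin d))
    (R : Fin d → Fin n → ZMod 2) : Finset (Fin d → Finset (Fin n)) :=
  G.filter (fun B => ∀ j, j ∉ N → Odd (pr (B j) (R j)))

theorem mem_SL {G : Finset (Fin d → Finset (Fin n))} {N : Finset (Fin d)}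
    {R : Fin d → Fin n → ZMod 2} {B : Fin d → Finset (Fin n)} :
    B ∈ SL G N R ↔ B ∈ G ∧ ∀ j, j ∉ N → Odd (pr (B j) (R j)) := by
  rw [SL, Finset.mem_filter]

theorem update_mem {R : Fin d → Fin n → ZMod 2} (hR : ∀ i, R i ∈ Odds n) (i : Fin d)
    {v : Fin n → ZMod 2} (hv : v ∈ Odds n) : ∀ j, Function.update R i v j ∈ Odds n := by
  intro j
  by_cases h : j = i
  · subst h; simpa using hv
  · rw [Function.update_of_ne h]; exact hR j

theorem mem_SL_update {G : Finset (Fin d → Finset (Fin n))} {N : Finset (Fin d)}
    {R : Fin d → Fin n → ZMod 2} {B : Fin d → Finset (Fin n)} {i : Fin d} (hi : i ∉ N)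
    (v : Fin n → ZMod 2) :
    B ∈ SL G N (Function.update R i v) ↔ B ∈ SL G (insert i N) R ∧ Odd (pr (B i) v) := by
  rw [mem_SL, mem_SL]
  constructor
  · rintro ⟨h1, h2⟩
    refine ⟨⟨h1, fun j hj => ?_⟩, ?_⟩
    · rw [Finset.mem_insert, not_or] at hj
      have := h2 j hj.2
      rwa [Function.update_of_ne hj.1] at this
    · have := h2 i hi
      rwa [Function.update_self] at this
  · rintro ⟨⟨h1, h2⟩, h3⟩
    refine ⟨h1, fun j hj => ?_⟩
    by_cases h : j = i
    · subst h; rw [Function.update_self]; exact h3
    · rw [Function.update_of_ne h]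
      exact h2 j (by rw [Finset.mem_insert, not_or]; exact ⟨h, hj⟩)

theorem slice_sum (G : Finset (Fin d → Finset (Fin n))) (hG : ∀ B ∈ G, IsProperBox B)
    (N : Finset (Fin d)) (i : Fin d) (hi : i ∉ N) (R : Fin d → Fin n → ZMod 2) :
    2 * ∑ v ∈ Odds n, (SL G N (Function.update R i v)).card =
      (Odds n).card * (SL G (insert i N) R).card := by
  have h1 : ∀ v, (SL G N (Function.update R i v)).card =
      ∑ B ∈ SL G (insert i N) R, (if Odd (pr (B i) v) then 1 else 0) := by
    intro v
    rw [← Finset.card_filter]
    congr 1
    ext B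
    rw [mem_SL_update hi, Finset.mem_filter]
  simp only [h1]
  rw [Finset.sum_comm, Finset.mul_sum]
  have h2 : ∀ B ∈ SL G (insert i N) R,
      2 * ∑ v ∈ Odds n, (if Odd (pr (B i) v) then 1 else 0) = (Odds n).card := by
    intro B hB
    rw [← Finset.card_filter]
    have := hG B (mem_SL.1 hB).1 i
    exact half (B i) this.1 this.2
  rw [Finset.sum_congr rfl h2, Finset.sum_const, smul_eq_mul, mul_comm]

/-- A family which meets every odd product set of a slab is large. -/
theorem full (hn : 0 < n) (G : Finset (Fin d → Finset (Fin n))) (hG : ∀ B ∈ G, IsProperBox B)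
    (N : Finset (Fin d)) : ∀ R : Fin d → Fin n → ZMod 2, (∀ i, R i ∈ Odds n) →
    (∀ R' : Fin d → Fin n → ZMod 2, (∀ i, R' i ∈ Odds n) → (∀ j, j ∉ N → R' j = R j) →
      ∃ B ∈ G, oddB R' B) → 2 ^ N.card ≤ (SL G N R).card := by
  induction N using Finset.induction_on with
  | empty =>
    intro R hR h
    obtain ⟨B, hB, ho⟩ := h R hR (fun j _ => rfl)
    rw [Finset.card_empty, pow_zero]
    exact Finset.card_pos.2 ⟨B, mem_SL.2 ⟨hB, fun j _ => ho j⟩⟩
  | insert i N hi ih =>
    intro R hR h
    have h1 : ∀ v ∈ Odds n, 2 ^ N.card ≤ (SL G N (Function.update R i v)).card := by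
      intro v hv
      apply ih _ (update_mem hR i hv)
      intro R' hR' he
      apply h R' hR'
      intro j hj
      rw [Finset.mem_insert, not_or] at hj
      rw [he j hj.2, Function.update_of_ne hj.1]
    have h2 := Finset.sum_le_sum h1
    rw [Finset.sum_const, smul_eq_mul] at h2
    have h3 := slice_sum G hG N i hi R
    have h4 := odds_pos hn
    rw [Finset.card_insert_of_notMem hi, pow_succ]
    have h5 : (Odds n).card * (2 ^ N.card * 2) ≤
        (Odds n).card * (SL G (insert i N) R).card := by
      rw [← h3]
      calc (Odds n).card * (2 ^ N.card * 2) = 2 * ((Odds n).card * 2 ^ N.card) := by ring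
        _ ≤ _ := Nat.mul_le_mul_left 2 h2
    exact Nat.le_of_mul_le_mul_left h5 h4

/-- In the slice of a reference vector every odd product set is met by a doubled box. -/
theorem ref_full (F : Multiset (Fin d → Finset (Fin n))) (hF : IsDoubleCover n d F)
    (N : Finset (Fin d)) (i : Fin d) (hi : i ∉ N) (c : Fin n → ZMod 2)
    (hce : ∀ B ∈ S F, ¬ Odd (pr (B i) c))
    (R : Fin d → Fin n → ZMod 2)
    (hsame : ∀ B ∈ SL (S F) (insert i N) R, ∀ B' ∈ SL (S F) (insert i N) R, B i = B' i)
    (R' : Fin d → Fin n → ZMod 2) (hR' : ∀ i, R' i ∈ Odds n)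
    (he : ∀ j, j ∉ N → R' j = Function.update R i c j) : ∃ B ∈ T F, oddB R' B := by
  have hic : R' i = c := by rw [he i hi, Function.update_self]
  by_contra hcon
  push Not at hcon
  have hT : (T F).filter (oddB R') = ∅ := Finset.filter_false_of_mem hcon
  have hS : (S F).filter (oddB R') = ∅ := by
    apply Finset.filter_false_of_mem
    intro B hB ho
    have := ho i
    rw [hic] at this
    exact hce B hB this
  obtain ⟨l, ⟨⟨B, hB, B', hB', hne⟩, _⟩, _⟩ := exists_active F hF R' hR' hS hT
  rw [Low.N, Finset.mem_filter] at hB hB'
  have hl : l = i := by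
    by_contra hli
    have := hB.2 i (Ne.symm hli)
    rw [hic] at this
    exact hce B hB.1 this
  subst hl
  apply hne
  have hin : ∀ C, C ∈ S F → near l R' C → C ∈ SL (S F) (insert l N) R := by
    intro C hC hnear
    rw [mem_SL]
    refine ⟨hC, fun j hj => ?_⟩
    rw [Finset.mem_insert, not_or] at hj
    have h1 := hnear j hj.1
    rw [he j hj.2, Function.update_of_ne hj.1] at h1
    exact h1
  exact hsame B (hin B hB.1 hB.2) B' (hin B' hB'.1 hB'.2)

/-- The slab inequality. -/
theorem slab (hn : 0 < n) (F : Multiset (Fin d → Finset (Fin n))) (hF : IsDoubleCover n d F)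
    (c : Fin d → Fin n → ZMod 2) (N : Finset (Fin d)) :
    (∀ i ∈ N, c i ∈ Odds n) → (∀ i ∈ N, ∀ B ∈ S F, ¬ Odd (pr (B i) (c i))) →
    ∀ R : Fin d → Fin n → ZMod 2, (∀ i, R i ∈ Odds n) →
      (SL (S F) N R = ∅ → 2 ^ N.card ≤ (SL (T F) N R).card + 1) ∧
      (SL (S F) N R ≠ ∅ → 2 ^ N.card + 1 ≤ (SL (S F) N R).card + (SL (T F) N R).card) := by
  induction N using Finset.induction_on with
  | empty =>
    intro _ _ R hR
    refine ⟨fun _ => by simp, fun h => ?_⟩
    have h1 : SL (S F) ∅ R = (S F).filter (oddB R) := by
      ext B
      rw [mem_SL, Finset.mem_filter]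
      constructor
      · rintro ⟨h1, h2⟩
        exact ⟨h1, fun j => h2 j (Finset.notMem_empty j)⟩
      · rintro ⟨h1, h2⟩
        exact ⟨h1, fun j _ => h2 j⟩
    have h2 := even_card_S F hF R
    rw [← h1] at h2
    have h3 : 0 < (SL (S F) ∅ R).card := Finset.card_pos.2 (Finset.nonempty_iff_ne_empty.2 h)
    rw [Finset.card_empty, pow_zero]
    omega
  | insert i N hi ih =>
    intro hc hce R hR
    have ih' := ih (fun j hj => hc j (Finset.mem_insert_of_mem hj))
      (fun j hj => hce j (Finset.mem_insert_of_mem hj))
    have hci := hc i (Finset.mem_insert_self i N)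
    have hcei := hce i (Finset.mem_insert_self i N)
    have hS := slice_sum (S F) (fun B hB => S_proper F hF hB) N i hi R
    have hT := slice_sum (T F) (fun B hB => T_proper F hF hB) N i hi R
    have hk := odds_pos hn
    rw [Finset.card_insert_of_notMem hi, pow_succ]
    set q := 2 ^ N.card with hq
    set κ := (Odds n).card with hκ
    set s' := (SL (S F) (insert i N) R).card with hs'
    set t' := (SL (T F) (insert i N) R).card with ht'
    set s := fun v => (SL (S F) N (Function.update R i v)).card with hs
    set t := fun v => (SL (T F) N (Function.update R i v)).card with ht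
    have hcI : s (c i) = 0 := by
      rw [hs]
      simp only
      rw [Finset.card_eq_zero, Finset.eq_empty_iff_forall_notMem]
      intro B hB
      rw [mem_SL_update hi] at hB
      exact hcei B (mem_SL.1 hB.1).1 hB.2
    refine ⟨fun hE => ?_, fun hNE => ?_⟩
    · -- no box of multiplicity one in the slab
      have hcf : q ≤ t (c i) := by
        apply full hn (T F) (fun B hB => T_proper F hF hB) N _ (update_mem hR i hci)
        intro R' hR' he
        exact ref_full F hF N i hi (c i) hcei R (by rw [hE]; simp) R' hR' he
      have h1 : ∀ v ∈ Odds n, q ≤ t v + 1 := by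
        intro v hv
        apply (ih' _ (update_mem hR i hv)).1
        rw [Finset.eq_empty_iff_forall_notMem]
        intro B hB
        rw [mem_SL_update hi, hE] at hB
        exact Finset.notMem_empty _ hB.1
      have h2 : ∑ v ∈ Odds n, q < ∑ v ∈ Odds n, (t v + 1) :=
        Finset.sum_lt_sum h1 ⟨c i, hci, by omega⟩
      rw [Finset.sum_const, smul_eq_mul, Finset.sum_add_distrib, Finset.sum_const, smul_eq_mul,
        mul_one, ← hκ] at h2
      have h3 : κ * (q * 2) < κ * (t' + 2) := by
        have : κ * (t' + 2) = 2 * (∑ v ∈ Odds n, t v + κ) := by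
          rw [mul_add, ← hT]; ring
        rw [this]
        have : κ * (q * 2) = 2 * (κ * q) := by ring
        rw [this]
        omega
      have h4 := Nat.lt_of_mul_lt_mul_left h3
      omega
    · -- the main case: it suffices to win something on the slices
      suffices hmain : κ * q < ∑ v ∈ Odds n, (s v + t v) by
        rw [Finset.sum_add_distrib] at hmain
        have h3 : κ * (q * 2) < κ * (s' + t') := by
          have : κ * (s' + t') = 2 * (∑ v ∈ Odds n, s v + ∑ v ∈ Odds n, t v) := by
            rw [mul_add, ← hS, ← hT]; ring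
          rw [this]
          have : κ * (q * 2) = 2 * (κ * q) := by ring
          rw [this]
          omega
        have h4 := Nat.lt_of_mul_lt_mul_left h3
        omega
      by_cases hsame : ∀ B ∈ SL (S F) (insert i N) R, ∀ B' ∈ SL (S F) (insert i N) R, B i = B' i
      · obtain ⟨B0, hB0⟩ := Finset.nonempty_iff_ne_empty.2 hNE
        have hB0S := (mem_SL.1 hB0).1
        have hp := S_proper F hF hB0S i
        have hhalf := half (B0 i) hp.1 hp.2
        have hcf : q ≤ t (c i) := by
          apply full hn (T F) (fun B hB => T_proper F hF hB) N _ (update_mem hR i hci)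
          intro R' hR' he
          exact ref_full F hF N i hi (c i) hcei R hsame R' hR' he
        have h1 : ∀ v ∈ Odds n, q + (if Odd (pr (B0 i) v) then 1 else 0) +
            (if v = c i then 1 else 0) ≤ s v + t v + (if ¬ Odd (pr (B0 i) v) then 1 else 0) := by
          intro v hv
          by_cases hvc : v = c i
          · have ho := hcei B0 hB0S
            rw [hvc, if_neg ho, if_pos rfl, if_pos ho, hcI]
            omega
          · rw [if_neg hvc]
            by_cases ho : Odd (pr (B0 i) v)
            · rw [if_pos ho, if_neg (by simpa using ho)]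
              have hne : SL (S F) N (Function.update R i v) ≠ ∅ := by
                rw [← Finset.nonempty_iff_ne_empty]
                exact ⟨B0, (mem_SL_update hi v).2 ⟨hB0, ho⟩⟩
              have := (ih' _ (update_mem hR i hv)).2 hne
              simp only [hs, ht]
              omega
            · rw [if_neg ho, if_pos ho]
              by_cases hE : SL (S F) N (Function.update R i v) = ∅
              · have := (ih' _ (update_mem hR i hv)).1 hE
                simp only [hs, ht]
                omega
              · have := (ih' _ (update_mem hR i hv)).2 hE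
                simp only [hs, ht]
                omega
        have h2 := Finset.sum_le_sum h1
        rw [Finset.sum_add_distrib, Finset.sum_add_distrib, Finset.sum_const, smul_eq_mul,
          Finset.sum_ite_eq' , if_pos hci, Finset.sum_add_distrib (s := Odds n)
            (f := fun v => s v + t v), ← Finset.card_filter, ← Finset.card_filter] at h2
        have h3 := Finset.card_filter_add_card_filter_not (s := Odds n)
          (fun v => Odd (pr (B0 i) v))
        rw [← hκ] at h2 h3 hhalf
        omega
      · push Not at hsame
        obtain ⟨B, hB, B', hB', hne⟩ := hsame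
        have hp := S_proper F hF (mem_SL.1 hB).1 i
        have hp' := S_proper F hF (mem_SL.1 hB').1 i
        have hquart := quarter (B i) (B' i) hp.1 hp.2 hp'.1 hp'.2 hne
        have h1 : ∀ v ∈ Odds n, q + (if ¬ (¬ Odd (pr (B i) v) ∧ ¬ Odd (pr (B' i) v)) then 1 else 0) ≤
            s v + t v + (if (¬ Odd (pr (B i) v) ∧ ¬ Odd (pr (B' i) v)) then 1 else 0) := by
          intro v hv
          by_cases hE : SL (S F) N (Function.update R i v) = ∅
          · have h4 := (ih' _ (update_mem hR i hv)).1 hE
            have ho : ¬ Odd (pr (B i) v) ∧ ¬ Odd (pr (B' i) v) := by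
              constructor
              · intro ho
                have : B ∈ SL (S F) N (Function.update R i v) := (mem_SL_update hi v).2 ⟨hB, ho⟩
                rw [hE] at this
                exact Finset.notMem_empty _ this
              · intro ho
                have : B' ∈ SL (S F) N (Function.update R i v) :=
                  (mem_SL_update hi v).2 ⟨hB', ho⟩
                rw [hE] at this
                exact Finset.notMem_empty _ this
            rw [if_pos ho, if_neg (by simpa using ho)]
            simp only [hs, ht]
            omega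
          · have h4 := (ih' _ (update_mem hR i hv)).2 hE
            simp only [hs, ht]
            split_ifs <;> omega
        have h2 := Finset.sum_le_sum h1
        rw [Finset.sum_add_distrib, Finset.sum_const, smul_eq_mul,
          Finset.sum_add_distrib (s := Odds n)
            (f := fun v => s v + t v), ← Finset.card_filter, ← Finset.card_filter] at h2
        have h3 := Finset.card_filter_add_card_filter_not (s := Odds n)
          (fun v => ¬ Odd (pr (B i) v) ∧ ¬ Odd (pr (B' i) v))
        rw [← hκ] at h2 h3 hquart
        omega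

end Pool.Agent.MP7489fb.Mix
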