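import Pool.Agent.MP7489fb.Mix1

set_option autoImplicit false

/-! Double covers with restrictions on the sides: the bad slabs. -/

namespace Pool.Agent.MP7489fb.Mix

open Finset Classical Pool.Agent.MP7489fb.Low

variable {d n : ℕ}

/-- At a bad place some direction is active, and some near box has even trace two modulo four. -/
theorem exists_active' (F : Multiset (Fin d → Finset (Fin n))) (hF : IsDoubleCover n d F)
    (R : Fin d → Fin n → ZMod 2) (hR : ∀ i, R i ∈ Odds n)
    (hS : (S F).filter (oddB R) = ∅) (hT : (T F).filter (oddB R) = ∅) :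
    ∃ i, V F i R ∧ ∃ B ∈ Low.N F i R, pr (B i) (R i) % 4 = 2 := by
  have hSe : ∀ B ∈ S F, ¬ Odd (W (wt R) B) := by
    intro B hB h
    rw [W_wt, odd_prod_iff] at h
    exact (Finset.eq_empty_iff_forall_notMem.1 hS B) (Finset.mem_filter.2 ⟨hB, h⟩)
  have hTe : ∀ B ∈ T F, ¬ Odd (W (wt R) B) := by
    intro B hB h
    rw [W_wt, odd_prod_iff] at h
    exact (Finset.eq_empty_iff_forall_notMem.1 hT B) (Finset.mem_filter.2 ⟨hB, h⟩)
  have h := main_id (wt R) F hF
  have hR' : Odd (∏ i, ∑ a, wt R i a) := by
    rw [odd_prod_iff]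
    intro i; exact odd_total (R i) (hR i)
  have h1 := sum_mod_four_card (S F) (W (wt R)) hSe
  have h2 := sum_mod_four_card (T F) (W (wt R)) hTe
  have h3 := Nat.odd_iff.1 hR'
  have hcard : ((S F).filter (fun B => W (wt R) B % 4 = 2)).card % 2 = 1 := by omega
  have hsplit : ((S F).filter (fun B => W (wt R) B % 4 = 2)).card =
      ∑ i, ((Low.N F i R).filter (fun B => pr (B i) (R i) % 4 = 2)).card := by
    have : (S F).filter (fun B => W (wt R) B % 4 = 2) =
        Finset.univ.biUnion (fun i => (Low.N F i R).filter (fun B => pr (B i) (R i) % 4 = 2)) := by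
      ext B
      simp only [Finset.mem_filter, Finset.mem_biUnion, Finset.mem_univ, true_and, Low.N]
      constructor
      · rintro ⟨hB, hW⟩
        rw [W_wt] at hW
        obtain ⟨i, hi, hj⟩ := exists_of_prod_mod_four _ hW
        exact ⟨i, ⟨hB, hj⟩, hi⟩
      · rintro ⟨i, ⟨hB, hj⟩, hi⟩
        exact ⟨hB, by rw [W_wt]; exact prod_mod_four _ i hi hj⟩
    rw [this, Finset.card_biUnion]
    intro i _ j _ hij
    rw [Function.onFun, Finset.disjoint_left]
    intro B hB1 hB2
    rw [Finset.mem_filter, Low.N, Finset.mem_filter] at hB1 hB2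
    have h5 := hB1.1.2 j (Ne.symm hij)
    have h6 := Nat.odd_iff.1 h5
    omega
  obtain ⟨i, hi⟩ : ∃ i, Odd ((Low.N F i R).filter (fun B => pr (B i) (R i) % 4 = 2)).card := by
    by_contra hcon
    push Not at hcon
    rw [hsplit] at hcard
    have := sum_mod_two_card Finset.univ
      (fun i => ((Low.N F i R).filter (fun B => pr (B i) (R i) % 4 = 2)).card)
    rw [Finset.filter_false_of_mem (fun i _ => hcon i)] at this
    simp only [Finset.card_empty] at this
    omega
  have hNe : ∀ B ∈ Low.N F i R, ¬ Odd (pr (B i) (R i)) := by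
    intro B hB hodd
    rw [Low.N, Finset.mem_filter] at hB
    apply hSe B hB.1
    rw [W_wt, odd_prod_iff]
    intro j
    by_cases hji : j = i
    · subst hji; exact hodd
    · exact hB.2 j hji
  have hpos : ((Low.N F i R).filter (fun B => pr (B i) (R i) % 4 = 2)).Nonempty := by
    rw [← Finset.card_pos]; exact hi.pos
  obtain ⟨B, hB⟩ := hpos
  rw [Finset.mem_filter] at hB
  refine ⟨i, ⟨?_, hNe⟩, B, hB.1, hB.2⟩
  by_contra hcon
  push Not at hcon
  have hBS : B ∈ S F := by
    have := hB.1; rw [Low.N, Finset.mem_filter] at this; exact this.1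
  obtain ⟨a, ha⟩ := (S_proper F hF hBS i).1
  have he := even_fiber F hF R i a
  rw [Finset.filter_true_of_mem (fun B' hB' => by rw [hcon B' hB' B hB.1]; exact ha)] at he
  have hall : (Low.N F i R).filter (fun B => pr (B i) (R i) % 4 = 2) = Low.N F i R := by
    apply Finset.filter_true_of_mem
    intro B' hB'
    rw [hcon B' hB' B hB.1]; exact hB.2
  rw [hall] at hi
  have := Nat.odd_iff.1 hi
  omega

theorem card_off (B : Fin d → Finset (Fin n)) (hB : IsProperBox B) (N : Finset (Fin d)) :
    2 ^ (univ \ N).card * ((Om d n).filter (fun R => ∀ j, j ∉ N → Odd (pr (B j) (R j)))).card =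
      (Odds n).card ^ d := by
  have h : (Om d n).filter (fun R => ∀ j, j ∉ N → Odd (pr (B j) (R j))) =
      Fintype.piFinset (fun j => if j ∈ N then Odds n else
        (Odds n).filter (fun r => Odd (pr (B j) r))) := by
    ext R
    simp only [Finset.mem_filter, mem_Om, Fintype.mem_piFinset]
    constructor
    · rintro ⟨h1, h2⟩ j
      by_cases hj : j ∈ N
      · rw [if_pos hj]; exact h1 j
      · rw [if_neg hj, Finset.mem_filter]; exact ⟨h1 j, h2 j hj⟩
    · intro h
      refine ⟨fun j => ?_, fun j hj => ?_⟩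
      · have := h j
        by_cases hj : j ∈ N
        · rw [if_pos hj] at this; exact this
        · rw [if_neg hj, Finset.mem_filter] at this; exact this.1
      · have := h j
        rw [if_neg hj, Finset.mem_filter] at this; exact this.2
  rw [h, Fintype.card_piFinset]
  have h2 : (2 : ℕ) ^ (univ \ N).card = ∏ j : Fin d, (if j ∈ N then 1 else 2) := by
    rw [Finset.prod_ite, Finset.prod_const_one, one_mul, Finset.prod_const]
    congr 1
    congr 1
    ext j; simp
  rw [h2, ← Finset.prod_mul_distrib]
  have h3 : ∀ j : Fin d, (if j ∈ N then 1 else 2) * (if j ∈ N then Odds n else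
      (Odds n).filter (fun r => Odd (pr (B j) r))).card = (Odds n).card := by
    intro j
    by_cases hj : j ∈ N
    · rw [if_pos hj, if_pos hj]; ring
    · rw [if_neg hj, if_neg hj]; exact half (B j) (hB j).1 (hB j).2
  rw [Finset.prod_congr rfl fun i _ => h3 i]
  simp

theorem sum_SL (G : Finset (Fin d → Finset (Fin n))) (hG : ∀ B ∈ G, IsProperBox B)
    (N : Finset (Fin d)) :
    2 ^ (univ \ N).card * ∑ R ∈ Om d n, (SL G N R).card = (Odds n).card ^ d * G.card := by
  have h1 : ∀ R, (SL G N R).card =
      ∑ B ∈ G, (if ∀ j, j ∉ N → Odd (pr (B j) (R j)) then 1 else 0) := by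
    intro R
    rw [SL, Finset.card_filter]
  simp only [h1]
  rw [Finset.sum_comm, Finset.mul_sum]
  have h2 : ∀ B ∈ G, 2 ^ (univ \ N).card *
      ∑ R ∈ Om d n, (if ∀ j, j ∉ N → Odd (pr (B j) (R j)) then 1 else 0) =
        (Odds n).card ^ d := by
    intro B hB
    rw [← Finset.card_filter]
    exact card_off B (hG B hB) N
  rw [Finset.sum_congr rfl h2, Finset.sum_const, smul_eq_mul, mul_comm]

/-- The slab of `R` is bad in direction `l`. -/
def BadL (F : Multiset (Fin d → Finset (Fin n))) (N : Finset (Fin d)) (l : Fin d)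
    (R : Fin d → Fin n → ZMod 2) : Prop :=
  SL (S F) N R = ∅ ∧ ∃ R' : Fin d → Fin n → ZMod 2, (∀ j, j ∉ N → R' j = R j) ∧ V F l R' ∧
    ∃ B ∈ Low.N F l R', pr (B l) (R' l) % 4 = 2

/-- Some slab on the line through `R` in direction `l` is bad. -/
def EL (F : Multiset (Fin d → Finset (Fin n))) (N : Finset (Fin d)) (l : Fin d)
    (R : Fin d → Fin n → ZMod 2) : Prop :=
  ∃ v ∈ Odds n, BadL F N l (Function.update R l v)

theorem line (F : Multiset (Fin d → Finset (Fin n))) (hF : IsDoubleCover n d F)
    (N : Finset (Fin d)) (l : Fin d) (hl : l ∉ N) (R : Fin d → Fin n → ZMod 2) :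
    3 * ∑ v ∈ Odds n, (if BadL F N l (Function.update R l v) then 1 else 0) ≤
      ∑ v ∈ Odds n, (if SL (S F) N (Function.update R l v) ≠ ∅ ∧
        EL F N l (Function.update R l v) then 1 else 0) := by
  by_cases h : ∃ v ∈ Odds n, BadL F N l (Function.update R l v)
  · have hE : ∀ v, EL F N l (Function.update R l v) := by
      intro v
      obtain ⟨w, hw, hb⟩ := h
      refine ⟨w, hw, ?_⟩
      rw [Function.update_idem]; exact hb
    obtain ⟨v0, hv0, hE0, R', he, ⟨⟨B, hB, B', hB', hne⟩, _⟩, _⟩ := h
    rw [Low.N, Finset.mem_filter] at hB hB'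
    have hin : ∀ C, C ∈ S F → near l R' C → ∀ v, Odd (pr (C l) v) →
        C ∈ SL (S F) N (Function.update R l v) := by
      intro C hC hnear v hv
      rw [mem_SL]
      refine ⟨hC, fun j hj => ?_⟩
      by_cases hjl : j = l
      · subst hjl; rw [Function.update_self]; exact hv
      · rw [Function.update_of_ne hjl]
        have h1 := hnear j hjl
        rw [he j hj, Function.update_of_ne hjl] at h1
        exact h1
    have hp := S_proper F hF hB.1 l
    have hp' := S_proper F hF hB'.1 l
    have hquart := quarter (B l) (B' l) hp.1 hp.2 hp'.1 hp'.2 hne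
    have hsub : (Odds n).filter (fun v => ¬ SL (S F) N (Function.update R l v) ≠ ∅) ⊆
        (Odds n).filter (fun r => ¬ Odd (pr (B l) r) ∧ ¬ Odd (pr (B' l) r)) := by
      intro v hv
      rw [Finset.mem_filter] at hv ⊢
      obtain ⟨hv1, hv2⟩ := hv
      rw [not_not] at hv2
      refine ⟨hv1, ?_, ?_⟩
      · intro ho
        have := hin B hB.1 hB.2 v ho
        rw [hv2] at this
        exact Finset.notMem_empty _ this
      · intro ho
        have := hin B' hB'.1 hB'.2 v ho
        rw [hv2] at this
        exact Finset.notMem_empty _ this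
    have hc := Finset.card_le_card hsub
    have h3 := Finset.card_filter_add_card_filter_not (s := Odds n)
      (fun v => SL (S F) N (Function.update R l v) ≠ ∅)
    have h4 : ∑ v ∈ Odds n, (if BadL F N l (Function.update R l v) then 1 else 0) ≤
        ((Odds n).filter (fun v => ¬ SL (S F) N (Function.update R l v) ≠ ∅)).card := by
      rw [← Finset.card_filter]
      apply Finset.card_le_card
      intro v hv
      rw [Finset.mem_filter] at hv ⊢
      exact ⟨hv.1, by rw [not_not]; exact hv.2.1⟩
    have h5 : ∑ v ∈ Odds n, (if SL (S F) N (Function.update R l v) ≠ ∅ ∧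
        EL F N l (Function.update R l v) then 1 else 0) =
        ((Odds n).filter (fun v => SL (S F) N (Function.update R l v) ≠ ∅)).card := by
      rw [Finset.card_filter]
      refine Finset.sum_congr rfl fun v _ => ?_
      simp only [hE v, and_true]
    rw [h5]
    omega
  · push Not at h
    have : ∀ v ∈ Odds n, (if BadL F N l (Function.update R l v) then 1 else 0) = 0 := by
      intro v hv
      rw [if_neg (h v hv)]
    rw [Finset.sum_congr rfl this]
    simp

theorem lines (hn : 0 < n) (F : Multiset (Fin d → Finset (Fin n))) (hF : IsDoubleCover n d F)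
    (N : Finset (Fin d)) (l : Fin d) (hl : l ∉ N) :
    3 * ∑ R ∈ Om d n, (if BadL F N l R then 1 else 0) ≤
      ∑ R ∈ Om d n, (if SL (S F) N R ≠ ∅ ∧ EL F N l R then 1 else 0) := by
  have h1 := swap l (fun R : Fin d → Fin n → ZMod 2 => if BadL F N l R then 1 else 0)
  have h2 := swap l (fun R : Fin d → Fin n → ZMod 2 =>
    if SL (S F) N R ≠ ∅ ∧ EL F N l R then 1 else 0)
  have h3 : 3 * ∑ R ∈ Om d n, ∑ v ∈ Odds n,
      (if BadL F N l (Function.update R l v) then 1 else 0) ≤
      ∑ R ∈ Om d n, ∑ v ∈ Odds n, (if SL (S F) N (Function.update R l v) ≠ ∅ ∧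
        EL F N l (Function.update R l v) then 1 else 0) := by
    rw [Finset.mul_sum]
    exact Finset.sum_le_sum fun R _ => line F hF N l hl R
  rw [h1, h2] at h3
  have h4 := odds_pos hn
  have h5 : (Odds n).card * (3 * ∑ R ∈ Om d n, (if BadL F N l R then 1 else 0)) ≤
      (Odds n).card * ∑ R ∈ Om d n, (if SL (S F) N R ≠ ∅ ∧ EL F N l R then 1 else 0) := by
    calc _ = 3 * ((Odds n).card * ∑ R ∈ Om d n, (if BadL F N l R then 1 else 0)) := by ring
      _ ≤ _ := h3
  exact Nat.le_of_mul_le_mul_left h5 h4

end Pool.Agent.MP7489fb.Mix
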