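import Pool.Agent.MP7489fb.Mix2

set_option autoImplicit false

/-! Double covers with restrictions on the sides: the main inequality. -/

namespace Pool.Agent.MP7489fb.Mix

open Finset Classical Pool.Agent.MP7489fb.Low

variable {d n : ℕ}

/-- Some set with an odd number, at least three, of elements meets `A` in an even number. -/
def Exp (A : Finset (Fin n)) : Prop :=
  ∃ V : Finset (Fin n), Odd V.card ∧ 3 ≤ V.card ∧ Even (A ∩ V).card

theorem zmod_two (z : ZMod 2) : z.val = if z = 1 then 1 else 0 := by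
  revert z; decide

theorem pr_eq (A : Finset (Fin n)) (v : Fin n → ZMod 2) :
    pr A v = (A ∩ univ.filter (fun a => v a = 1)).card := by
  unfold pr
  simp only [zmod_two]
  rw [← Finset.card_filter]
  congr 1
  ext a; simp

theorem odds_card {v : Fin n → ZMod 2} (hv : v ∈ Odds n) :
    Odd (univ.filter (fun a => v a = 1)).card := by
  have h := odd_total v hv
  have : ∑ a, (v a).val = (univ.filter (fun a => v a = 1)).card := by
    simp only [zmod_two]
    rw [← Finset.card_filter]
  rwa [this] at h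

theorem ind_odds {V : Finset (Fin n)} (hV : Odd V.card) : ind V ∈ Odds n := by
  rw [Odds, Finset.mem_filter]
  refine ⟨Finset.mem_univ _, ?_⟩
  unfold ind
  rw [Finset.sum_boole]
  have : (univ.filter (fun a => a ∈ V)) = V := by ext a; simp
  rw [this]
  obtain ⟨k, hk⟩ := hV
  rw [hk]
  push_cast
  have : (2 : ZMod 2) = 0 := by decide
  rw [this]; ring

theorem pr_ind (A V : Finset (Fin n)) : pr A (ind V) = (A ∩ V).card := by
  rw [pr_eq]
  congr 2
  ext a
  simp [ind]

/-- A nonempty slab family has at least two members. -/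
theorem two_le (F : Multiset (Fin d → Finset (Fin n))) (hF : IsDoubleCover n d F)
    (hn : 0 < n) (N : Finset (Fin d)) (R : Fin d → Fin n → ZMod 2) (h : SL (S F) N R ≠ ∅) :
    2 ≤ (SL (S F) N R).card := by
  obtain ⟨B, hB⟩ := Finset.nonempty_iff_ne_empty.2 h
  obtain ⟨hBS, hBo⟩ := mem_SL.1 hB
  have hp := S_proper F hF hBS
  have hex : ∀ j, ∃ v : Fin n → ZMod 2, Odd (pr (B j) v) := by
    intro j
    have h1 := half (B j) (hp j).1 (hp j).2
    have h2 := odds_pos hn
    have h3 : 0 < ((Odds n).filter (fun r => Odd (pr (B j) r))).card := by omega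
    obtain ⟨v, hv⟩ := Finset.card_pos.1 h3
    exact ⟨v, (Finset.mem_filter.1 hv).2⟩
  choose w hw using hex
  set R' : Fin d → Fin n → ZMod 2 := fun j => if j ∈ N then w j else R j with hR'
  have h1 : B ∈ (S F).filter (oddB R') := by
    rw [Finset.mem_filter]
    refine ⟨hBS, fun j => ?_⟩
    by_cases hj : j ∈ N
    · simp only [hR', if_pos hj]; exact hw j
    · simp only [hR', if_neg hj]; exact hBo j hj
  have h2 := even_card_S F hF R'
  have h3 : 0 < ((S F).filter (oddB R')).card := Finset.card_pos.2 ⟨B, h1⟩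
  have h4 : ((S F).filter (oddB R')).card ≤ (SL (S F) N R).card := by
    apply Finset.card_le_card
    intro C hC
    rw [Finset.mem_filter] at hC
    rw [mem_SL]
    refine ⟨hC.1, fun j hj => ?_⟩
    have := hC.2 j
    simp only [hR', if_neg hj] at this
    exact this
  omega

/-- Few directions are active at a slab which meets a box of multiplicity one. -/
theorem few (F : Multiset (Fin d → Finset (Fin n))) (N : Finset (Fin d)) (p : ℕ)
    (h2 : ∀ B ∈ S F, (univ.filter (fun j => j ∉ N ∧ Exp (B j))).card ≤ p)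
    (R : Fin d → Fin n → ZMod 2) (h : SL (S F) N R ≠ ∅) :
    ((univ \ N).filter (fun l => EL F N l R)).card ≤ p := by
  obtain ⟨B, hB⟩ := Finset.nonempty_iff_ne_empty.2 h
  obtain ⟨hBS, hBo⟩ := mem_SL.1 hB
  refine le_trans (Finset.card_le_card ?_) (h2 B hBS)
  intro l hl
  rw [Finset.mem_filter, Finset.mem_sdiff] at hl
  obtain ⟨⟨_, hlN⟩, v, hv, hE, R', he, _, B1, hB1, hB1m⟩ := hl
  rw [Finset.mem_filter]
  refine ⟨Finset.mem_univ _, hlN, univ.filter (fun a => v a = 1), odds_card hv, ?_, ?_⟩
  · have hlv : R' l = v := by rw [he l hlN, Function.update_self]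
    rw [hlv, pr_eq] at hB1m
    have h3 : (B1 l ∩ univ.filter (fun a => v a = 1)).card ≤
        (univ.filter (fun a => v a = 1)).card :=
      Finset.card_le_card Finset.inter_subset_right
    have h4 := Nat.odd_iff.1 (odds_card hv)
    omega
  · rw [← pr_eq, ← Nat.not_odd_iff_even]
    intro ho
    have : B ∈ SL (S F) N (Function.update R l v) := by
      rw [mem_SL]
      refine ⟨hBS, fun j hj => ?_⟩
      by_cases hjl : j = l
      · subst hjl; rw [Function.update_self]; exact ho
      · rw [Function.update_of_ne hjl]; exact hBo j hj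
    rw [hE] at this
    exact Finset.notMem_empty _ this

theorem pointwise' (hn : 0 < n) (F : Multiset (Fin d → Finset (Fin n)))
    (hF : IsDoubleCover n d F) (c : Fin d → Fin n → ZMod 2) (N : Finset (Fin d))
    (hc : ∀ i ∈ N, c i ∈ Odds n) (hce : ∀ i ∈ N, ∀ B ∈ S F, ¬ Odd (pr (B i) (c i)))
    (p : ℕ) (hp : 3 ≤ p) (R : Fin d → Fin n → ZMod 2) (hR : ∀ i, R i ∈ Odds n) :
    6 * 2 ^ N.card + 2 * p * (if SL (S F) N R ≠ ∅ then 1 else 0) ≤
      (p + 3) * (SL (S F) N R).card + 6 * (SL (T F) N R).card +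
        6 * ∑ l ∈ univ \ N, (if BadL F N l R then 1 else 0) := by
  obtain ⟨hs0, hs1⟩ := slab hn F hF c N hc hce R hR
  by_cases hE : SL (S F) N R = ∅
  · rw [if_neg (by rw [not_not]; exact hE), hE, Finset.card_empty]
    by_cases hfull : ∀ R' : Fin d → Fin n → ZMod 2, (∀ i, R' i ∈ Odds n) →
        (∀ j, j ∉ N → R' j = R j) → ∃ B ∈ T F, oddB R' B
    · have := full hn (T F) (fun B hB => T_proper F hF hB) N R hR hfull
      omega
    · push Not at hfull
      obtain ⟨R', hR', he, hcon⟩ := hfull
      have hT : (T F).filter (oddB R') = ∅ := Finset.filter_false_of_mem hcon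
      have hS : (S F).filter (oddB R') = ∅ := by
        apply Finset.filter_false_of_mem
        intro B hB ho
        have : B ∈ SL (S F) N R := by
          rw [mem_SL]
          refine ⟨hB, fun j hj => ?_⟩
          rw [← he j hj]; exact ho j
        rw [hE] at this
        exact Finset.notMem_empty _ this
      obtain ⟨l, hV, B, hB, hBm⟩ := exists_active' F hF R' hR' hS hT
      have hlN : l ∉ N := by
        intro hlN
        have hB' := hB
        rw [Low.N, Finset.mem_filter] at hB'
        have : B ∈ SL (S F) N R := by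
          rw [mem_SL]
          refine ⟨hB'.1, fun j hj => ?_⟩
          rw [← he j hj]
          exact hB'.2 j (by rintro rfl; exact hj hlN)
        rw [hE] at this
        exact Finset.notMem_empty _ this
      have hbad : BadL F N l R := ⟨hE, R', he, hV, B, hB, hBm⟩
      have h1 : 1 ≤ ∑ l ∈ univ \ N, (if BadL F N l R then 1 else 0) := by
        have := Finset.single_le_sum (f := fun l => if BadL F N l R then 1 else 0)
          (fun _ _ => Nat.zero_le _) (Finset.mem_sdiff.2 ⟨Finset.mem_univ l, hlN⟩)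
        simpa [hbad] using this
      have h0 := hs0 hE
      omega
  · rw [if_pos hE]
    have h1 := hs1 hE
    have h2 := two_le F hF hn N R hE
    obtain ⟨k, rfl⟩ : ∃ k, p = k + 3 := ⟨p - 3, by omega⟩
    have h3 : k * 2 ≤ k * (SL (S F) N R).card := Nat.mul_le_mul_left k h2
    have h4 : (k + 3 + 3) * (SL (S F) N R).card =
        k * (SL (S F) N R).card + 6 * (SL (S F) N R).card := by ring
    rw [h4]
    omega

/-- The main inequality. -/
theorem main (hn : 0 < n) (F : Multiset (Fin d → Finset (Fin n)))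
    (hF : IsDoubleCover n d F) (c : Fin d → Fin n → ZMod 2) (N : Finset (Fin d))
    (hc : ∀ i ∈ N, c i ∈ Odds n) (hce : ∀ i ∈ N, ∀ B ∈ S F, ¬ Odd (pr (B i) (c i)))
    (p : ℕ) (hp : 3 ≤ p)
    (h2 : ∀ B ∈ S F, (univ.filter (fun j => j ∉ N ∧ Exp (B j))).card ≤ p) :
    6 * 2 ^ d ≤ (p + 3) * (S F).card + 6 * (T F).card := by
  have h1 := Finset.sum_le_sum (s := Om d n) fun R hR =>
    pointwise' hn F hF c N hc hce p hp R ((mem_Om R).1 hR)
  simp only [Finset.sum_add_distrib, ← Finset.mul_sum, Finset.sum_const, smul_eq_mul,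
    card_Om] at h1
  -- the bad slabs
  have hbad : 3 * ∑ R ∈ Om d n, ∑ l ∈ univ \ N, (if BadL F N l R then 1 else 0) ≤
      p * ∑ R ∈ Om d n, (if SL (S F) N R ≠ ∅ then 1 else 0) := by
    rw [Finset.sum_comm, Finset.mul_sum]
    calc ∑ l ∈ univ \ N, 3 * ∑ R ∈ Om d n, (if BadL F N l R then 1 else 0)
        ≤ ∑ l ∈ univ \ N, ∑ R ∈ Om d n, (if SL (S F) N R ≠ ∅ ∧ EL F N l R then 1 else 0) := by
          refine Finset.sum_le_sum fun l hl => ?_
          exact lines hn F hF N l (Finset.mem_sdiff.1 hl).2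
      _ = ∑ R ∈ Om d n, ∑ l ∈ univ \ N, (if SL (S F) N R ≠ ∅ ∧ EL F N l R then 1 else 0) :=
          Finset.sum_comm
      _ ≤ ∑ R ∈ Om d n, p * (if SL (S F) N R ≠ ∅ then 1 else 0) := by
          refine Finset.sum_le_sum fun R _ => ?_
          by_cases hE : SL (S F) N R = ∅
          · simp [hE]
          · rw [if_pos hE, mul_one]
            have := few F N p h2 R hE
            rw [Finset.card_filter] at this
            simpa [hE] using this
      _ = p * ∑ R ∈ Om d n, (if SL (S F) N R ≠ ∅ then 1 else 0) := by rw [Finset.mul_sum]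
  set P := ∑ R ∈ Om d n, (if SL (S F) N R ≠ ∅ then 1 else 0) with hP
  set Q := ∑ R ∈ Om d n, ∑ l ∈ univ \ N, (if BadL F N l R then 1 else 0) with hQ
  set s := ∑ R ∈ Om d n, (SL (S F) N R).card with hs
  set t := ∑ R ∈ Om d n, (SL (T F) N R).card with ht
  have hs' := sum_SL (S F) (fun B hB => S_proper F hF hB) N
  have ht' := sum_SL (T F) (fun B hB => T_proper F hF hB) N
  rw [← hs] at hs'
  rw [← ht] at ht'
  have h3 : (Odds n).card ^ d * (6 * 2 ^ N.card) ≤ (p + 3) * s + 6 * t := by
    have h4 : 2 * p * P = 2 * (p * P) := by ring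
    have h5 : (Odds n).card ^ d * (6 * 2 ^ N.card) = 6 * ((Odds n).card ^ d * 2 ^ N.card) := by
      ring
    rw [h4] at h1
    rw [h5]
    omega
  have hdim : (univ \ N).card + N.card = d := by
    have := Finset.card_sdiff_add_card_eq_card (Finset.subset_univ N)
    simpa using this
  have hpow : (2 : ℕ) ^ d = 2 ^ (univ \ N).card * 2 ^ N.card := by rw [← pow_add, hdim]
  have h5 : (Odds n).card ^ d * (6 * 2 ^ d) ≤
      (Odds n).card ^ d * ((p + 3) * (S F).card + 6 * (T F).card) := by
    calc (Odds n).card ^ d * (6 * 2 ^ d)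
        = 2 ^ (univ \ N).card * ((Odds n).card ^ d * (6 * 2 ^ N.card)) := by
          rw [hpow]; ring
      _ ≤ 2 ^ (univ \ N).card * ((p + 3) * s + 6 * t) := Nat.mul_le_mul_left _ h3
      _ = (p + 3) * (2 ^ (univ \ N).card * s) + 6 * (2 ^ (univ \ N).card * t) := by ring
      _ = _ := by rw [hs', ht']; ring
  exact Nat.le_of_mul_le_mul_left h5 (pow_pos (odds_pos hn) d)

/-- The main inequality in the language of sets. -/
theorem main_sets (hn : 0 < n) (F : Multiset (Fin d → Finset (Fin n)))
    (hF : IsDoubleCover n d F) (N : Finset (Fin d)) (p : ℕ) (hp : 3 ≤ p)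
    (h1 : ∀ i ∈ N, ∃ V : Finset (Fin n), Odd V.card ∧
      ∀ B, F.count B = 1 → Even (B i ∩ V).card)
    (h2 : ∀ B, F.count B = 1 → (univ.filter (fun i => i ∉ N ∧ ∃ V : Finset (Fin n),
      Odd V.card ∧ 3 ≤ V.card ∧ Even (B i ∩ V).card)).card ≤ p) :
    6 * 2 ^ d ≤ (p + 3) * (univ.filter (fun B => F.count B = 1)).card +
      6 * (univ.filter (fun B => F.count B = 2)).card := by
  have hV : ∀ i : Fin d, ∃ V : Finset (Fin n), i ∈ N → (Odd V.card ∧
      ∀ B, F.count B = 1 → Even (B i ∩ V).card) := by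
    intro i
    by_cases hi : i ∈ N
    · obtain ⟨V, hV⟩ := h1 i hi
      exact ⟨V, fun _ => hV⟩
    · exact ⟨∅, fun h => absurd h hi⟩
  choose V hV using hV
  refine main hn F hF (fun i => ind (V i)) N (fun i hi => ind_odds (hV i hi).1) ?_ p hp ?_
  · intro i hi B hB
    rw [pr_ind, Nat.not_odd_iff_even]
    rw [S, Finset.mem_filter] at hB
    exact (hV i hi).2 B hB.2
  · intro B hB
    rw [S, Finset.mem_filter] at hB
    have h3 := h2 B hB.2
    unfold Exp
    convert h3

/-- The case `n = 3`. -/
theorem main_three (F : Multiset (Fin d → Finset (Fin 3))) (hF : IsDoubleCover 3 d F)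
    (N : Finset (Fin d))
    (h1 : ∀ i ∈ N, (∀ B, F.count B = 1 → (B i).card = 2) ∨
      ∃ a, ∀ B, F.count B = 1 → a ∉ B i)
    (h2 : ∀ B, F.count B = 1 → (univ.filter (fun i => i ∉ N ∧ (B i).card = 2)).card ≤ 3) :
    2 ^ d ≤ F.toFinset.card := by
  have h3 := main_sets (n := 3) (by norm_num) F hF N 3 le_rfl ?_ ?_
  · rw [toFinset_card F hF, S, T]
    omega
  · intro i hi
    rcases h1 i hi with h | ⟨a, ha⟩
    · refine ⟨univ, by decide, fun B hB => ?_⟩
      rw [Finset.inter_univ, h B hB]; decide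
    · refine ⟨{a}, by simp, fun B hB => ?_⟩
      have : B i ∩ {a} = ∅ := by
        rw [Finset.inter_singleton_of_notMem (ha B hB)]
      rw [this]; simp
  · intro B hB
    refine le_trans (Finset.card_le_card ?_) (h2 B hB)
    intro i hi
    rw [Finset.mem_filter] at hi ⊢
    obtain ⟨h4, h5, V, hV1, hV2, hV3⟩ := hi
    refine ⟨h4, h5, ?_⟩
    have hVu : V = univ := by
      apply Finset.eq_univ_of_card
      have := Finset.card_le_univ V
      simp only [Fintype.card_fin] at this ⊢
      omega
    rw [hVu, Finset.inter_univ] at hV3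
    have hBF : B ∈ F := by rw [← Multiset.count_pos]; omega
    have hp := hF.proper B hBF i
    have h6 := Finset.card_pos.2 hp.1
    have h7 : (B i).card < 3 := by
      by_contra hcon
      apply hp.2
      apply Finset.eq_univ_of_card
      have := Finset.card_le_univ (B i)
      simp only [Fintype.card_fin] at this ⊢
      omega
    obtain ⟨k, hk⟩ := hV3
    omega

end Pool.Agent.MP7489fb.Mix
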