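import Pool.Agent.MP7489fb.Low2

set_option autoImplicit false

/-! Double covers of `[3]^d`: inequalities modulo four for a family of weights. -/

namespace Pool.Agent.MP7489fb.Three

open Finset
open Pool.Agent.MP7489fb.Low (W sum_W_double odd_prod_iff)

/-- Weight of a residue modulo four: 0, 1, 2, 1. -/
def vv (m : ℕ) : ℕ := if m % 4 = 0 then 0 else if m % 4 = 2 then 2 else 1

theorem vv_add (a b : ℕ) : vv (a + b) ≤ vv a + vv b := by
  unfold vv
  split_ifs <;> omega

theorem vv_le (a : ℕ) : vv a ≤ 2 := by
  unfold vv
  split_ifs <;> omega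

theorem vv_sum (M : Multiset ℕ) : vv M.sum ≤ (M.map vv).sum := by
  induction M using Multiset.induction_on with
  | empty => simp [vv]
  | cons a M ih =>
    rw [Multiset.sum_cons, Multiset.map_cons, Multiset.sum_cons]
    exact (vv_add _ _).trans (Nat.add_le_add_left ih _)

theorem vv_four {a : ℕ} (h : 4 ∣ a) : vv a = 0 := by
  unfold vv
  rw [if_pos (Nat.mod_eq_zero_of_dvd h)]

theorem vv_odd {a : ℕ} (h : Odd a) : vv a = 1 := by
  obtain ⟨k, hk⟩ := h
  unfold vv
  split_ifs <;> omega

variable {d : ℕ}

/-- The weights: `1, 1, 3` in the coordinates of `C` and `1, 0, 0` in the others. -/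
def wt (C : Finset (Fin d)) (r : Fin d → Fin 3) (i : Fin d) (x : Fin 3) : ℕ :=
  if i ∈ C then (if x = r i then 3 else 1) else (if x = r i then 1 else 0)

theorem sum_wt (C : Finset (Fin d)) (r : Fin d → Fin 3) (i : Fin d) :
    ∑ x, wt C r i x = if i ∈ C then 5 else 1 := by
  unfold wt
  by_cases h : i ∈ C
  · simp only [h, if_true]
    generalize r i = y
    revert y
    decide
  · simp only [h, if_false]
    generalize r i = y
    revert y
    decide

theorem low (F : Multiset (Fin d → Finset (Fin 3))) (hF : IsDoubleCover 3 d F)
    (C : Finset (Fin d)) (r : Fin d → Fin 3) :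
    2 ≤ (F.map (fun B => vv (W (wt C r) B))).sum := by
  have h := sum_W_double (wt C r) F hF
  have h1 : ∏ i, ∑ a, wt C r i a = 5 ^ C.card := by
    simp_rw [sum_wt]
    rw [Finset.prod_ite, Finset.prod_const, Finset.prod_const_one, mul_one,
      Finset.filter_mem_eq_inter, Finset.univ_inter]
  have h2 : vv (2 * 5 ^ C.card) = 2 := by
    have h3 : 5 ^ C.card % 4 = 1 := by
      rw [Nat.pow_mod]
      simp
    unfold vv
    split_ifs <;> omega
  have h4 := vv_sum (F.map (W (wt C r)))
  rw [h, h1, h2, Multiset.map_map] at h4
  exact h4

/-- The coordinates in which the box has a side with two elements. -/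
def pr (B : Fin d → Finset (Fin 3)) : Finset (Fin d) := univ.filter (fun i => (B i).card = 2)

theorem side_out (C : Finset (Fin d)) (r : Fin d → Fin 3) (B : Fin d → Finset (Fin 3)) (i : Fin d)
    (h : i ∉ C) : ∑ a ∈ B i, wt C r i a = if r i ∈ B i then 1 else 0 := by
  unfold wt
  simp only [h, if_false]
  rw [Finset.sum_ite_eq']

theorem side_in (C : Finset (Fin d)) (r : Fin d → Fin 3) (B : Fin d → Finset (Fin 3)) (i : Fin d)
    (h : i ∈ C) : ∑ a ∈ B i, wt C r i a = (B i).card + if r i ∈ B i then 2 else 0 := by
  unfold wt
  simp only [h, if_true]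
  have h1 : ∀ a ∈ B i, (if a = r i then 3 else 1) = 1 + (if a = r i then 2 else 0) := by
    intro a _
    split_ifs <;> rfl
  rw [Finset.sum_congr rfl h1, Finset.sum_add_distrib, Finset.sum_ite_eq', Finset.card_eq_sum_ones]

theorem card_side (B : Fin d → Finset (Fin 3)) (hB : IsProperBox B) (i : Fin d) :
    (B i).card = 1 ∨ (B i).card = 2 := by
  have h1 : 0 < (B i).card := Finset.card_pos.mpr (hB i).1
  have h2 : (B i).card < 3 := by
    have := Finset.card_lt_univ_of_notMem (s := B i) (x := (Classical.choose
      (Finset.exists_mem_notMem_of_card_lt_card (s := B i) (t := univ) (by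
        have h3 := Finset.card_lt_card (Finset.ssubset_univ_iff.mpr (hB i).2)
        exact h3)))) (Classical.choose_spec
      (Finset.exists_mem_notMem_of_card_lt_card (s := B i) (t := univ) (by
        have h3 := Finset.card_lt_card (Finset.ssubset_univ_iff.mpr (hB i).2)
        exact h3))).2
    simpa using this
  omega

/-- Zero-one factors which bound the weight of a box. -/
def gg (C : Finset (Fin d)) (B : Fin d → Finset (Fin 3)) (i : Fin d) (x : Fin 3) : ℕ :=
  if i ∈ C then (if i ∈ pr B then (if x ∈ B i then 0 else 1) else 1)
  else (if x ∈ B i then 1 else 0)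

/-- The factor which depends on the number of common elements. -/
def uu (k : ℕ) : ℕ := if k = 0 then 1 else if k = 1 then 2 else 0

theorem gg_le (C : Finset (Fin d)) (B : Fin d → Finset (Fin 3)) (i : Fin d) (x : Fin 3) :
    gg C B i x = 0 ∨ gg C B i x = 1 := by
  unfold gg
  split_ifs <;> simp

theorem vv_W_le (C : Finset (Fin d)) (r : Fin d → Fin 3) (B : Fin d → Finset (Fin 3))
    (hB : IsProperBox B) :
    vv (W (wt C r) B) ≤ uu (C ∩ pr B).card * ∏ i, gg C B i (r i) := by
  by_cases h2 : 2 ≤ (C ∩ pr B).card
  · obtain ⟨i, hi, j, hj, hij⟩ := Finset.one_lt_card.mp h2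
    rw [Finset.mem_inter] at hi hj
    have key : ∀ i ∈ C, i ∈ pr B → 2 ∣ ∑ a ∈ B i, wt C r i a := by
      intro i hi hi'
      rw [side_in C r B i hi]
      have : (B i).card = 2 := (Finset.mem_filter.mp hi').2
      rw [this]
      split_ifs <;> decide
    have h4 : 4 ∣ W (wt C r) B := by
      unfold W
      rw [← Finset.mul_prod_erase univ _ (Finset.mem_univ i),
        ← Finset.mul_prod_erase (univ.erase i) _ (Finset.mem_erase.mpr ⟨hij.symm, Finset.mem_univ j⟩),
        ← mul_assoc]
      exact Dvd.dvd.mul_right (mul_dvd_mul (key i hi.1 hi.2) (key j hj.1 hj.2)) _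
    rw [vv_four h4]
    exact Nat.zero_le _
  · by_cases hz : ∃ i, gg C B i (r i) = 0
    · obtain ⟨i, hi⟩ := hz
      have h4 : 4 ∣ ∑ a ∈ B i, wt C r i a := by
        unfold gg at hi
        by_cases hC : i ∈ C
        · rw [if_pos hC] at hi
          by_cases hP : i ∈ pr B
          · rw [if_pos hP] at hi
            by_cases hr : r i ∈ B i
            · rw [side_in C r B i hC, if_pos hr, (Finset.mem_filter.mp hP).2]
            · rw [if_neg hr] at hi
              exact absurd hi one_ne_zero
          · rw [if_neg hP] at hi
            exact absurd hi one_ne_zero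
        · rw [if_neg hC] at hi
          by_cases hr : r i ∈ B i
          · rw [if_pos hr] at hi
            exact absurd hi one_ne_zero
          · rw [side_out C r B i hC, if_neg hr]
            exact dvd_zero _
      have h5 : 4 ∣ W (wt C r) B := by
        unfold W
        exact h4.trans (Finset.dvd_prod_of_mem _ (Finset.mem_univ i))
      rw [vv_four h5]
      exact Nat.zero_le _
    · have h1 : ∏ i, gg C B i (r i) = 1 := by
        apply Finset.prod_eq_one
        intro i _
        rcases gg_le C B i (r i) with h | h
        · exact absurd ⟨i, h⟩ hz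
        · exact h
      rw [h1, mul_one]
      have h6 : (C ∩ pr B).card = 0 ∨ (C ∩ pr B).card = 1 := by omega
      rcases h6 with h6 | h6
      · rw [h6]
        have h7 : Odd (W (wt C r) B) := by
          unfold W
          rw [odd_prod_iff]
          intro i
          by_cases hC : i ∈ C
          · have hP : i ∉ pr B := by
              intro hP
              have : i ∈ C ∩ pr B := Finset.mem_inter.mpr ⟨hC, hP⟩
              rw [Finset.card_eq_zero.mp h6] at this
              exact absurd this (Finset.notMem_empty i)
            have h8 : (B i).card = 1 := by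
              rcases card_side B hB i with h | h
              · exact h
              · exact absurd (Finset.mem_filter.mpr ⟨Finset.mem_univ i, h⟩) hP
            rw [side_in C r B i hC, h8]
            split_ifs <;> decide
          · have h9 : r i ∈ B i := by
              by_contra hr
              apply hz
              refine ⟨i, ?_⟩
              unfold gg
              rw [if_neg hC, if_neg hr]
            rw [side_out C r B i hC, if_pos h9]
            decide
        rw [vv_odd h7]
        decide
      · rw [h6]
        exact vv_le _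

theorem sum_gg (C : Finset (Fin d)) (B : Fin d → Finset (Fin 3)) (hB : IsProperBox B) :
    ∑ r : Fin d → Fin 3, ∏ i, gg C B i (r i) = 3 ^ (C \ pr B).card * 2 ^ (pr B \ C).card := by
  have h0 : (Fintype.piFinset fun _ : Fin d => (Finset.univ : Finset (Fin 3))) = Finset.univ := by
    ext x
    simp
  have h1 := Finset.prod_univ_sum (fun _ : Fin d => (Finset.univ : Finset (Fin 3)))
    (fun i x => gg C B i x)
  rw [h0] at h1
  rw [← h1]
  have h2 : ∀ i : Fin d, ∑ x, gg C B i x =
      (if i ∈ C \ pr B then 3 else 1) * (if i ∈ pr B \ C then 2 else 1) := by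
    intro i
    unfold gg
    by_cases hC : i ∈ C
    · by_cases hP : i ∈ pr B
      · have h3 : (B i).card = 2 := (Finset.mem_filter.mp hP).2
        simp only [hC, hP, if_true, Finset.mem_sdiff, not_true, and_false, if_false, mul_one]
        rw [← Finset.sum_filter_add_sum_filter_not univ (fun x => x ∈ B i)]
        rw [Finset.sum_congr rfl (g := fun _ => 0) (by
          intro x hx
          rw [if_pos (Finset.mem_filter.mp hx).2]), Finset.sum_const_zero, zero_add,
          Finset.sum_congr rfl (g := fun _ => 1) (by
          intro x hx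
          rw [if_neg (Finset.mem_filter.mp hx).2]), ← Finset.card_eq_sum_ones]
        have h4 : (univ.filter (fun x => ¬ x ∈ B i)) = (B i)ᶜ := by
          ext x
          simp
        rw [h4, Finset.card_compl, h3, Fintype.card_fin]
      · simp only [hC, hP, if_true, if_false, Finset.mem_sdiff, not_false_iff, and_self,
          not_true, mul_one, Finset.sum_const, Finset.card_univ, Fintype.card_fin,
          smul_eq_mul]
    · have h5 : ∑ x, (if x ∈ B i then 1 else 0) = (B i).card := by
        rw [← Finset.sum_filter, ← Finset.card_eq_sum_ones, Finset.filter_mem_eq_inter,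
        Finset.univ_inter]
      simp only [hC, if_false, Finset.mem_sdiff, false_and, not_false_iff, and_true, one_mul]
      rw [h5]
      by_cases hP : i ∈ pr B
      · rw [if_pos hP]
        exact (Finset.mem_filter.mp hP).2
      · rw [if_neg hP]
        rcases card_side B hB i with h | h
        · exact h
        · exact absurd (Finset.mem_filter.mpr ⟨Finset.mem_univ i, h⟩) hP
  rw [Finset.prod_congr rfl (fun i _ => h2 i), Finset.prod_mul_distrib]
  congr 1
  · rw [Finset.prod_ite, Finset.prod_const, Finset.prod_const_one, mul_one,
      Finset.filter_mem_eq_inter, Finset.univ_inter]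
  · rw [Finset.prod_ite, Finset.prod_const, Finset.prod_const_one, mul_one,
      Finset.filter_mem_eq_inter, Finset.univ_inter]

end Pool.Agent.MP7489fb.Three
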