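import Pool.Agent.MP7489fb.Three1
import Pool.Agent.MP7489fb.Low4

set_option autoImplicit false

/-! Double covers of `[3]^d`: the family of inequalities. -/

namespace Pool.Agent.MP7489fb.Three

open Finset
open Pool.Agent.MP7489fb.Low (W)

variable {d : ℕ}

theorem count0 (P : Finset (Fin d)) (c : ℕ) :
    ((powersetCard c (univ : Finset (Fin d))).filter (fun C => (C ∩ P).card = 0)).card =
      (d - P.card).choose c := by
  have h1 : (powersetCard c (univ : Finset (Fin d))).filter (fun C => (C ∩ P).card = 0) =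
      powersetCard c Pᶜ := by
    ext C
    rw [Finset.mem_filter, Finset.mem_powersetCard, Finset.mem_powersetCard, Finset.card_eq_zero,
      ← Finset.disjoint_iff_inter_eq_empty, Finset.subset_compl_iff_disjoint_right]
    constructor
    · rintro ⟨⟨_, h2⟩, h3⟩
      exact ⟨h3, h2⟩
    · rintro ⟨h3, h2⟩
      exact ⟨⟨Finset.subset_univ _, h2⟩, h3⟩
  rw [h1, Finset.card_powersetCard, Finset.card_compl, Fintype.card_fin]

theorem count1 (P : Finset (Fin d)) (c : ℕ) :
    ((powersetCard (c + 1) (univ : Finset (Fin d))).filter (fun C => (C ∩ P).card = 1)).card =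
      P.card * (d - P.card).choose c := by
  have h0 : (d - P.card).choose c = (powersetCard c Pᶜ).card := by
    rw [Finset.card_powersetCard, Finset.card_compl, Fintype.card_fin]
  rw [h0, ← Finset.card_product]
  symm
  have hint : ∀ x ∈ P ×ˢ powersetCard c Pᶜ, insert x.1 x.2 ∩ P = {x.1} := by
    intro x hx
    rw [Finset.mem_product, Finset.mem_powersetCard] at hx
    have h1 : x.2 ∩ P = ∅ := by
      rw [← Finset.disjoint_iff_inter_eq_empty, ← Finset.subset_compl_iff_disjoint_right]
      exact hx.2.1
    rw [Finset.insert_inter_of_mem hx.1, h1]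
    rfl
  have hnot : ∀ x ∈ P ×ˢ powersetCard c Pᶜ, x.1 ∉ x.2 := by
    intro x hx h
    rw [Finset.mem_product, Finset.mem_powersetCard] at hx
    have := hx.2.1 h
    rw [Finset.mem_compl] at this
    exact this hx.1
  apply Finset.card_bij (fun (x : Fin d × Finset (Fin d)) _ => insert x.1 x.2)
  · intro x hx
    rw [Finset.mem_filter, Finset.mem_powersetCard, hint x hx, Finset.card_singleton]
    refine ⟨⟨Finset.subset_univ _, ?_⟩, rfl⟩
    rw [Finset.card_insert_of_notMem (hnot x hx)]
    rw [Finset.mem_product, Finset.mem_powersetCard] at hx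
    rw [hx.2.2]
  · intro x hx y hy hxy
    have h1 := hint x hx
    have h2 := hint y hy
    have hxy' : insert x.1 x.2 = insert y.1 y.2 := hxy
    rw [hxy', h2] at h1
    have h3 : y.1 = x.1 := Finset.singleton_injective h1
    have h4 : x.2 = (insert x.1 x.2).erase x.1 := (Finset.erase_insert (hnot x hx)).symm
    have h5 : y.2 = (insert y.1 y.2).erase y.1 := (Finset.erase_insert (hnot y hy)).symm
    refine Prod.ext h3.symm ?_
    rw [h4, h5, hxy', h3]
  · intro C hC
    rw [Finset.mem_filter, Finset.mem_powersetCard] at hC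
    obtain ⟨⟨_, h2⟩, h3⟩ := hC
    obtain ⟨i, hi⟩ := Finset.card_eq_one.mp h3
    have hiC : i ∈ C ∩ P := by
      rw [hi]
      exact Finset.mem_singleton_self i
    rw [Finset.mem_inter] at hiC
    refine ⟨(i, C.erase i), ?_, Finset.insert_erase hiC.1⟩
    rw [Finset.mem_product, Finset.mem_powersetCard]
    refine ⟨hiC.2, ?_, ?_⟩
    · intro j hj
      rw [Finset.mem_erase] at hj
      rw [Finset.mem_compl]
      intro hP
      have : j ∈ C ∩ P := Finset.mem_inter.mpr ⟨hj.2, hP⟩
      rw [hi, Finset.mem_singleton] at this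
      exact hj.1 this
    · rw [Finset.card_erase_of_mem hiC.1, h2]
      rfl

/-- The contribution of a box with `a` sides with two elements. -/
def co (d c a : ℕ) : ℕ := 2 ^ a * 3 ^ c * (3 * (d - a).choose (c + 1) + a * (d - a).choose c)

theorem box_sum (B : Fin d → Finset (Fin 3)) (hB : IsProperBox B) (c : ℕ) :
    ∑ C ∈ powersetCard (c + 1) (univ : Finset (Fin d)), ∑ r : Fin d → Fin 3, vv (W (wt C r) B) ≤
      co d c (pr B).card := by
  have h1 : ∀ C ∈ powersetCard (c + 1) (univ : Finset (Fin d)),
      ∑ r : Fin d → Fin 3, vv (W (wt C r) B) ≤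
        (if (C ∩ pr B).card = 0 then 3 ^ (c + 1) * 2 ^ (pr B).card else 0) +
        (if (C ∩ pr B).card = 1 then 3 ^ c * 2 ^ (pr B).card else 0) := by
    intro C hC
    have hc : C.card = c + 1 := (Finset.mem_powersetCard.mp hC).2
    have h2 : ∑ r : Fin d → Fin 3, vv (W (wt C r) B) ≤
        uu (C ∩ pr B).card * (3 ^ (C \ pr B).card * 2 ^ (pr B \ C).card) := by
      rw [← sum_gg C B hB, Finset.mul_sum]
      exact Finset.sum_le_sum fun r _ => vv_W_le C r B hB
    refine h2.trans ?_
    have h3 : (C \ pr B).card + (C ∩ pr B).card = c + 1 := by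
      rw [Finset.card_sdiff_add_card_inter, hc]
    have h4 : (pr B \ C).card + (C ∩ pr B).card = (pr B).card := by
      rw [Finset.inter_comm, Finset.card_sdiff_add_card_inter]
    unfold uu
    by_cases h5 : (C ∩ pr B).card = 0
    · rw [h5] at h3 h4
      rw [h5]
      simp only [if_true, one_mul]
      rw [show (C \ pr B).card = c + 1 by omega, show (pr B \ C).card = (pr B).card by omega]
      exact Nat.le_add_right _ _
    · by_cases h6 : (C ∩ pr B).card = 1
      · rw [h6] at h3 h4
        rw [h6]
        simp only [if_true, one_ne_zero, if_false, zero_add]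
        rw [show (C \ pr B).card = c by omega, ← h4, pow_succ]
        apply le_of_eq
        ring
      · rw [if_neg h5, if_neg h6, if_neg h5, if_neg h6]
        simp
  refine (Finset.sum_le_sum h1).trans ?_
  rw [Finset.sum_add_distrib, ← Finset.sum_filter, ← Finset.sum_filter, Finset.sum_const,
    Finset.sum_const, count0, count1, smul_eq_mul, smul_eq_mul]
  unfold co
  apply le_of_eq
  ring

theorem sum_swap {ι κ : Type} (s : Finset ι) (F : Multiset κ) (f : ι → κ → ℕ) :
    ∑ i ∈ s, (F.map (f i)).sum = (F.map (fun B => ∑ i ∈ s, f i B)).sum := by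
  induction F using Multiset.induction_on with
  | empty => simp
  | cons B F ih =>
    simp only [Multiset.map_cons, Multiset.sum_cons]
    rw [Finset.sum_add_distrib, ih]

/-- The family of inequalities for double covers of `[3]^d`. -/
theorem family (F : Multiset (Fin d → Finset (Fin 3))) (hF : IsDoubleCover 3 d F) (c : ℕ) :
    2 * 3 ^ d * d.choose (c + 1) ≤ (F.map (fun B => co d c (pr B).card)).sum := by
  have h1 : ∑ C ∈ powersetCard (c + 1) (univ : Finset (Fin d)), ∑ r : Fin d → Fin 3, 2 ≤
      ∑ C ∈ powersetCard (c + 1) (univ : Finset (Fin d)), ∑ r : Fin d → Fin 3,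
        (F.map (fun B => vv (W (wt C r) B))).sum :=
    Finset.sum_le_sum fun C _ => Finset.sum_le_sum fun r _ => low F hF C r
  have h2 : ∑ C ∈ powersetCard (c + 1) (univ : Finset (Fin d)), ∑ r : Fin d → Fin 3, 2 =
      2 * 3 ^ d * d.choose (c + 1) := by
    simp only [Finset.sum_const, Finset.card_univ, Fintype.card_fun, Fintype.card_fin, smul_eq_mul,
      Finset.card_powersetCard]
    ring
  rw [h2] at h1
  refine h1.trans ?_
  simp only [sum_swap]
  apply Multiset.sum_map_le_sum_map
  intro B hB
  exact box_sum B (hF.proper B hB) c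

/-- The volume identity. -/
theorem volume (F : Multiset (Fin d → Finset (Fin 3))) (hF : IsDoubleCover 3 d F) :
    (F.map (fun B => 2 ^ (pr B).card)).sum = 2 * 3 ^ d := by
  have h := Low.sum_W_double (fun (_ : Fin d) (_ : Fin 3) => 1) F hF
  have h1 : ∏ _i : Fin d, ∑ _a : Fin 3, 1 = 3 ^ d := by simp
  rw [h1] at h
  rw [← h]
  apply congrArg
  apply Multiset.map_congr rfl
  intro B hB
  unfold Low.W
  have h2 : ∀ i : Fin d, ∑ _a ∈ B i, 1 = if i ∈ pr B then 2 else 1 := by
    intro i
    rw [← Finset.card_eq_sum_ones]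
    by_cases hP : i ∈ pr B
    · rw [if_pos hP]
      exact (Finset.mem_filter.mp hP).2
    · rw [if_neg hP]
      rcases card_side B (hF.proper B hB) i with h | h
      · exact h
      · exact absurd (Finset.mem_filter.mpr ⟨Finset.mem_univ i, h⟩) hP
  rw [Finset.prod_congr rfl (fun i _ => h2 i), Finset.prod_ite, Finset.prod_const,
    Finset.prod_const_one, mul_one, Finset.filter_mem_eq_inter, Finset.univ_inter]

theorem pr_le (B : Fin d → Finset (Fin 3)) : (pr B).card ≤ d := by
  have := Finset.card_le_univ (pr B)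
  rwa [Fintype.card_fin] at this

/-- A weighted sum of the inequalities. -/
theorem combine (F : Multiset (Fin d → Finset (Fin 3))) (hF : IsDoubleCover 3 d F)
    (K l0 : ℕ) (l : ℕ → ℕ)
    (hK : ∀ a ≤ d, l0 * 2 ^ a + ∑ c ∈ range d, l c * co d c a ≤ K) :
    l0 * (2 * 3 ^ d) + ∑ c ∈ range d, l c * (2 * 3 ^ d * d.choose (c + 1)) ≤ K * F.card := by
  have h1 : l0 * (2 * 3 ^ d) + ∑ c ∈ range d, l c * (2 * 3 ^ d * d.choose (c + 1)) ≤
      l0 * (F.map (fun B => 2 ^ (pr B).card)).sum +
        ∑ c ∈ range d, l c * (F.map (fun B => co d c (pr B).card)).sum := by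
    rw [volume F hF]
    exact Nat.add_le_add_left (Finset.sum_le_sum fun c _ =>
      Nat.mul_le_mul_left _ (family F hF c)) _
  refine h1.trans ?_
  have h2 : l0 * (F.map (fun B => 2 ^ (pr B).card)).sum +
        ∑ c ∈ range d, l c * (F.map (fun B => co d c (pr B).card)).sum =
      (F.map (fun B => l0 * 2 ^ (pr B).card + ∑ c ∈ range d, l c * co d c (pr B).card)).sum := by
    rw [Multiset.sum_map_add, Multiset.sum_map_mul_left]
    congr 1
    rw [← sum_swap]
    apply Finset.sum_congr rfl
    intro c _
    rw [Multiset.sum_map_mul_left]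
  rw [h2]
  calc (F.map (fun B => l0 * 2 ^ (pr B).card + ∑ c ∈ range d, l c * co d c (pr B).card)).sum
      ≤ (F.map (fun _ => K)).sum := by
        apply Multiset.sum_map_le_sum_map
        intro B _
        exact hK _ (pr_le B)
    _ = K * F.card := by
        rw [Multiset.map_const', Multiset.sum_replicate, smul_eq_mul, mul_comm]

end Pool.Agent.MP7489fb.Three
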