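import Pool.Agent.MP7489fb.Three2

set_option autoImplicit false

/-! Double covers of `[3]^d`: small values of `d`. -/

namespace Pool.Agent.MP7489fb.Three

open Finset

/-- Six boxes. -/
def F2 : Multiset (Fin 2 → Finset (Fin 3)) :=
  ↑[(![{0}, {0, 1}] : Fin 2 → Finset (Fin 3)), ![{0}, {1, 2}], ![{0}, {0, 2}], ![{1, 2}, {0, 1}],
    ![{1, 2}, {1, 2}], ![{1, 2}, {0, 2}]]

/-- Eleven boxes. -/
def F3 : Multiset (Fin 3 → Finset (Fin 3)) :=
  ↑[(![{0, 1}, {0}, {0, 1}] : Fin 3 → Finset (Fin 3)), ![{0, 1}, {0}, {0, 2}],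
    ![{2}, {0, 1}, {0}], ![{2}, {0, 2}, {0}], ![{0, 2}, {0, 1}, {1, 2}],
    ![{1, 2}, {0, 2}, {1, 2}], ![{0, 1}, {1, 2}, {0, 1}], ![{0, 2}, {2}, {1, 2}],
    ![{1, 2}, {1}, {1, 2}], ![{2}, {1, 2}, {0}], ![{0, 1}, {1, 2}, {0, 2}]]

theorem F2_cover : IsDoubleCover 3 2 F2 where
  proper := by
    intro B hB
    simp only [F2, Multiset.mem_coe, List.mem_cons, List.not_mem_nil, or_false] at hB
    rcases hB with rfl | rfl | rfl | rfl | rfl | rfl <;> (intro i; fin_cases i <;> decide)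
  twice := by
    have h : ∀ a b : Fin 3, cov F2 ![a, b] = 2 := by decide
    intro x
    have hx : x = ![x 0, x 1] := by
      funext i
      fin_cases i <;> rfl
    rw [hx]
    exact h _ _

theorem F3_cover : IsDoubleCover 3 3 F3 where
  proper := by
    intro B hB
    simp only [F3, Multiset.mem_coe, List.mem_cons, List.not_mem_nil, or_false] at hB
    rcases hB with rfl | rfl | rfl | rfl | rfl | rfl | rfl | rfl | rfl | rfl | rfl <;>
      (intro i; fin_cases i <;> decide)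
  twice := by
    have h : ∀ a b c : Fin 3, cov F3 ![a, b, c] = 2 := by decide
    intro x
    have hx : x = ![x 0, x 1, x 2] := by
      funext i
      fin_cases i <;> rfl
    rw [hx]
    exact h _ _ _

theorem low2 (F : Multiset (Fin 2 → Finset (Fin 3))) (hF : IsDoubleCover 3 2 F) :
    6 ≤ F.card := by
  have h := combine F hF 12 3 (fun c => [0, 1].getD c 0) (by decide)
  have h1 : 3 * (2 * 3 ^ 2) + ∑ c ∈ range 2, [0, 1].getD c 0 * (2 * 3 ^ 2 * Nat.choose 2 (c + 1)) =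
    72 := by decide
  rw [h1] at h
  omega

theorem low3 (F : Multiset (Fin 3 → Finset (Fin 3))) (hF : IsDoubleCover 3 3 F) :
    11 ≤ F.card := by
  have h := combine F hF 144 18 (fun c => [0, 3, 1].getD c 0) (by decide)
  have h1 : 18 * (2 * 3 ^ 3) + ∑ c ∈ range 3,
    [0, 3, 1].getD c 0 * (2 * 3 ^ 3 * Nat.choose 3 (c + 1)) = 1512 := by decide
  rw [h1] at h
  omega

theorem low4 (F : Multiset (Fin 4 → Finset (Fin 3))) (hF : IsDoubleCover 3 4 F) :
    19 ≤ F.card := by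
  have h := combine F hF 432 27 (fun c => [0, 3, 1, 1].getD c 0) (by decide)
  have h1 : 27 * (2 * 3 ^ 4) + ∑ c ∈ range 4,
    [0, 3, 1, 1].getD c 0 * (2 * 3 ^ 4 * Nat.choose 4 (c + 1)) = 8100 := by decide
  rw [h1] at h
  omega

theorem low5 (F : Multiset (Fin 5 → Finset (Fin 3))) (hF : IsDoubleCover 3 5 F) :
    34 ≤ F.card := by
  have h := combine F hF 3456 108 (fun c => [0, 9, 3, 2, 2].getD c 0) (by decide)
  have h1 : 108 * (2 * 3 ^ 5) + ∑ c ∈ range 5,
    [0, 9, 3, 2, 2].getD c 0 * (2 * 3 ^ 5 * Nat.choose 5 (c + 1)) = 116640 := by decide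
  rw [h1] at h
  omega

theorem low6 (F : Multiset (Fin 6 → Finset (Fin 3))) (hF : IsDoubleCover 3 6 F) :
    62 ≤ F.card := by
  have h := combine F hF 233280 3645 (fun c => [0, 243, 81, 45, 30, 35].getD c 0) (by decide)
  have h1 : 3645 * (2 * 3 ^ 6) + ∑ c ∈ range 6,
    [0, 243, 81, 45, 30, 35].getD c 0 * (2 * 3 ^ 6 * Nat.choose 6 (c + 1)) = 14288400 := by decide
  rw [h1] at h
  omega

theorem g2 : g 3 2 = 6 := by
  apply le_antisymm
  · exact Nat.sInf_le ⟨F2, F2_cover, rfl⟩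
  · obtain ⟨F, hF, hc⟩ := Low.g_spec (n := 3) (d := 2) (by norm_num)
    rw [← hc]
    exact low2 F hF

theorem g3 : g 3 3 = 11 := by
  apply le_antisymm
  · exact Nat.sInf_le ⟨F3, F3_cover, rfl⟩
  · obtain ⟨F, hF, hc⟩ := Low.g_spec (n := 3) (d := 3) (by norm_num)
    rw [← hc]
    exact low3 F hF

theorem g4 : 19 ≤ g 3 4 := by
  obtain ⟨F, hF, hc⟩ := Low.g_spec (n := 3) (d := 4) (by norm_num)
  rw [← hc]
  exact low4 F hF

theorem g5 : 34 ≤ g 3 5 := by
  obtain ⟨F, hF, hc⟩ := Low.g_spec (n := 3) (d := 5) (by norm_num)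
  rw [← hc]
  exact low5 F hF

theorem g6 : 62 ≤ g 3 6 := by
  obtain ⟨F, hF, hc⟩ := Low.g_spec (n := 3) (d := 6) (by norm_num)
  rw [← hc]
  exact low6 F hF

end Pool.Agent.MP7489fb.Three
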