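import Pool.Agent.MP7489fb.Three3

set_option autoImplicit false

/-! Double covers of `[3]^d`: a lower bound for all `d`. -/

namespace Pool.Agent.MP7489fb.Three

open Finset

theorem s0 {s m : ℕ} (h : s < m) : ∑ c ∈ range m, s.choose c = 2 ^ s := by
  rw [← Nat.sum_range_choose s]
  symm
  apply Finset.sum_subset
  · intro x hx
    rw [Finset.mem_range] at hx ⊢
    omega
  · intro x _ hx
    rw [Finset.mem_range] at hx
    exact Nat.choose_eq_zero_of_lt (by omega)

theorem s1 {s d : ℕ} (h : s ≤ d) : ∑ c ∈ range d, s.choose (c + 1) + 1 = 2 ^ s := by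
  have h1 := s0 (s := s) (m := d + 1) (by omega)
  rw [Finset.sum_range_succ', Nat.choose_zero_right] at h1
  exact h1

theorem s2 {s a d : ℕ} (h : s + a = d) : a * ∑ c ∈ range d, s.choose c = a * 2 ^ s := by
  rcases Nat.eq_zero_or_pos a with rfl | ha
  · simp
  · rw [s0 (by omega)]

theorem s3 {s d : ℕ} (h : s ≤ d) :
    2 * ∑ c ∈ range d, (c + 1) * s.choose (c + 1) = s * 2 ^ s := by
  rcases s with _ | s
  · simp
  · have h1 : ∀ c ∈ range d, (c + 1) * (s + 1).choose (c + 1) = (s + 1) * s.choose c := by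
      intro c _
      rw [Nat.add_one_mul_choose_eq, mul_comm]
    rw [Finset.sum_congr rfl h1, ← Finset.mul_sum, s0 (by omega), pow_succ]
    ring

theorem s3' {s m : ℕ} (h : s < m) : 2 * ∑ c ∈ range m, c * s.choose c = s * 2 ^ s := by
  obtain ⟨d, rfl⟩ : ∃ d, m = d + 1 := ⟨m - 1, by omega⟩
  rw [Finset.sum_range_succ', zero_mul, add_zero]
  exact s3 (by omega)

theorem s4 {s a d : ℕ} (h : s + a = d) :
    a * (2 * ∑ c ∈ range d, (c + 1) * s.choose c) = a * ((s + 2) * 2 ^ s) := by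
  rcases Nat.eq_zero_or_pos a with rfl | ha
  · simp
  · congr 1
    have h1 : ∀ c ∈ range d, (c + 1) * s.choose c = c * s.choose c + s.choose c := by
      intro c _
      ring
    rw [Finset.sum_congr rfl h1, Finset.sum_add_distrib, mul_add, s3' (by omega), s0 (by omega)]
    ring

theorem s5 (d : ℕ) : ∑ c ∈ range d, 3 ^ (d - (c + 1)) * d.choose (c + 1) + 3 ^ d = 4 ^ d := by
  have h1 := add_pow 1 3 d
  rw [Finset.sum_range_succ'] at h1
  simp only [one_pow, one_mul, Nat.sub_zero, Nat.choose_zero_right, Nat.cast_id, mul_one] at h1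
  rw [← h1]

theorem s5' (d : ℕ) : ∑ c ∈ range (d + 1), 3 ^ (d - c) * d.choose c = 4 ^ d := by
  have h1 := add_pow 1 3 d
  simp only [one_pow, one_mul, Nat.cast_id] at h1
  rw [← h1]

theorem s6 (d : ℕ) :
    4 * ∑ c ∈ range d, (c + 1) * (3 ^ (d - (c + 1)) * d.choose (c + 1)) = d * 4 ^ d := by
  rcases d with _ | d
  · simp
  · have h1 : ∀ c ∈ range (d + 1), (c + 1) * (3 ^ (d + 1 - (c + 1)) * (d + 1).choose (c + 1)) =
        (d + 1) * (3 ^ (d - c) * d.choose c) := by
      intro c _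
      have h2 : (d + 1) * d.choose c = (d + 1).choose (c + 1) * (c + 1) :=
        Nat.add_one_mul_choose_eq d c
      have h3 : d + 1 - (c + 1) = d - c := by omega
      rw [h3]
      calc (c + 1) * (3 ^ (d - c) * (d + 1).choose (c + 1)) =
          3 ^ (d - c) * ((d + 1).choose (c + 1) * (c + 1)) := by ring
        _ = _ := by rw [← h2]; ring
    rw [Finset.sum_congr rfl h1, ← Finset.mul_sum, s5', pow_succ]
    ring

theorem co_mul {d c a : ℕ} (hc : c < d) : 3 ^ (d - (c + 1)) * co d c a * 3 =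
    3 ^ d * (2 ^ a * (3 * (d - a).choose (c + 1) + a * (d - a).choose c)) := by
  unfold co
  have h : 3 ^ d = 3 ^ (d - (c + 1)) * 3 ^ c * 3 := by
    rw [← pow_add, ← pow_succ]
    congr 1
    omega
  rw [h]
  ring

theorem first (d : ℕ) (F : Multiset (Fin d → Finset (Fin 3))) (hF : IsDoubleCover 3 d F) :
    6 * 2 ^ d ≤ (F.map (fun B => (pr B).card + 3)).sum := by
  have h1 : 3 ^ d * (2 * 3 ^ d) +
      ∑ c ∈ range d, 3 ^ (d - (c + 1)) * (2 * 3 ^ d * d.choose (c + 1)) ≤
      3 ^ d * (F.map (fun B => 2 ^ (pr B).card)).sum +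
        ∑ c ∈ range d, 3 ^ (d - (c + 1)) * (F.map (fun B => co d c (pr B).card)).sum := by
    rw [volume F hF]
    exact Nat.add_le_add_left (Finset.sum_le_sum fun c _ =>
      Nat.mul_le_mul_left _ (family F hF c)) _
  have h2 : 3 ^ d * (2 * 3 ^ d) +
      ∑ c ∈ range d, 3 ^ (d - (c + 1)) * (2 * 3 ^ d * d.choose (c + 1)) = 2 * 3 ^ d * 4 ^ d := by
    rw [← s5 d, mul_add, Finset.mul_sum, add_comm]
    congr 1
    · apply Finset.sum_congr rfl
      intro c _
      ring
    · ring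
  have h3 : 3 ^ d * (F.map (fun B => 2 ^ (pr B).card)).sum +
        ∑ c ∈ range d, 3 ^ (d - (c + 1)) * (F.map (fun B => co d c (pr B).card)).sum =
      (F.map (fun B => 3 ^ d * 2 ^ (pr B).card +
        ∑ c ∈ range d, 3 ^ (d - (c + 1)) * co d c (pr B).card)).sum := by
    rw [Multiset.sum_map_add, Multiset.sum_map_mul_left]
    congr 1
    rw [← sum_swap]
    apply Finset.sum_congr rfl
    intro c _
    rw [Multiset.sum_map_mul_left]
  have h4 : ∀ B : Fin d → Finset (Fin 3), 3 * (3 ^ d * 2 ^ (pr B).card +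
        ∑ c ∈ range d, 3 ^ (d - (c + 1)) * co d c (pr B).card) =
      3 ^ d * 2 ^ d * ((pr B).card + 3) := by
    intro B
    have ha := pr_le B
    generalize (pr B).card = a at ha
    obtain ⟨s, hs⟩ : ∃ s, s + a = d := ⟨d - a, by omega⟩
    have hs' : d - a = s := by omega
    rw [mul_add, Finset.mul_sum]
    have h5 : ∀ c ∈ range d, 3 * (3 ^ (d - (c + 1)) * co d c a) =
        3 ^ d * 2 ^ a * (3 * s.choose (c + 1) + a * s.choose c) := by
      intro c hc
      rw [mul_comm 3, co_mul (Finset.mem_range.mp hc), hs']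
      ring
    rw [Finset.sum_congr rfl h5, ← Finset.mul_sum, Finset.sum_add_distrib, ← Finset.mul_sum,
      ← Finset.mul_sum, s2 hs]
    have h6 := s1 (s := s) (d := d) (by omega)
    have h7 : 2 ^ d = 2 ^ s * 2 ^ a := by rw [← pow_add, hs]
    rw [h7, ← h6]
    ring
  have h8 := Nat.mul_le_mul_left 3 h1
  rw [h2, h3, ← Multiset.sum_map_mul_left, Multiset.map_congr rfl (fun B _ => h4 B),
    Multiset.sum_map_mul_left] at h8
  have h9 : 3 * (2 * 3 ^ d * 4 ^ d) = 3 ^ d * 2 ^ d * (6 * 2 ^ d) := by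
    rw [show (4 : ℕ) = 2 * 2 from rfl, mul_pow]
    ring
  rw [h9] at h8
  exact Nat.le_of_mul_le_mul_left h8 (by positivity)

theorem second (d : ℕ) (F : Multiset (Fin d → Finset (Fin 3))) (hF : IsDoubleCover 3 d F) :
    3 * d * 2 ^ d + (F.map (fun B => (pr B).card * ((pr B).card + 1))).sum ≤
      d * (F.map (fun B => (pr B).card + 3)).sum := by
  have h1 : ∑ c ∈ range d, (c + 1) * 3 ^ (d - (c + 1)) * (2 * 3 ^ d * d.choose (c + 1)) ≤
        ∑ c ∈ range d, (c + 1) * 3 ^ (d - (c + 1)) *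
          (F.map (fun B => co d c (pr B).card)).sum :=
    Finset.sum_le_sum fun c _ => Nat.mul_le_mul_left _ (family F hF c)
  have h2 : 2 * ∑ c ∈ range d, (c + 1) * 3 ^ (d - (c + 1)) * (2 * 3 ^ d * d.choose (c + 1)) =
      3 ^ d * (d * 4 ^ d) := by
    rw [← s6 d, ← mul_assoc, mul_comm (3 ^ d) 4, mul_assoc, Finset.mul_sum, Finset.mul_sum,
      Finset.mul_sum]
    apply Finset.sum_congr rfl
    intro c _
    ring
  have h3 : ∑ c ∈ range d, (c + 1) * 3 ^ (d - (c + 1)) *
        (F.map (fun B => co d c (pr B).card)).sum =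
      (F.map (fun B => ∑ c ∈ range d, (c + 1) * 3 ^ (d - (c + 1)) * co d c (pr B).card)).sum := by
    rw [← sum_swap]
    apply Finset.sum_congr rfl
    intro c _
    rw [Multiset.sum_map_mul_left]
  have h4 : ∀ B : Fin d → Finset (Fin 3), 3 * (2 *
        ∑ c ∈ range d, (c + 1) * 3 ^ (d - (c + 1)) * co d c (pr B).card) =
      3 ^ d * 2 ^ d * (3 * (d - (pr B).card) + (pr B).card * (d - (pr B).card + 2)) := by
    intro B
    have ha := pr_le B
    generalize (pr B).card = a at ha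
    obtain ⟨s, hs⟩ : ∃ s, s + a = d := ⟨d - a, by omega⟩
    have hs' : d - a = s := by omega
    rw [Finset.mul_sum, Finset.mul_sum]
    have h5 : ∀ c ∈ range d, 3 * (2 * ((c + 1) * 3 ^ (d - (c + 1)) * co d c a)) =
        3 ^ d * 2 ^ a * (3 * (2 * ((c + 1) * s.choose (c + 1))) +
          a * (2 * ((c + 1) * s.choose c))) := by
      intro c hc
      calc 3 * (2 * ((c + 1) * 3 ^ (d - (c + 1)) * co d c a)) =
          2 * (c + 1) * (3 ^ (d - (c + 1)) * co d c a * 3) := by ring
        _ = _ := by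
          rw [co_mul (Finset.mem_range.mp hc), hs']
          ring
    rw [Finset.sum_congr rfl h5, ← Finset.mul_sum, Finset.sum_add_distrib, ← Finset.mul_sum,
      ← Finset.mul_sum, ← Finset.mul_sum, ← Finset.mul_sum, s3 (by omega), s4 hs, hs']
    have h7 : 2 ^ d = 2 ^ s * 2 ^ a := by rw [← pow_add, hs]
    rw [h7]
    ring
  have h8 := Nat.mul_le_mul_left 3 (Nat.mul_le_mul_left 2 h1)
  rw [h2, h3, ← Multiset.sum_map_mul_left, ← Multiset.sum_map_mul_left,
    Multiset.map_congr rfl (fun B _ => h4 B), Multiset.sum_map_mul_left] at h8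
  have h9 : 3 * (3 ^ d * (d * 4 ^ d)) = 3 ^ d * 2 ^ d * (3 * d * 2 ^ d) := by
    rw [show (4 : ℕ) = 2 * 2 from rfl, mul_pow]
    ring
  rw [h9] at h8
  have h10 := Nat.le_of_mul_le_mul_left h8 (by positivity)
  refine (Nat.add_le_add_right h10 _).trans (le_of_eq ?_)
  rw [← Multiset.sum_map_add, ← Multiset.sum_map_mul_left]
  apply congrArg
  apply Multiset.map_congr rfl
  intro B _
  have ha := pr_le B
  generalize (pr B).card = a at ha
  obtain ⟨s, rfl⟩ : ∃ s, d = s + a := ⟨d - a, by omega⟩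
  have hs' : s + a - a = s := by omega
  rw [hs']
  ring

theorem all (d : ℕ) (F : Multiset (Fin d → Finset (Fin 3))) (hF : IsDoubleCover 3 d F) :
    12 * (d + 10) * 2 ^ d ≤ (d ^ 2 + 20 * d + 76) * F.card := by
  have h1 := first d F hF
  have h2 := second d F hF
  have h3 : (4 * d + 20) * (F.map (fun B => (pr B).card + 3)).sum ≤
      (d ^ 2 + 20 * d + 76) * F.card +
        4 * (F.map (fun B => (pr B).card * ((pr B).card + 1))).sum := by
    have h4 : (d ^ 2 + 20 * d + 76) * F.card = (F.map (fun _ => d ^ 2 + 20 * d + 76)).sum := by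
      rw [Multiset.map_const', Multiset.sum_replicate, smul_eq_mul, mul_comm]
    rw [h4, ← Multiset.sum_map_mul_left, ← Multiset.sum_map_mul_left, ← Multiset.sum_map_add]
    apply Multiset.sum_map_le_sum_map
    intro B _
    generalize (pr B).card = a
    zify
    nlinarith [sq_nonneg ((d : ℤ) + 4 - 2 * a)]
  have h5 : 12 * (d + 10) * 2 ^ d = 20 * (6 * 2 ^ d) + 4 * (3 * d * 2 ^ d) := by ring
  rw [h5]
  have h6 := Nat.mul_le_mul_left 20 h1
  have h7 := Nat.mul_le_mul_left 4 h2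
  have h8 : (4 * d + 20) * (F.map (fun B => (pr B).card + 3)).sum =
      20 * (F.map (fun B => (pr B).card + 3)).sum +
        4 * (d * (F.map (fun B => (pr B).card + 3)).sum) := by ring
  omega

theorem gall (d : ℕ) : 12 * (d + 10) * 2 ^ d ≤ (d ^ 2 + 20 * d + 76) * g 3 d := by
  obtain ⟨F, hF, hc⟩ := Low.g_spec (n := 3) (d := d) (by norm_num)
  rw [← hc]
  exact all d F hF

end Pool.Agent.MP7489fb.Three
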