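import Pool.Agent.MP7489fb.Three4

set_option autoImplicit false

/-! Double covers of `[3]^d`: slices. -/

namespace Pool.Agent.MP7489fb.Three

open Finset

/-- The slice of the family at the point `x` of the coordinate `i`. -/
def slice {n d : ℕ} (i : Fin (d + 1)) (x : Fin n) (F : Multiset (Fin (d + 1) → Finset (Fin n))) :
    Multiset (Fin d → Finset (Fin n)) :=
  (F.filter (fun B => x ∈ B i)).map (fun B j => B (i.succAbove j))

theorem slice_cover {n d : ℕ} (i : Fin (d + 1)) (x : Fin n)
    (F : Multiset (Fin (d + 1) → Finset (Fin n))) (hF : IsDoubleCover n (d + 1) F) :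
    IsDoubleCover n d (slice i x F) where
  proper := by
    intro B' hB'
    unfold slice at hB'
    rw [Multiset.mem_map] at hB'
    obtain ⟨B, hB, rfl⟩ := hB'
    intro j
    exact hF.proper B (Multiset.mem_filter.mp hB).1 (i.succAbove j)
  twice := by
    intro y
    have h := hF.twice (i.insertNth x y)
    rw [← h]
    unfold cov slice
    rw [Multiset.filter_map, Multiset.card_map, Multiset.filter_filter]
    apply congrArg
    apply Multiset.filter_congr
    intro B _
    rw [Fin.forall_iff_succAbove (P := fun k => i.insertNth (α := fun _ => Fin n) x y k ∈ B k) i]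
    simp only [Function.comp_apply, Fin.insertNth_apply_same, Fin.insertNth_apply_succAbove]
    exact and_comm

theorem sum_filter_mem {n : ℕ} {κ : Type} (F : Multiset κ) (A : κ → Finset (Fin n)) (f : κ → ℕ) :
    ∑ x : Fin n, ((F.filter (fun B => x ∈ A B)).map f).sum =
      (F.map (fun B => (A B).card * f B)).sum := by
  induction F using Multiset.induction_on with
  | empty => simp
  | cons B F ih =>
    rw [Multiset.map_cons, Multiset.sum_cons, ← ih]
    have h1 : ∀ x : Fin n, (((B ::ₘ F).filter (fun B => x ∈ A B)).map f).sum =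
        (if x ∈ A B then f B else 0) + ((F.filter (fun B => x ∈ A B)).map f).sum := by
      intro x
      by_cases h : x ∈ A B
      · rw [Multiset.filter_cons_of_pos (p := fun B => x ∈ A B) F h, Multiset.map_cons, Multiset.sum_cons, if_pos h]
      · rw [Multiset.filter_cons_of_neg (p := fun B => x ∈ A B) F h, if_neg h, zero_add]
    rw [Finset.sum_congr rfl (fun x _ => h1 x), Finset.sum_add_distrib]
    congr 1
    rw [← Finset.sum_filter, Finset.sum_const, Finset.filter_mem_eq_inter, Finset.univ_inter,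
      smul_eq_mul]

theorem slice_one {d G : ℕ}
    (hG : ∀ F : Multiset (Fin d → Finset (Fin 3)), IsDoubleCover 3 d F → G ≤ F.card)
    (F : Multiset (Fin (d + 1) → Finset (Fin 3))) (hF : IsDoubleCover 3 (d + 1) F)
    (i : Fin (d + 1)) : 3 * G ≤ (F.map (fun B => (B i).card)).sum := by
  have h1 : ∑ _x : Fin 3, G ≤ ∑ x : Fin 3, ((F.filter (fun B => x ∈ B i)).map (fun _ => 1)).sum := by
    apply Finset.sum_le_sum
    intro x _
    have h2 := hG _ (slice_cover i x F hF)
    unfold slice at h2
    rw [Multiset.card_map] at h2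
    rw [Multiset.map_const', Multiset.sum_replicate, smul_eq_mul, mul_one]
    exact h2
  rw [sum_filter_mem F (fun B => B i) (fun _ => 1)] at h1
  simpa using h1

theorem slice_two {d G : ℕ}
    (hG : ∀ F : Multiset (Fin d → Finset (Fin 3)), IsDoubleCover 3 d F → G ≤ F.card)
    (F : Multiset (Fin (d + 2) → Finset (Fin 3))) (hF : IsDoubleCover 3 (d + 2) F)
    (i : Fin (d + 2)) (j : Fin (d + 1)) :
    9 * G ≤ (F.map (fun B => (B i).card * (B (i.succAbove j)).card)).sum := by
  have h1 : ∑ _x : Fin 3, 3 * G ≤ ∑ x : Fin 3,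
      ((F.filter (fun B => x ∈ B i)).map (fun B => (B (i.succAbove j)).card)).sum := by
    apply Finset.sum_le_sum
    intro x _
    have h2 := slice_one hG _ (slice_cover i x F hF) j
    unfold slice at h2
    rw [Multiset.map_map] at h2
    exact h2
  rw [sum_filter_mem F (fun B => B i) (fun B => (B (i.succAbove j)).card)] at h1
  refine le_trans (le_of_eq ?_) h1
  rw [Finset.sum_const, Finset.card_univ, Fintype.card_fin, smul_eq_mul]
  ring

theorem card_eq {d : ℕ} (B : Fin d → Finset (Fin 3)) (hB : IsProperBox B) (i : Fin d) :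
    (B i).card = 1 + if i ∈ pr B then 1 else 0 := by
  by_cases hP : i ∈ pr B
  · rw [if_pos hP]
    exact (Finset.mem_filter.mp hP).2
  · rw [if_neg hP]
    rcases card_side B hB i with h | h
    · exact h
    · exact absurd (Finset.mem_filter.mpr ⟨Finset.mem_univ i, h⟩) hP

theorem sum_card {d : ℕ} (B : Fin d → Finset (Fin 3)) (hB : IsProperBox B) :
    ∑ i, (B i).card = d + (pr B).card := by
  rw [Finset.sum_congr rfl (fun i _ => card_eq B hB i), Finset.sum_add_distrib,
    Finset.sum_const, Finset.card_univ, Fintype.card_fin, smul_eq_mul, mul_one,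
    ← Finset.sum_filter, ← Finset.card_eq_sum_ones, Finset.filter_mem_eq_inter, Finset.univ_inter]

theorem sum_sq {d : ℕ} (B : Fin d → Finset (Fin 3)) (hB : IsProperBox B) :
    ∑ i, (B i).card * (B i).card = d + 3 * (pr B).card := by
  have h : ∀ i, (B i).card * (B i).card = 1 + 3 * if i ∈ pr B then 1 else 0 := by
    intro i
    rw [card_eq B hB i]
    split_ifs <;> rfl
  rw [Finset.sum_congr rfl (fun i _ => h i), Finset.sum_add_distrib, ← Finset.mul_sum,
    Finset.sum_const, Finset.card_univ, Fintype.card_fin, smul_eq_mul, mul_one,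
    ← Finset.sum_filter, ← Finset.card_eq_sum_ones, Finset.filter_mem_eq_inter, Finset.univ_inter]

theorem sum_pairs {d : ℕ} (B : Fin (d + 2) → Finset (Fin 3)) (hB : IsProperBox B) :
    ∑ i, ∑ j : Fin (d + 1), (B i).card * (B (i.succAbove j)).card +
      ((d + 2) + 3 * (pr B).card) = ((d + 2) + (pr B).card) ^ 2 := by
  rw [← sum_sq B hB, ← sum_card B hB, ← Finset.sum_add_distrib, sq, Finset.sum_mul]
  apply Finset.sum_congr rfl
  intro i _
  rw [← Finset.mul_sum, ← mul_add, Fin.sum_univ_succAbove (fun k => (B k).card) i, add_comm]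

/-- The inequality of the slices in one coordinate. -/
theorem slices1 {d G : ℕ}
    (hG : ∀ F : Multiset (Fin d → Finset (Fin 3)), IsDoubleCover 3 d F → G ≤ F.card)
    (F : Multiset (Fin (d + 1) → Finset (Fin 3))) (hF : IsDoubleCover 3 (d + 1) F) :
    3 * (d + 1) * G ≤ (F.map (fun B => (d + 1) + (pr B).card)).sum := by
  have h1 : ∑ i : Fin (d + 1), 3 * G ≤ ∑ i : Fin (d + 1), (F.map (fun B => (B i).card)).sum :=
    Finset.sum_le_sum fun i _ => slice_one hG F hF i
  rw [Finset.sum_const, Finset.card_univ, Fintype.card_fin, smul_eq_mul, sum_swap] at h1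
  refine le_trans (le_of_eq (by ring)) (h1.trans (le_of_eq ?_))
  apply congrArg
  apply Multiset.map_congr rfl
  intro B hB
  exact sum_card B (hF.proper B hB)

/-- The inequality of the slices in two coordinates. -/
theorem slices2 {d G : ℕ}
    (hG : ∀ F : Multiset (Fin d → Finset (Fin 3)), IsDoubleCover 3 d F → G ≤ F.card)
    (F : Multiset (Fin (d + 2) → Finset (Fin 3))) (hF : IsDoubleCover 3 (d + 2) F) :
    9 * ((d + 2) * (d + 1)) * G ≤
      (F.map (fun B => ((d + 2) + (pr B).card) ^ 2 - ((d + 2) + 3 * (pr B).card))).sum := by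
  have h1 : ∑ i : Fin (d + 2), ∑ j : Fin (d + 1), 9 * G ≤
      ∑ i : Fin (d + 2), ∑ j : Fin (d + 1),
        (F.map (fun B => (B i).card * (B (i.succAbove j)).card)).sum :=
    Finset.sum_le_sum fun i _ => Finset.sum_le_sum fun j _ => slice_two hG F hF i j
  simp only [Finset.sum_const, Finset.card_univ, Fintype.card_fin, smul_eq_mul, sum_swap] at h1
  refine le_trans (le_of_eq (by ring)) (h1.trans (le_of_eq ?_))
  apply congrArg
  apply Multiset.map_congr rfl
  intro B hB
  have h2 := sum_pairs B (hF.proper B hB)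
  omega

/-- A weighted sum of the inequalities, with slices and with the volume on the other side. -/
theorem combine2 {d : ℕ} (F : Multiset (Fin d → Finset (Fin 3))) (hF : IsDoubleCover 3 d F)
    (K v m R : ℕ) (l : ℕ → ℕ) (s : ℕ → ℕ)
    (hs : R ≤ (F.map (fun B => s (pr B).card)).sum)
    (hK : ∀ a ≤ d, m * s a + ∑ c ∈ range d, l c * co d c a ≤ K + v * 2 ^ a) :
    m * R + ∑ c ∈ range d, l c * (2 * 3 ^ d * d.choose (c + 1)) ≤
      K * F.card + v * (2 * 3 ^ d) := by
  have h1 : m * R + ∑ c ∈ range d, l c * (2 * 3 ^ d * d.choose (c + 1)) ≤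
      m * (F.map (fun B => s (pr B).card)).sum +
        ∑ c ∈ range d, l c * (F.map (fun B => co d c (pr B).card)).sum :=
    Nat.add_le_add (Nat.mul_le_mul_left _ hs) (Finset.sum_le_sum fun c _ =>
      Nat.mul_le_mul_left _ (family F hF c))
  refine h1.trans ?_
  have h2 : m * (F.map (fun B => s (pr B).card)).sum +
        ∑ c ∈ range d, l c * (F.map (fun B => co d c (pr B).card)).sum =
      (F.map (fun B => m * s (pr B).card + ∑ c ∈ range d, l c * co d c (pr B).card)).sum := by
    rw [Multiset.sum_map_add, Multiset.sum_map_mul_left]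
    congr 1
    rw [← sum_swap]
    apply Finset.sum_congr rfl
    intro c _
    rw [Multiset.sum_map_mul_left]
  rw [h2, ← volume F hF]
  calc (F.map (fun B => m * s (pr B).card + ∑ c ∈ range d, l c * co d c (pr B).card)).sum
      ≤ (F.map (fun B => K + v * 2 ^ (pr B).card)).sum := by
        apply Multiset.sum_map_le_sum_map
        intro B _
        exact hK _ (pr_le B)
    _ = K * F.card + v * (F.map (fun B => 2 ^ (pr B).card)).sum := by
        rw [Multiset.sum_map_add, Multiset.sum_map_mul_left, Multiset.map_const',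
          Multiset.sum_replicate, smul_eq_mul, mul_comm K]

theorem low4' (F : Multiset (Fin 4 → Finset (Fin 3))) (hF : IsDoubleCover 3 4 F) :
    20 ≤ F.card := by
  have h := combine2 F hF 2592 54 432 (3 * 4 * 11) (fun c => [0, 0, 3, 4].getD c 0)
    (fun a => 4 + a) (slices1 low3 F hF) (by decide)
  have h1 : 432 * (3 * 4 * 11) + ∑ c ∈ range 4,
    [0, 0, 3, 4].getD c 0 * (2 * 3 ^ 4 * Nat.choose 4 (c + 1)) = 59616 := by decide
  rw [h1] at h
  omega

theorem low5' (F : Multiset (Fin 5 → Finset (Fin 3))) (hF : IsDoubleCover 3 5 F) :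
    36 ≤ F.card := by
  have h := combine2 F hF 10368 81 1296 (3 * 5 * 20) (fun c => [0, 0, 3, 3, 4].getD c 0)
    (fun a => 5 + a) (slices1 low4' F hF) (by decide)
  have h1 : 1296 * (3 * 5 * 20) + ∑ c ∈ range 5,
    [0, 0, 3, 3, 4].getD c 0 * (2 * 3 ^ 5 * Nat.choose 5 (c + 1)) = 412614 := by decide
  rw [h1] at h
  omega

theorem low6' (F : Multiset (Fin 6 → Finset (Fin 3))) (hF : IsDoubleCover 3 6 F) :
    66 ≤ F.card := by
  have h := combine2 F hF 466560 3645 5832 (9 * (6 * 5) * 20)
    (fun c => [0, 0, 81, 63, 51, 64].getD c 0)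
    (fun a => (6 + a) ^ 2 - (6 + 3 * a)) (slices2 low4' F hF) (by decide)
  have h1 : 5832 * (9 * (6 * 5) * 20) + ∑ c ∈ range 6,
    [0, 0, 81, 63, 51, 64].getD c 0 * (2 * 3 ^ 6 * Nat.choose 6 (c + 1)) = 35772030 := by decide
  rw [h1] at h
  omega

theorem g4' : 20 ≤ g 3 4 := by
  obtain ⟨F, hF, hc⟩ := Low.g_spec (n := 3) (d := 4) (by norm_num)
  rw [← hc]
  exact low4' F hF

theorem g5' : 36 ≤ g 3 5 := by
  obtain ⟨F, hF, hc⟩ := Low.g_spec (n := 3) (d := 5) (by norm_num)
  rw [← hc]
  exact low5' F hF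

theorem g6' : 66 ≤ g 3 6 := by
  obtain ⟨F, hF, hc⟩ := Low.g_spec (n := 3) (d := 6) (by norm_num)
  rw [← hc]
  exact low6' F hF

theorem q2 (d : ℕ) (hd : d ≤ 6) : 2 ^ d ≤ g 3 d := by
  have h := gall d
  interval_cases d
  · omega
  · omega
  · rw [g2]
    norm_num
  · rw [g3]
    norm_num
  · exact le_trans (by norm_num) g4'
  · exact le_trans (by norm_num) g5'
  · exact le_trans (by norm_num) g6'

end Pool.Agent.MP7489fb.Three
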