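import Pool.Agent.MP7489fb.Three5

set_option autoImplicit false

/-! Double covers of `[3]^3` by eleven boxes: the numbers of boxes of each type. -/

namespace Pool.Agent.MP7489fb.Three

open Finset
open Pool.Agent.MP7489fb.Low (W sum_W_double)

theorem sum_types {d : ℕ} (F : Multiset (Fin d → Finset (Fin 3))) (f : Finset (Fin d) → ℕ) :
    (F.map (fun B => f (pr B))).sum =
      ∑ P : Finset (Fin d), (F.filter (fun B => pr B = P)).card * f P := by
  induction F using Multiset.induction_on with
  | empty => simp
  | cons B F ih =>
    rw [Multiset.map_cons, Multiset.sum_cons, ih]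
    have h1 : ∀ P : Finset (Fin d), ((B ::ₘ F).filter (fun B => pr B = P)).card * f P =
        (if pr B = P then f P else 0) + (F.filter (fun B => pr B = P)).card * f P := by
      intro P
      by_cases h : pr B = P
      · rw [Multiset.filter_cons_of_pos (p := fun B => pr B = P) F h, Multiset.card_cons,
          if_pos h, add_mul, one_mul, add_comm]
      · rw [Multiset.filter_cons_of_neg (p := fun B => pr B = P) F h, if_neg h, zero_add]
    rw [Finset.sum_congr rfl (fun P _ => h1 P), Finset.sum_add_distrib, Finset.sum_ite_eq,
      if_pos (Finset.mem_univ _)]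

theorem card_types {d : ℕ} (F : Multiset (Fin d → Finset (Fin 3))) :
    F.card = ∑ P : Finset (Fin d), (F.filter (fun B => pr B = P)).card := by
  have h := sum_types F (fun _ => 1)
  simpa using h

theorem row (F : Multiset (Fin 2 → Finset (Fin 3))) (hF : IsDoubleCover 3 2 F) (i j : Fin 2)
    (hij : i ≠ j) (x : Fin 3) :
    (F.map (fun B => (if x ∈ B i then 1 else 0) * (B j).card)).sum = 6 := by
  have h := sum_W_double (fun (k : Fin 2) (a : Fin 3) => if k = i then (if a = x then 1 else 0)
    else 1) F hF
  have h0 : ∀ f : Fin 2 → ℕ, ∏ k, f k = f i * f j := by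
    intro f
    rw [Fin.prod_univ_two]
    fin_cases i <;> fin_cases j <;> simp_all [mul_comm]
  have h1 : ∏ k : Fin 2, ∑ a : Fin 3, (if k = i then (if a = x then 1 else 0) else 1) = 3 := by
    rw [h0]
    simp [hij.symm]
  rw [h1] at h
  rw [show 6 = 2 * 3 from rfl, ← h]
  apply congrArg
  apply Multiset.map_congr rfl
  intro B _
  unfold W
  rw [h0]
  simp [hij.symm, Finset.sum_ite_eq']

theorem not_one (F : Multiset (Fin 2 → Finset (Fin 3))) (hF : IsDoubleCover 3 2 F) (i j : Fin 2)
    (hij : i ≠ j) (h0 : (F.filter (fun B => pr B = ∅)).card = 0)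
    (h1 : (F.filter (fun B => pr B = {i})).card = 1) : False := by
  have h2 : 0 < (F.filter (fun B => pr B = {i})).card := by omega
  obtain ⟨B, hB⟩ := Multiset.card_pos_iff_exists_mem.mp h2
  rw [Multiset.mem_filter] at hB
  obtain ⟨F', hF'⟩ := Multiset.exists_cons_of_mem hB.1
  have hnone : ∀ B' ∈ F', (B' j).card = 2 := by
    intro B' hB'
    have hp : IsProperBox B' := hF.proper B' (by rw [hF']; exact Multiset.mem_cons_of_mem hB')
    rcases card_side B' hp j with h | h
    · exfalso
      have hj : j ∉ pr B' := by
        intro hj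
        have := (Finset.mem_filter.mp hj).2
        omega
      by_cases hi : i ∈ pr B'
      · have h3 : pr B' = {i} := by
          ext k
          rw [Finset.mem_singleton]
          constructor
          · intro hk
            by_contra hki
            have : k = j := by
              revert hij hki
              fin_cases i <;> fin_cases j <;> fin_cases k <;> simp
            rw [this] at hk
            exact hj hk
          · rintro rfl
            exact hi
        rw [hF', Multiset.filter_cons_of_pos (p := fun B => pr B = {i}) F' hB.2,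
          Multiset.card_cons] at h1
        have h4 : 0 < (F'.filter (fun B => pr B = {i})).card :=
          Multiset.card_pos_iff_exists_mem.mpr ⟨B', Multiset.mem_filter.mpr ⟨hB', h3⟩⟩
        omega
      · have h3 : pr B' = ∅ := by
          ext k
          simp only [Finset.notMem_empty, iff_false]
          intro hk
          have : k = i ∨ k = j := by
            revert hij
            fin_cases i <;> fin_cases j <;> fin_cases k <;> simp
          rcases this with rfl | rfl
          · exact hi hk
          · exact hj hk
        have h4 : 0 < (F.filter (fun B => pr B = ∅)).card :=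
          Multiset.card_pos_iff_exists_mem.mpr ⟨B', Multiset.mem_filter.mpr
            ⟨by rw [hF']; exact Multiset.mem_cons_of_mem hB', h3⟩⟩
        omega
    · exact h
  have hpB : IsProperBox B := hF.proper B hB.1
  obtain ⟨x, hx⟩ := (hpB i).1
  have hr := row F hF i j hij x
  rw [hF', Multiset.map_cons, Multiset.sum_cons, if_pos hx, one_mul] at hr
  have hBj : (B j).card = 1 := by
    rcases card_side B hpB j with h | h
    · exact h
    · exfalso
      have : j ∈ pr B := Finset.mem_filter.mpr ⟨Finset.mem_univ j, h⟩
      rw [hB.2, Finset.mem_singleton] at this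
      exact hij this.symm
  have hev : 2 ∣ (F'.map (fun B => (if x ∈ B i then 1 else 0) * (B j).card)).sum := by
    apply Multiset.dvd_sum
    intro a ha
    rw [Multiset.mem_map] at ha
    obtain ⟨B', hB', rfl⟩ := ha
    rw [hnone B' hB']
    exact Dvd.intro_left _ rfl
  rw [hBj] at hr
  omega

/-- The number of boxes with a pair in the coordinate `j` only. -/
def kd (j : Fin 2) (G : Multiset (Fin 2 → Finset (Fin 3))) : ℕ :=
  (G.filter (fun B => pr B = {j})).card

theorem kd_six (G : Multiset (Fin 2 → Finset (Fin 3))) (hG : IsDoubleCover 3 2 G)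
    (h6 : G.card = 6) (j : Fin 2) : kd j G = 0 ∨ kd j G = 3 := by
  have hu : (univ : Finset (Finset (Fin 2))) = {∅, {0}, {1}, {0, 1}} := by decide
  have hc := card_types G
  have hv := volume G hG
  rw [sum_types G (fun P => 2 ^ P.card)] at hv
  rw [hu, Finset.sum_insert (by decide), Finset.sum_insert (by decide),
    Finset.sum_insert (by decide), Finset.sum_singleton] at hc hv
  have c0 : (∅ : Finset (Fin 2)).card = 0 := rfl
  have c1 : ({0} : Finset (Fin 2)).card = 1 := rfl
  have c2 : ({1} : Finset (Fin 2)).card = 1 := rfl
  have c3 : ({0, 1} : Finset (Fin 2)).card = 2 := rfl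
  rw [c0, c1, c2, c3] at hv
  have n0 := not_one G hG 0 1 (by decide)
  have n1 := not_one G hG 1 0 (by decide)
  unfold kd
  have hj : j = 0 ∨ j = 1 := by
    fin_cases j <;> simp
  generalize (G.filter (fun B => pr B = ∅)).card = m0 at *
  rcases hj with rfl | rfl
  · generalize (G.filter (fun B => pr B = {0})).card = m1 at *
    generalize (G.filter (fun B => pr B = {1})).card = m2 at *
    generalize (G.filter (fun B => pr B = {0, 1})).card = m3 at *
    by_contra hcon
    by_cases h0 : m0 = 0
    · by_cases h1 : m1 = 1
      · exact n0 h0 h1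
      · by_cases h2 : m2 = 1
        · exact n1 h0 h2
        · omega
    · omega
  · generalize (G.filter (fun B => pr B = {0})).card = m1 at *
    generalize (G.filter (fun B => pr B = {1})).card = m2 at *
    generalize (G.filter (fun B => pr B = {0, 1})).card = m3 at *
    by_contra hcon
    by_cases h0 : m0 = 0
    · by_cases h1 : m1 = 1
      · exact n0 h0 h1
      · by_cases h2 : m2 = 1
        · exact n1 h0 h2
        · omega
    · omega

theorem pr_slice {d : ℕ} (B : Fin (d + 1) → Finset (Fin 3)) (i : Fin (d + 1)) :
    pr (fun j => B (i.succAbove j)) = univ.filter (fun j => i.succAbove j ∈ pr B) := by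
  ext j
  unfold pr
  simp

/-- The number of appearances of boxes of kind `j` in the slices in the coordinate `i`. -/
theorem K_eq (F : Multiset (Fin 3 → Finset (Fin 3))) (hF : IsDoubleCover 3 3 F) (i : Fin 3)
    (j : Fin 2) : ∑ x : Fin 3, kd j (slice i x F) =
      ∑ P : Finset (Fin 3), (F.filter (fun B => pr B = P)).card *
        ((1 + if i ∈ P then 1 else 0) *
          if (univ.filter (fun k => i.succAbove k ∈ P)) = {j} then 1 else 0) := by
  rw [← sum_types F (fun P => (1 + if i ∈ P then 1 else 0) *
          if (univ.filter (fun k => i.succAbove k ∈ P)) = {j} then 1 else 0)]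
  have h1 : ∀ x : Fin 3, kd j (slice i x F) = ((F.filter (fun B => x ∈ B i)).map
      (fun B => if (univ.filter (fun k => i.succAbove k ∈ pr B)) = {j} then 1 else 0)).sum := by
    intro x
    unfold kd slice
    rw [Multiset.filter_map, Multiset.card_map]
    generalize F.filter (fun B => x ∈ B i) = G
    induction G using Multiset.induction_on with
    | empty => simp
    | cons B G ih =>
      rw [Multiset.map_cons, Multiset.sum_cons, ← ih]
      have hp := pr_slice B i
      by_cases h : (univ.filter (fun k => i.succAbove k ∈ pr B)) = {j}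
      · rw [Multiset.filter_cons_of_pos _ (by
          simp only [Function.comp_apply]
          rw [hp, h]), Multiset.card_cons, if_pos h, add_comm]
      · rw [Multiset.filter_cons_of_neg _ (by
          simp only [Function.comp_apply]
          rw [hp]
          exact h), if_neg h, zero_add]
  rw [Finset.sum_congr rfl (fun x _ => h1 x), sum_filter_mem F (fun B => B i)]
  apply congrArg
  apply Multiset.map_congr rfl
  intro B hB
  rw [card_eq B (hF.proper B hB) i]

/-- A coordinate in which all slices have six boxes. -/
theorem coord (F : Multiset (Fin 3 → Finset (Fin 3))) (hF : IsDoubleCover 3 3 F) (i : Fin 3)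
    (hi : (F.map (fun B => (B i).card)).sum = 18) (j : Fin 2) :
    ((∑ x : Fin 3, kd j (slice i x F)) % 3 = 0) ∧
      ((F.filter (fun B => pr B = {i, i.succAbove j})).card = 0 ∨
        6 ≤ ∑ x : Fin 3, kd j (slice i x F)) := by
  have hge : ∀ x : Fin 3, 6 ≤ (slice i x F).card := fun x => low2 _ (slice_cover i x F hF)
  have hsum : ∑ x : Fin 3, (slice i x F).card = 18 := by
    rw [← hi]
    have h := sum_filter_mem F (fun B => B i) (fun _ => 1)
    simp only [mul_one, Multiset.map_const', Multiset.sum_replicate, smul_eq_mul] at h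
    rw [← h]
    apply Finset.sum_congr rfl
    intro x _
    unfold slice
    rw [Multiset.card_map]
  rw [Fin.sum_univ_three] at hsum
  have g0 := hge 0
  have g1 := hge 1
  have g2 := hge 2
  have h6 : ∀ x : Fin 3, (slice i x F).card = 6 := by
    intro x
    fin_cases x
    · show (slice i 0 F).card = 6
      omega
    · show (slice i 1 F).card = 6
      omega
    · show (slice i 2 F).card = 6
      omega
  have hk : ∀ x : Fin 3, kd j (slice i x F) = 0 ∨ kd j (slice i x F) = 3 :=
    fun x => kd_six _ (slice_cover i x F hF) (h6 x) j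
  constructor
  · apply Nat.mod_eq_zero_of_dvd
    apply Finset.dvd_sum
    intro x _
    rcases hk x with h | h <;> rw [h]
    · exact dvd_zero _
  · by_cases hz : (F.filter (fun B => pr B = {i, i.succAbove j})).card = 0
    · exact Or.inl hz
    · right
      obtain ⟨B, hB⟩ := Multiset.card_pos_iff_exists_mem.mp (Nat.pos_of_ne_zero hz)
      rw [Multiset.mem_filter] at hB
      have hiP : i ∈ pr B := by
        rw [hB.2]
        exact Finset.mem_insert_self _ _
      obtain ⟨x, y, hxy, hBi⟩ := Finset.card_eq_two.mp (Finset.mem_filter.mp hiP).2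
      have hpos : ∀ x : Fin 3, x ∈ B i → 3 ≤ kd j (slice i x F) := by
        intro x hx
        have h1 : 0 < kd j (slice i x F) := by
          unfold kd
          apply Multiset.card_pos_iff_exists_mem.mpr
          refine ⟨fun k => B (i.succAbove k), Multiset.mem_filter.mpr ⟨?_, ?_⟩⟩
          · exact Multiset.mem_map.mpr ⟨B, Multiset.mem_filter.mpr ⟨hB.1, hx⟩, rfl⟩
          · rw [pr_slice, hB.2]
            ext k
            simp only [Finset.mem_filter, Finset.mem_univ, true_and, Finset.mem_insert,
              Finset.mem_singleton]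
            constructor
            · rintro (h | h)
              · exact absurd h (Fin.succAbove_ne i k)
              · exact Fin.succAbove_right_injective h
            · rintro rfl
              exact Or.inr rfl
        rcases hk x with h | h <;> omega
      have hx := hpos x (by rw [hBi]; exact Finset.mem_insert_self _ _)
      have hy := hpos y (by
        rw [hBi]
        exact Finset.mem_insert_of_mem (Finset.mem_singleton_self _))
      calc 6 = 3 + 3 := rfl
        _ ≤ kd j (slice i x F) + kd j (slice i y F) := Nat.add_le_add hx hy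
        _ = ∑ z ∈ ({x, y} : Finset (Fin 3)), kd j (slice i z F) := by
          rw [Finset.sum_insert (by rwa [Finset.mem_singleton]), Finset.sum_singleton]
        _ ≤ ∑ z : Fin 3, kd j (slice i z F) :=
          Finset.sum_le_sum_of_subset (Finset.subset_univ _)

/-- The number of boxes with `b` two-element sides. -/
def X {d : ℕ} (b : ℕ) (F : Multiset (Fin d → Finset (Fin 3))) : ℕ :=
  (F.filter (fun B => (pr B).card = b)).card

theorem X_eq {d : ℕ} (b : ℕ) (F : Multiset (Fin d → Finset (Fin 3))) :
    X b F = ∑ P : Finset (Fin d), (F.filter (fun B => pr B = P)).card *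
      if P.card = b then 1 else 0 := by
  rw [← sum_types F (fun P => if P.card = b then 1 else 0)]
  unfold X
  induction F using Multiset.induction_on with
  | empty => simp
  | cons B F ih =>
    rw [Multiset.map_cons, Multiset.sum_cons, ← ih]
    by_cases h : (pr B).card = b
    · rw [Multiset.filter_cons_of_pos (p := fun B => (pr B).card = b) F h, Multiset.card_cons,
        if_pos h, add_comm]
    · rw [Multiset.filter_cons_of_neg (p := fun B => (pr B).card = b) F h, if_neg h, zero_add]

theorem univ3 : (univ : Finset (Finset (Fin 3))) =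
    {∅, {0}, {1}, {2}, {0, 1}, {0, 2}, {1, 2}, {0, 1, 2}} := by decide

theorem sum3 (f : Finset (Fin 3) → ℕ) : ∑ P, f P = f ∅ + f {0} + f {1} + f {2} + f {0, 1} +
    f {0, 2} + f {1, 2} + f {0, 1, 2} := by
  rw [univ3, Finset.sum_insert (by decide), Finset.sum_insert (by decide),
    Finset.sum_insert (by decide), Finset.sum_insert (by decide), Finset.sum_insert (by decide),
    Finset.sum_insert (by decide), Finset.sum_insert (by decide), Finset.sum_singleton]
  ring

theorem arith (a b c e p q r t : ℕ)
    (hc : a + b + c + e + p + q + r + t = 11)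
    (hv : a + 2 * b + 2 * c + 2 * e + 4 * p + 4 * q + 4 * r + 8 * t = 54)
    (h1 : 54 ≤ 9 * a + 10 * (b + c + e) + 8 * (p + q + r))
    (h2 : 6 ≤ 3 * a + 2 * (b + c + e))
    (s0 : 18 ≤ 11 + (b + p + q + t)) (s1 : 18 ≤ 11 + (c + p + r + t))
    (s2 : 18 ≤ 11 + (e + q + r + t))
    (k0 : b + p + q + t = 7 → ((c + 2 * p) % 3 = 0 ∧ (p = 0 ∨ 6 ≤ c + 2 * p)) ∧
      ((e + 2 * q) % 3 = 0 ∧ (q = 0 ∨ 6 ≤ e + 2 * q)))
    (k1 : c + p + r + t = 7 → ((b + 2 * p) % 3 = 0 ∧ (p = 0 ∨ 6 ≤ b + 2 * p)) ∧
      ((e + 2 * r) % 3 = 0 ∧ (r = 0 ∨ 6 ≤ e + 2 * r)))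
    (k2 : e + q + r + t = 7 → ((b + 2 * q) % 3 = 0 ∧ (q = 0 ∨ 6 ≤ b + 2 * q)) ∧
      ((c + 2 * r) % 3 = 0 ∧ (r = 0 ∨ 6 ≤ c + 2 * r))) :
    a = 0 ∧ b + c + e = 3 ∧ p + q + r = 4 ∧ t = 4 := by
  have ht : t = 4 ∨ t = 5 := by omega
  have ha : a = 0 ∨ a = 2 := by omega
  rcases ht with rfl | rfl <;> rcases ha with rfl | rfl
  · omega
  · exfalso
    have hb : b = 0 ∧ c = 0 ∧ e = 0 ∧ p + q + r = 5 := by omega
    obtain ⟨rfl, rfl, rfl, hp⟩ := hb
    have hp2 : p ≤ 2 := by omega
    have hq2 : q ≤ 2 := by omega
    interval_cases p <;> interval_cases q <;> omega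
  · exfalso
    have hp : p + q + r = 1 ∧ b + c + e = 5 := by omega
    have hp2 : p ≤ 1 := by omega
    have hq2 : q ≤ 1 := by omega
    interval_cases p <;> interval_cases q <;> omega
  · exfalso
    have hp : p + q + r = 2 ∧ b + c + e = 2 := by omega
    have hp2 : p ≤ 2 := by omega
    have hq2 : q ≤ 2 := by omega
    interval_cases p <;> interval_cases q <;> omega

end Pool.Agent.MP7489fb.Three
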