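import Pool.Agent.MP7489fb.Three9

set_option autoImplicit false

/-! Double covers of `[3]^4`: at least 21 boxes, from the types of the covers of `[3]^3`. -/

namespace Pool.Agent.MP7489fb.Three

open Finset

theorem X_cons {d : ℕ} (b : ℕ) (B : Fin d → Finset (Fin 3))
    (F : Multiset (Fin d → Finset (Fin 3))) :
    X b (B ::ₘ F) = (if (pr B).card = b then 1 else 0) + X b F := by
  unfold X
  by_cases h : (pr B).card = b
  · rw [Multiset.filter_cons_of_pos (p := fun B => (pr B).card = b) F h, Multiset.card_cons,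
      if_pos h, add_comm]
  · rw [Multiset.filter_cons_of_neg (p := fun B => (pr B).card = b) F h, if_neg h, zero_add]

theorem X_eq_sum {d : ℕ} (b : ℕ) (F : Multiset (Fin d → Finset (Fin 3))) :
    X b F = (F.map (fun B => if (pr B).card = b then 1 else 0)).sum := by
  induction F using Multiset.induction_on with
  | empty => simp [X]
  | cons B F ih => rw [X_cons, ih, Multiset.map_cons, Multiset.sum_cons]

theorem X_le_card {d : ℕ} (b : ℕ) (F : Multiset (Fin d → Finset (Fin 3))) :
    X b F ≤ F.card := Multiset.card_le_card (Multiset.filter_le _ _)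

theorem sum_type {d : ℕ} (F : Multiset (Fin d → Finset (Fin 3))) (f : ℕ → ℕ) :
    (F.map (fun B => f (pr B).card)).sum = ∑ b ∈ range (d + 1), f b * X b F := by
  induction F using Multiset.induction_on with
  | empty => simp [X]
  | cons B F ih =>
    rw [Multiset.map_cons, Multiset.sum_cons, ih]
    simp only [X_cons, mul_add, Finset.sum_add_distrib]
    congr 1
    have hB : (pr B).card ∈ range (d + 1) := Finset.mem_range.mpr (Nat.lt_succ_of_le (pr_le B))
    have h1 : ∀ b ∈ range (d + 1), f b * (if (pr B).card = b then 1 else 0) =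
        if (pr B).card = b then f b else 0 := by
      intro b _
      split_ifs <;> simp
    rw [Finset.sum_congr rfl h1, Finset.sum_ite_eq, if_pos hB]

theorem pr_restrict {d : ℕ} (B : Fin (d + 1) → Finset (Fin 3)) (i : Fin (d + 1)) :
    (pr B).card = (if i ∈ pr B then 1 else 0) + (pr (fun j => B (i.succAbove j))).card := by
  unfold pr
  rw [Finset.card_filter, Finset.card_filter,
    Fin.sum_univ_succAbove (fun k => if (B k).card = 2 then 1 else 0) i]
  congr 1
  simp only [Finset.mem_filter, Finset.mem_univ, true_and]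

theorem sum_slices_box {d : ℕ} (B : Fin (d + 1) → Finset (Fin 3)) (hB : IsProperBox B)
    (g : ℕ → ℕ) :
    ∑ i, (B i).card * g (pr (fun j => B (i.succAbove j))).card =
      (d + 1 - (pr B).card) * g (pr B).card + 2 * (pr B).card * g ((pr B).card - 1) := by
  have h1 : ∀ i, (B i).card * g (pr (fun j => B (i.succAbove j))).card =
      if i ∈ pr B then 2 * g ((pr B).card - 1) else g (pr B).card := by
    intro i
    have h2 := pr_restrict B i
    have h3 := card_eq B hB i
    by_cases h : i ∈ pr B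
    · rw [if_pos h] at h2 h3 ⊢
      rw [h3, show (pr (fun j => B (i.succAbove j))).card = (pr B).card - 1 by omega]
    · rw [if_neg h] at h2 h3 ⊢
      rw [h3, show (pr (fun j => B (i.succAbove j))).card = (pr B).card by omega]
      ring
  rw [Finset.sum_congr rfl (fun i _ => h1 i), Finset.sum_ite, Finset.sum_const, Finset.sum_const]
  have h4 : (univ.filter (fun i => i ∈ pr B)) = pr B := by
    ext i
    simp
  have h5 : (univ.filter (fun i => i ∉ pr B)).card = d + 1 - (pr B).card := by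
    have h6 : (univ.filter (fun i => i ∉ pr B)) = (pr B)ᶜ := by
      ext i
      simp
    rw [h6, Finset.card_compl, Fintype.card_fin]
  rw [h4, h5, smul_eq_mul, smul_eq_mul]
  ring

theorem sum_slices {d : ℕ} (F : Multiset (Fin (d + 1) → Finset (Fin 3)))
    (hF : IsDoubleCover 3 (d + 1) F) (g : ℕ → ℕ) :
    ∑ i : Fin (d + 1), ∑ x : Fin 3, ((slice i x F).map (fun B => g (pr B).card)).sum =
      ∑ b ∈ range (d + 2), ((d + 1 - b) * g b + 2 * b * g (b - 1)) * X b F := by
  have h1 : ∀ i : Fin (d + 1), ∑ x : Fin 3, ((slice i x F).map (fun B => g (pr B).card)).sum =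
      (F.map (fun B => (B i).card * g (pr (fun j => B (i.succAbove j))).card)).sum := by
    intro i
    rw [← sum_filter_mem F (fun B => B i) (fun B => g (pr (fun j => B (i.succAbove j))).card)]
    apply Finset.sum_congr rfl
    intro x _
    unfold slice
    rw [Multiset.map_map]
    rfl
  rw [Finset.sum_congr rfl (fun i _ => h1 i), sum_swap, ← sum_type F
    (fun b => (d + 1 - b) * g b + 2 * b * g (b - 1))]
  apply congrArg
  apply Multiset.map_congr rfl
  intro B hB
  exact sum_slices_box B (hF.proper B hB) g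

theorem low4'' (type3 : ∀ F : Multiset (Fin 3 → Finset (Fin 3)), IsDoubleCover 3 3 F →
    F.card = 11 → X 0 F = 0 ∧ X 1 F = 3 ∧ X 2 F = 4)
    (F : Multiset (Fin 4 → Finset (Fin 3))) (hF : IsDoubleCover 3 4 F) : 21 ≤ F.card := by
  by_contra hcon
  have hc : F.card = 20 := by
    have := low4' F hF
    omega
  have hG : ∀ (i : Fin 4) (x : Fin 3), 36 ≤ X 1 (slice i x F) + 3 * (slice i x F).card ∧
      48 ≤ X 2 (slice i x F) + 4 * (slice i x F).card ∧
      X 0 (slice i x F) + 132 ≤ 12 * (slice i x F).card := by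
    intro i x
    have h1 := slice_cover i x F hF
    have h2 := low3 _ h1
    have h3 := X_le_card 0 (slice i x F)
    rcases Nat.lt_or_ge 11 (slice i x F).card with h4 | h4
    · omega
    · have h5 := type3 _ h1 (le_antisymm h4 h2)
      omega
  have hX : ∀ b, ∑ i : Fin 4, ∑ x : Fin 3, X b (slice i x F) =
      ∑ c ∈ range 5, ((4 - c) * (if c = b then 1 else 0) +
        2 * c * (if c - 1 = b then 1 else 0)) * X c F := by
    intro b
    rw [← sum_slices F hF (fun c => if c = b then 1 else 0)]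
    apply Finset.sum_congr rfl
    intro i _
    apply Finset.sum_congr rfl
    intro x _
    exact X_eq_sum b _
  have hC : ∑ i : Fin 4, ∑ x : Fin 3, (slice i x F).card =
      ∑ c ∈ range 5, ((4 - c) * 1 + 2 * c * 1) * X c F := by
    rw [← sum_slices F hF (fun _ => 1)]
    apply Finset.sum_congr rfl
    intro i _
    apply Finset.sum_congr rfl
    intro x _
    rw [Multiset.map_const', Multiset.sum_replicate, smul_eq_mul, mul_one]
  have hcard : F.card = ∑ c ∈ range 5, 1 * X c F := by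
    rw [← sum_type F (fun _ => 1), Multiset.map_const', Multiset.sum_replicate, smul_eq_mul,
      mul_one]
  have hvol : ∑ c ∈ range 5, 2 ^ c * X c F = 2 * 3 ^ 4 := by
    rw [← sum_type F (fun c => 2 ^ c)]
    exact volume F hF
  have hfam : ∀ k, 2 * 3 ^ 4 * Nat.choose 4 (k + 1) ≤ ∑ c ∈ range 5, co 4 k c * X c F := by
    intro k
    rw [← sum_type F (co 4 k)]
    exact family F hF k
  have s1 : ∑ i : Fin 4, ∑ x : Fin 3, 36 ≤
      ∑ i : Fin 4, ∑ x : Fin 3, (X 1 (slice i x F) + 3 * (slice i x F).card) :=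
    Finset.sum_le_sum fun i _ => Finset.sum_le_sum fun x _ => (hG i x).1
  have s2 : ∑ i : Fin 4, ∑ x : Fin 3, 48 ≤
      ∑ i : Fin 4, ∑ x : Fin 3, (X 2 (slice i x F) + 4 * (slice i x F).card) :=
    Finset.sum_le_sum fun i _ => Finset.sum_le_sum fun x _ => (hG i x).2.1
  have s3 : ∑ i : Fin 4, ∑ x : Fin 3, (X 0 (slice i x F) + 132) ≤
      ∑ i : Fin 4, ∑ x : Fin 3, 12 * (slice i x F).card :=
    Finset.sum_le_sum fun i _ => Finset.sum_le_sum fun x _ => (hG i x).2.2
  simp only [Finset.sum_add_distrib, ← Finset.mul_sum, hX, hC] at s1 s2 s3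
  have f1 := hfam 1
  have f2 := hfam 2
  have f3 := hfam 3
  rw [hc] at hcard
  simp only [Finset.sum_range_succ, Finset.sum_range_zero, co, Finset.sum_const,
    Finset.card_univ, Fintype.card_fin, smul_eq_mul] at s1 s2 s3 f1 f2 f3 hcard hvol
  norm_num [Nat.choose] at s1 s2 s3 f1 f2 f3 hcard hvol
  omega

theorem low4t (F : Multiset (Fin 4 → Finset (Fin 3))) (hF : IsDoubleCover 3 4 F) :
    21 ≤ F.card := low4'' type3 F hF

theorem low5t (F : Multiset (Fin 5 → Finset (Fin 3))) (hF : IsDoubleCover 3 5 F) :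
    38 ≤ F.card := by
  have h := combine2 F hF 10368 81 1296 (3 * 5 * 21) (fun c => [0, 0, 3, 3, 4].getD c 0)
    (fun a => 5 + a) (slices1 low4t F hF) (by decide)
  have h1 : 1296 * (3 * 5 * 21) + ∑ c ∈ range 5,
    [0, 0, 3, 3, 4].getD c 0 * (2 * 3 ^ 5 * Nat.choose 5 (c + 1)) = 432054 := by decide
  rw [h1] at h
  omega

theorem low6t (F : Multiset (Fin 6 → Finset (Fin 3))) (hF : IsDoubleCover 3 6 F) :
    69 ≤ F.card := by
  have h := combine2 F hF 466560 3645 5832 (9 * (6 * 5) * 21)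
    (fun c => [0, 0, 81, 63, 51, 64].getD c 0)
    (fun a => (6 + a) ^ 2 - (6 + 3 * a)) (slices2 low4t F hF) (by decide)
  have h1 : 5832 * (9 * (6 * 5) * 21) + ∑ c ∈ range 6,
    [0, 0, 81, 63, 51, 64].getD c 0 * (2 * 3 ^ 6 * Nat.choose 6 (c + 1)) = 37346670 := by decide
  rw [h1] at h
  omega

/-- Twenty-one boxes. -/
def F4 : Multiset (Fin 4 → Finset (Fin 3)) :=
  ↑[(![{0}, {0}, {0}, {0, 1}] : Fin 4 → Finset (Fin 3)), ![{0}, {0}, {0}, {0, 2}],
    ![{0}, {0}, {0}, {1, 2}], ![{1}, {1}, {1}, {0, 1}], ![{1}, {1}, {1}, {0, 2}],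
    ![{1}, {1}, {1}, {1, 2}], ![{2}, {2}, {2}, {0, 1}], ![{2}, {2}, {2}, {0, 2}],
    ![{2}, {2}, {2}, {1, 2}],
    ![{0, 1}, {0, 2}, {1, 2}, {0}], ![{0, 1}, {0, 2}, {1, 2}, {1, 2}],
    ![{1, 2}, {0, 1}, {0, 2}, {0}], ![{1, 2}, {0, 1}, {0, 2}, {1, 2}],
    ![{0, 2}, {1, 2}, {0, 1}, {0}], ![{0, 2}, {1, 2}, {0, 1}, {1, 2}],
    ![{0, 1}, {1, 2}, {0, 2}, {2}], ![{0, 1}, {1, 2}, {0, 2}, {0, 1}],
    ![{1, 2}, {0, 2}, {0, 1}, {2}], ![{1, 2}, {0, 2}, {0, 1}, {0, 1}],
    ![{0, 2}, {0, 1}, {1, 2}, {2}], ![{0, 2}, {0, 1}, {1, 2}, {0, 1}]]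

theorem F4_cover : IsDoubleCover 3 4 F4 where
  proper := by
    intro B hB
    simp only [F4, Multiset.mem_coe, List.mem_cons, List.not_mem_nil, or_false] at hB
    rcases hB with rfl | rfl | rfl | rfl | rfl | rfl | rfl | rfl | rfl | rfl | rfl | rfl | rfl |
      rfl | rfl | rfl | rfl | rfl | rfl | rfl | rfl <;> (intro i; fin_cases i <;> decide)
  twice := by
    have h : ∀ a b c e : Fin 3, cov F4 ![a, b, c, e] = 2 := by decide
    intro x
    have hx : x = ![x 0, x 1, x 2, x 3] := by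
      funext i
      fin_cases i <;> rfl
    rw [hx]
    exact h _ _ _ _

theorem g4t : g 3 4 = 21 := by
  apply le_antisymm
  · exact Nat.sInf_le ⟨F4, F4_cover, rfl⟩
  · obtain ⟨F, hF, hc⟩ := Low.g_spec (n := 3) (d := 4) (by norm_num)
    rw [← hc]
    exact low4t F hF

theorem g5t : 38 ≤ g 3 5 := by
  obtain ⟨F, hF, hc⟩ := Low.g_spec (n := 3) (d := 5) (by norm_num)
  rw [← hc]
  exact low5t F hF

theorem g6t : 69 ≤ g 3 6 := by
  obtain ⟨F, hF, hc⟩ := Low.g_spec (n := 3) (d := 6) (by norm_num)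
  rw [← hc]
  exact low6t F hF

end Pool.Agent.MP7489fb.Three
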