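import Pool.Agent.MP7489fb.Three6

set_option autoImplicit false

/-! Double covers of `[3]^3` by eleven boxes: the theorem on the types. -/

namespace Pool.Agent.MP7489fb.Three

open Finset

/-- The factor which counts appearances. -/
def fK (i : Fin 3) (j : Fin 2) (P : Finset (Fin 3)) : ℕ :=
  (1 + if i ∈ P then 1 else 0) *
    if (univ.filter (fun k => i.succAbove k ∈ P)) = {j} then 1 else 0

/-- The size of the side. -/
def fS (i : Fin 3) (P : Finset (Fin 3)) : ℕ := 1 + if i ∈ P then 1 else 0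

theorem side_sum (F : Multiset (Fin 3 → Finset (Fin 3))) (hF : IsDoubleCover 3 3 F) (i : Fin 3) :
    (F.map (fun B => (B i).card)).sum =
      ∑ P : Finset (Fin 3), (F.filter (fun B => pr B = P)).card * fS i P := by
  rw [← sum_types F (fun P => fS i P)]
  apply congrArg
  apply Multiset.map_congr rfl
  intro B hB
  exact card_eq B (hF.proper B hB) i

theorem K00 (m : Finset (Fin 3) → ℕ) : ∑ P, m P * fK 0 0 P = m {1} + 2 * m {0, 1} := by
  rw [sum3,
    show fK 0 0 ∅ = 0 by decide,
    show fK 0 0 {0} = 0 by decide,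
    show fK 0 0 {1} = 1 by decide,
    show fK 0 0 {2} = 0 by decide,
    show fK 0 0 {0, 1} = 2 by decide,
    show fK 0 0 {0, 2} = 0 by decide,
    show fK 0 0 {1, 2} = 0 by decide,
    show fK 0 0 {0, 1, 2} = 0 by decide]
  ring

theorem K01 (m : Finset (Fin 3) → ℕ) : ∑ P, m P * fK 0 1 P = m {2} + 2 * m {0, 2} := by
  rw [sum3,
    show fK 0 1 ∅ = 0 by decide,
    show fK 0 1 {0} = 0 by decide,
    show fK 0 1 {1} = 0 by decide,
    show fK 0 1 {2} = 1 by decide,
    show fK 0 1 {0, 1} = 0 by decide,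
    show fK 0 1 {0, 2} = 2 by decide,
    show fK 0 1 {1, 2} = 0 by decide,
    show fK 0 1 {0, 1, 2} = 0 by decide]
  ring

theorem S0 (m : Finset (Fin 3) → ℕ) : ∑ P, m P * fS 0 P =
    m ∅ + 2 * m {0} + m {1} + m {2} + 2 * m {0, 1} + 2 * m {0, 2} + m {1, 2} + 2 * m {0, 1, 2} := by
  rw [sum3,
    show fS 0 ∅ = 1 by decide,
    show fS 0 {0} = 2 by decide,
    show fS 0 {1} = 1 by decide,
    show fS 0 {2} = 1 by decide,
    show fS 0 {0, 1} = 2 by decide,
    show fS 0 {0, 2} = 2 by decide,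
    show fS 0 {1, 2} = 1 by decide,
    show fS 0 {0, 1, 2} = 2 by decide]
  ring

theorem K10 (m : Finset (Fin 3) → ℕ) : ∑ P, m P * fK 1 0 P = m {0} + 2 * m {0, 1} := by
  rw [sum3,
    show fK 1 0 ∅ = 0 by decide,
    show fK 1 0 {0} = 1 by decide,
    show fK 1 0 {1} = 0 by decide,
    show fK 1 0 {2} = 0 by decide,
    show fK 1 0 {0, 1} = 2 by decide,
    show fK 1 0 {0, 2} = 0 by decide,
    show fK 1 0 {1, 2} = 0 by decide,
    show fK 1 0 {0, 1, 2} = 0 by decide]
  ring

theorem K11 (m : Finset (Fin 3) → ℕ) : ∑ P, m P * fK 1 1 P = m {2} + 2 * m {1, 2} := by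
  rw [sum3,
    show fK 1 1 ∅ = 0 by decide,
    show fK 1 1 {0} = 0 by decide,
    show fK 1 1 {1} = 0 by decide,
    show fK 1 1 {2} = 1 by decide,
    show fK 1 1 {0, 1} = 0 by decide,
    show fK 1 1 {0, 2} = 0 by decide,
    show fK 1 1 {1, 2} = 2 by decide,
    show fK 1 1 {0, 1, 2} = 0 by decide]
  ring

theorem S1 (m : Finset (Fin 3) → ℕ) : ∑ P, m P * fS 1 P =
    m ∅ + m {0} + 2 * m {1} + m {2} + 2 * m {0, 1} + m {0, 2} + 2 * m {1, 2} + 2 * m {0, 1, 2} := by
  rw [sum3,
    show fS 1 ∅ = 1 by decide,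
    show fS 1 {0} = 1 by decide,
    show fS 1 {1} = 2 by decide,
    show fS 1 {2} = 1 by decide,
    show fS 1 {0, 1} = 2 by decide,
    show fS 1 {0, 2} = 1 by decide,
    show fS 1 {1, 2} = 2 by decide,
    show fS 1 {0, 1, 2} = 2 by decide]
  ring

theorem K20 (m : Finset (Fin 3) → ℕ) : ∑ P, m P * fK 2 0 P = m {0} + 2 * m {0, 2} := by
  rw [sum3,
    show fK 2 0 ∅ = 0 by decide,
    show fK 2 0 {0} = 1 by decide,
    show fK 2 0 {1} = 0 by decide,
    show fK 2 0 {2} = 0 by decide,
    show fK 2 0 {0, 1} = 0 by decide,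
    show fK 2 0 {0, 2} = 2 by decide,
    show fK 2 0 {1, 2} = 0 by decide,
    show fK 2 0 {0, 1, 2} = 0 by decide]
  ring

theorem K21 (m : Finset (Fin 3) → ℕ) : ∑ P, m P * fK 2 1 P = m {1} + 2 * m {1, 2} := by
  rw [sum3,
    show fK 2 1 ∅ = 0 by decide,
    show fK 2 1 {0} = 0 by decide,
    show fK 2 1 {1} = 1 by decide,
    show fK 2 1 {2} = 0 by decide,
    show fK 2 1 {0, 1} = 0 by decide,
    show fK 2 1 {0, 2} = 0 by decide,
    show fK 2 1 {1, 2} = 2 by decide,
    show fK 2 1 {0, 1, 2} = 0 by decide]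
  ring

theorem S2 (m : Finset (Fin 3) → ℕ) : ∑ P, m P * fS 2 P =
    m ∅ + m {0} + m {1} + 2 * m {2} + m {0, 1} + 2 * m {0, 2} + 2 * m {1, 2} + 2 * m {0, 1, 2} := by
  rw [sum3,
    show fS 2 ∅ = 1 by decide,
    show fS 2 {0} = 1 by decide,
    show fS 2 {1} = 1 by decide,
    show fS 2 {2} = 2 by decide,
    show fS 2 {0, 1} = 1 by decide,
    show fS 2 {0, 2} = 2 by decide,
    show fS 2 {1, 2} = 2 by decide,
    show fS 2 {0, 1, 2} = 2 by decide]
  ring

theorem C1 (m : Finset (Fin 3) → ℕ) : ∑ P, m P * co 3 1 P.card =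
    27 * m ∅ + 30 * m {0} + 30 * m {1} + 30 * m {2} + 24 * m {0, 1} + 24 * m {0, 2} + 24 * m {1, 2} := by
  rw [sum3,
    show co 3 1 (∅ : Finset (Fin 3)).card = 27 by decide,
    show co 3 1 ({0} : Finset (Fin 3)).card = 30 by decide,
    show co 3 1 ({1} : Finset (Fin 3)).card = 30 by decide,
    show co 3 1 ({2} : Finset (Fin 3)).card = 30 by decide,
    show co 3 1 ({0, 1} : Finset (Fin 3)).card = 24 by decide,
    show co 3 1 ({0, 2} : Finset (Fin 3)).card = 24 by decide,
    show co 3 1 ({1, 2} : Finset (Fin 3)).card = 24 by decide,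
    show co 3 1 ({0, 1, 2} : Finset (Fin 3)).card = 0 by decide]
  ring

theorem C2 (m : Finset (Fin 3) → ℕ) : ∑ P, m P * co 3 2 P.card =
    27 * m ∅ + 18 * m {0} + 18 * m {1} + 18 * m {2} := by
  rw [sum3,
    show co 3 2 (∅ : Finset (Fin 3)).card = 27 by decide,
    show co 3 2 ({0} : Finset (Fin 3)).card = 18 by decide,
    show co 3 2 ({1} : Finset (Fin 3)).card = 18 by decide,
    show co 3 2 ({2} : Finset (Fin 3)).card = 18 by decide,
    show co 3 2 ({0, 1} : Finset (Fin 3)).card = 0 by decide,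
    show co 3 2 ({0, 2} : Finset (Fin 3)).card = 0 by decide,
    show co 3 2 ({1, 2} : Finset (Fin 3)).card = 0 by decide,
    show co 3 2 ({0, 1, 2} : Finset (Fin 3)).card = 0 by decide]
  ring

theorem V0 (m : Finset (Fin 3) → ℕ) : ∑ P, m P * 2 ^ P.card =
    m ∅ + 2 * m {0} + 2 * m {1} + 2 * m {2} + 4 * m {0, 1} + 4 * m {0, 2} + 4 * m {1, 2} + 8 * m {0, 1, 2} := by
  rw [sum3,
    show (∅ : Finset (Fin 3)).card = 0 by decide,
    show ({0} : Finset (Fin 3)).card = 1 by decide,
    show ({1} : Finset (Fin 3)).card = 1 by decide,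
    show ({2} : Finset (Fin 3)).card = 1 by decide,
    show ({0, 1} : Finset (Fin 3)).card = 2 by decide,
    show ({0, 2} : Finset (Fin 3)).card = 2 by decide,
    show ({1, 2} : Finset (Fin 3)).card = 2 by decide,
    show ({0, 1, 2} : Finset (Fin 3)).card = 3 by decide]
  ring

theorem X0 (m : Finset (Fin 3) → ℕ) : (∑ P, m P * if P.card = 0 then 1 else 0) =
    m ∅ := by
  rw [sum3,
    show (if (∅ : Finset (Fin 3)).card = 0 then 1 else 0) = 1 by decide,
    show (if ({0} : Finset (Fin 3)).card = 0 then 1 else 0) = 0 by decide,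
    show (if ({1} : Finset (Fin 3)).card = 0 then 1 else 0) = 0 by decide,
    show (if ({2} : Finset (Fin 3)).card = 0 then 1 else 0) = 0 by decide,
    show (if ({0, 1} : Finset (Fin 3)).card = 0 then 1 else 0) = 0 by decide,
    show (if ({0, 2} : Finset (Fin 3)).card = 0 then 1 else 0) = 0 by decide,
    show (if ({1, 2} : Finset (Fin 3)).card = 0 then 1 else 0) = 0 by decide,
    show (if ({0, 1, 2} : Finset (Fin 3)).card = 0 then 1 else 0) = 0 by decide]
  ring

theorem X1 (m : Finset (Fin 3) → ℕ) : (∑ P, m P * if P.card = 1 then 1 else 0) =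
    m {0} + m {1} + m {2} := by
  rw [sum3,
    show (if (∅ : Finset (Fin 3)).card = 1 then 1 else 0) = 0 by decide,
    show (if ({0} : Finset (Fin 3)).card = 1 then 1 else 0) = 1 by decide,
    show (if ({1} : Finset (Fin 3)).card = 1 then 1 else 0) = 1 by decide,
    show (if ({2} : Finset (Fin 3)).card = 1 then 1 else 0) = 1 by decide,
    show (if ({0, 1} : Finset (Fin 3)).card = 1 then 1 else 0) = 0 by decide,
    show (if ({0, 2} : Finset (Fin 3)).card = 1 then 1 else 0) = 0 by decide,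
    show (if ({1, 2} : Finset (Fin 3)).card = 1 then 1 else 0) = 0 by decide,
    show (if ({0, 1, 2} : Finset (Fin 3)).card = 1 then 1 else 0) = 0 by decide]
  ring

theorem X2 (m : Finset (Fin 3) → ℕ) : (∑ P, m P * if P.card = 2 then 1 else 0) =
    m {0, 1} + m {0, 2} + m {1, 2} := by
  rw [sum3,
    show (if (∅ : Finset (Fin 3)).card = 2 then 1 else 0) = 0 by decide,
    show (if ({0} : Finset (Fin 3)).card = 2 then 1 else 0) = 0 by decide,
    show (if ({1} : Finset (Fin 3)).card = 2 then 1 else 0) = 0 by decide,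
    show (if ({2} : Finset (Fin 3)).card = 2 then 1 else 0) = 0 by decide,
    show (if ({0, 1} : Finset (Fin 3)).card = 2 then 1 else 0) = 1 by decide,
    show (if ({0, 2} : Finset (Fin 3)).card = 2 then 1 else 0) = 1 by decide,
    show (if ({1, 2} : Finset (Fin 3)).card = 2 then 1 else 0) = 1 by decide,
    show (if ({0, 1, 2} : Finset (Fin 3)).card = 2 then 1 else 0) = 0 by decide]
  ring

/-- The types of the double covers of `[3]^3` by eleven boxes. -/
theorem type3 (F : Multiset (Fin 3 → Finset (Fin 3))) (hF : IsDoubleCover 3 3 F)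
    (h : F.card = 11) : X 0 F = 0 ∧ X 1 F = 3 ∧ X 2 F = 4 := by
  have hc := card_types F
  rw [h, sum3] at hc
  have hv := volume F hF
  rw [sum_types F (fun P => 2 ^ P.card), V0 (fun P => (F.filter (fun B => pr B = P)).card)] at hv
  have h1 := family F hF 1
  rw [sum_types F (fun P => co 3 1 P.card),
    C1 (fun P => (F.filter (fun B => pr B = P)).card)] at h1
  have h2 := family F hF 2
  rw [sum_types F (fun P => co 3 2 P.card),
    C2 (fun P => (F.filter (fun B => pr B = P)).card)] at h2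
  have s0 := slice_one low2 F hF 0
  have s1 := slice_one low2 F hF 1
  have s2 := slice_one low2 F hF 2
  have c00 := fun hi => coord F hF 0 hi 0
  have c01 := fun hi => coord F hF 0 hi 1
  have c10 := fun hi => coord F hF 1 hi 0
  have c11 := fun hi => coord F hF 1 hi 1
  have c20 := fun hi => coord F hF 2 hi 0
  have c21 := fun hi => coord F hF 2 hi 1
  rw [side_sum F hF 0, S0 (fun P => (F.filter (fun B => pr B = P)).card)] at s0 c00 c01
  rw [side_sum F hF 1, S1 (fun P => (F.filter (fun B => pr B = P)).card)] at s1 c10 c11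
  rw [side_sum F hF 2, S2 (fun P => (F.filter (fun B => pr B = P)).card)] at s2 c20 c21
  have e00 : ∑ x : Fin 3, kd 0 (slice 0 x F) = _ :=
    (K_eq F hF 0 0).trans (K00 (fun P => (F.filter (fun B => pr B = P)).card))
  have e01 : ∑ x : Fin 3, kd 1 (slice 0 x F) = _ :=
    (K_eq F hF 0 1).trans (K01 (fun P => (F.filter (fun B => pr B = P)).card))
  have e10 : ∑ x : Fin 3, kd 0 (slice 1 x F) = _ :=
    (K_eq F hF 1 0).trans (K10 (fun P => (F.filter (fun B => pr B = P)).card))
  have e11 : ∑ x : Fin 3, kd 1 (slice 1 x F) = _ :=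
    (K_eq F hF 1 1).trans (K11 (fun P => (F.filter (fun B => pr B = P)).card))
  have e20 : ∑ x : Fin 3, kd 0 (slice 2 x F) = _ :=
    (K_eq F hF 2 0).trans (K20 (fun P => (F.filter (fun B => pr B = P)).card))
  have e21 : ∑ x : Fin 3, kd 1 (slice 2 x F) = _ :=
    (K_eq F hF 2 1).trans (K21 (fun P => (F.filter (fun B => pr B = P)).card))
  rw [e00, show ({0, (0 : Fin 3).succAbove (0 : Fin 2)} : Finset (Fin 3)) = {0, 1} by decide] at c00
  rw [e01, show ({0, (0 : Fin 3).succAbove (1 : Fin 2)} : Finset (Fin 3)) = {0, 2} by decide] at c01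
  rw [e10, show ({1, (1 : Fin 3).succAbove (0 : Fin 2)} : Finset (Fin 3)) = {0, 1} by decide] at c10
  rw [e11, show ({1, (1 : Fin 3).succAbove (1 : Fin 2)} : Finset (Fin 3)) = {1, 2} by decide] at c11
  rw [e20, show ({2, (2 : Fin 3).succAbove (0 : Fin 2)} : Finset (Fin 3)) = {0, 2} by decide] at c20
  rw [e21, show ({2, (2 : Fin 3).succAbove (1 : Fin 2)} : Finset (Fin 3)) = {1, 2} by decide] at c21
  rw [X_eq, X_eq, X_eq, X0 (fun P => (F.filter (fun B => pr B = P)).card),
    X1 (fun P => (F.filter (fun B => pr B = P)).card),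
    X2 (fun P => (F.filter (fun B => pr B = P)).card)]
  have hr : (2 * 3 ^ 3 * Nat.choose 3 (1 + 1)) = 162 := by decide
  have hr' : (2 * 3 ^ 3 * Nat.choose 3 (2 + 1)) = 54 := by decide
  rw [hr] at h1
  rw [hr'] at h2
  clear e00 e01 e10 e11 e20 e21
  generalize (F.filter (fun B => pr B = ∅)).card = a at *
  generalize (F.filter (fun B => pr B = {0})).card = b at *
  generalize (F.filter (fun B => pr B = {1})).card = c at *
  generalize (F.filter (fun B => pr B = {2})).card = e at *
  generalize (F.filter (fun B => pr B = {0, 1})).card = p at *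
  generalize (F.filter (fun B => pr B = {0, 2})).card = q at *
  generalize (F.filter (fun B => pr B = {1, 2})).card = r at *
  generalize (F.filter (fun B => pr B = {0, 1, 2})).card = t at *
  have hfin := arith a b c e p q r t (by omega) (by omega) (by omega) (by omega) (by omega)
    (by omega) (by omega) (fun hn => ⟨c00 (by omega), c01 (by omega)⟩)
    (fun hn => ⟨c10 (by omega), c11 (by omega)⟩) (fun hn => ⟨c20 (by omega), c21 (by omega)⟩)
  omega

end Pool.Agent.MP7489fb.Three
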