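import Pool.Agent.MP7489fb.Low4

set_option autoImplicit false

/-! Double covers of `[3]^(d+3)` from double covers of `[3]^d`: six boxes of `[3]^3` cover every
point with not all coordinates equal exactly twice and the other three points not at all. -/

namespace Pool.Agent.MP7489fb.Three

open Finset

/-- Six boxes with all sides of two elements: one for each permutation of the letters. -/
def R6 : Multiset (Fin 3 → Finset (Fin 3)) :=
  ↑[(![{0, 1}, {0, 2}, {1, 2}] : Fin 3 → Finset (Fin 3)), ![{1, 2}, {0, 1}, {0, 2}],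
    ![{0, 2}, {1, 2}, {0, 1}], ![{0, 1}, {1, 2}, {0, 2}], ![{1, 2}, {0, 2}, {0, 1}],
    ![{0, 2}, {0, 1}, {1, 2}]]

/-- The three points with equal coordinates. -/
def D3 : Multiset (Fin 3 → Finset (Fin 3)) :=
  ↑[(![{0}, {0}, {0}] : Fin 3 → Finset (Fin 3)), ![{1}, {1}, {1}], ![{2}, {2}, {2}]]

theorem R6_proper : ∀ B ∈ R6, IsProperBox B := by
  intro B hB
  simp only [R6, Multiset.mem_coe, List.mem_cons, List.not_mem_nil, or_false] at hB
  rcases hB with rfl | rfl | rfl | rfl | rfl | rfl <;> (intro i; fin_cases i <;> decide)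

theorem D3_proper : ∀ B ∈ D3, IsProperBox B := by
  intro B hB
  simp only [D3, Multiset.mem_coe, List.mem_cons, List.not_mem_nil, or_false] at hB
  rcases hB with rfl | rfl | rfl <;> (intro i; fin_cases i <;> decide)

theorem R6_D3_cov (y : Fin 3 → Fin 3) : cov R6 y + 2 * cov D3 y = 2 := by
  have h : ∀ a b c : Fin 3, cov R6 ![a, b, c] + 2 * cov D3 ![a, b, c] = 2 := by decide
  have hy : y = ![y 0, y 1, y 2] := by
    funext i
    fin_cases i <;> rfl
  rw [hy]
  exact h _ _ _

/-- The cover of `[3]^(d+3)` made of a cover of `[3]^d`. -/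
theorem cover_rec {d : ℕ} {F : Multiset (Fin d → Finset (Fin 3))} (hF : IsDoubleCover 3 d F) :
    IsDoubleCover 3 (d + 3) (prodM (Low.part 3 d (by norm_num)) R6 + prodM F D3) where
  proper := by
    intro B hB
    rcases Multiset.mem_add.1 hB with h | h
    · exact proper_prodM (Low.part_proper (by norm_num)) R6_proper B h
    · exact proper_prodM hF.proper D3_proper B h
  twice := by
    intro x
    rw [cov_add, cov_prodM, cov_prodM, Low.cov_part, hF.twice, one_mul]
    exact R6_D3_cov _

theorem upper_rec (d : ℕ) : g 3 (d + 3) ≤ 6 * 2 ^ d + 3 * g 3 d := by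
  obtain ⟨F, hF, hc⟩ := Low.g_spec (n := 3) (d := d) (by norm_num)
  have h1 : (prodM (Low.part 3 d (by norm_num)) R6 + prodM F D3).card = 6 * 2 ^ d + 3 * g 3 d := by
    rw [Multiset.card_add, card_prodM, card_prodM, hc]
    have h2 : (Low.part 3 d (by norm_num)).card = 2 ^ d := by
      simp [Low.part, Multiset.card_map]
    have h3 : R6.card = 6 := by decide
    have h4 : D3.card = 3 := by decide
    rw [h2, h3, h4]
    ring
  exact Nat.sInf_le ⟨_, cover_rec hF, h1⟩

end Pool.Agent.MP7489fb.Three
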