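import Pool.Agent.MP7489fb.Three7

set_option autoImplicit false

/-! Double covers of `[3]^d`, `d = 5, 6, 7`: lower bounds from the slices and from the numbers of
boxes with all sides of two elements. -/

namespace Pool.Agent.MP7489fb.Three

open Finset

theorem card_eq_X {d : ℕ} (F : Multiset (Fin d → Finset (Fin 3))) :
    F.card = ∑ c ∈ range (d + 1), 1 * X c F := by
  rw [← sum_type F (fun _ => 1), Multiset.map_const', Multiset.sum_replicate, smul_eq_mul,
    mul_one]

theorem volume_X {d : ℕ} (F : Multiset (Fin d → Finset (Fin 3))) (hF : IsDoubleCover 3 d F) :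
    ∑ c ∈ range (d + 1), 2 ^ c * X c F = 2 * 3 ^ d := by
  rw [← sum_type F (fun c => 2 ^ c)]
  exact volume F hF

theorem family_X {d : ℕ} (F : Multiset (Fin d → Finset (Fin 3))) (hF : IsDoubleCover 3 d F)
    (k : ℕ) : 2 * 3 ^ d * Nat.choose d (k + 1) ≤ ∑ c ∈ range (d + 1), co d k c * X c F := by
  rw [← sum_type F (co d k)]
  exact family F hF k

/-- A linear inequality for the covers of `[3]^d` gives one for those of `[3]^(d+1)`. -/
theorem lift {d : ℕ} (α : ℕ → ℕ) (β : ℕ)
    (h : ∀ G : Multiset (Fin d → Finset (Fin 3)), IsDoubleCover 3 d G →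
      β ≤ ∑ b ∈ range (d + 1), α b * X b G)
    (F : Multiset (Fin (d + 1) → Finset (Fin 3))) (hF : IsDoubleCover 3 (d + 1) F) :
    (d + 1) * (3 * β) ≤
      ∑ b ∈ range (d + 2), ((d + 1 - b) * α b + 2 * b * α (b - 1)) * X b F := by
  rw [← sum_slices F hF α]
  have h1 : ∑ _i : Fin (d + 1), ∑ _x : Fin 3, β ≤
      ∑ i : Fin (d + 1), ∑ x : Fin 3, ((slice i x F).map (fun B => α (pr B).card)).sum := by
    apply Finset.sum_le_sum
    intro i _
    apply Finset.sum_le_sum
    intro x _
    rw [sum_type]
    exact h _ (slice_cover i x F hF)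
  simpa only [Finset.sum_const, Finset.card_univ, Fintype.card_fin, smul_eq_mul] using h1

/-- The number of boxes plus the number of those with all sides of two elements. -/
def al (d b : ℕ) : ℕ := if b = d then 2 else 1

theorem h4 (F : Multiset (Fin 4 → Finset (Fin 3))) (hF : IsDoubleCover 3 4 F) :
    25 ≤ ∑ b ∈ range 5, al 4 b * X b F := by
  have hvol := volume_X F hF
  have f2 := family_X F hF 2
  have f3 := family_X F hF 3
  simp only [Finset.sum_range_succ, Finset.sum_range_zero, co, al] at f2 f3 hvol ⊢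
  norm_num [Nat.choose] at f2 f3 hvol ⊢
  omega

section

variable (g4 : ∀ F : Multiset (Fin 4 → Finset (Fin 3)), IsDoubleCover 3 4 F → 21 ≤ F.card)

include g4

theorem low5'' (F : Multiset (Fin 5 → Finset (Fin 3))) (hF : IsDoubleCover 3 5 F) :
    38 ≤ F.card := by
  have hcard := card_eq_X F
  have hvol := volume_X F hF
  have f3 := family_X F hF 3
  have f4 := family_X F hF 4
  have l1 := lift (fun _ => 1) 21 (fun G hG => by
    rw [← card_eq_X]
    exact g4 G hG) F hF
  have l2 := lift (al 4) 25 h4 F hF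
  by_contra hcon
  simp only [Finset.sum_range_succ, Finset.sum_range_zero, co, al] at f3 f4 hvol hcard l1 l2
  norm_num [Nat.choose] at f3 f4 hvol hcard l1 l2
  push Not at hcon
  have hc : F.card ≤ 37 := by omega
  linarith

end

theorem h5 (F : Multiset (Fin 5 → Finset (Fin 3))) (hF : IsDoubleCover 3 5 F) :
    43 ≤ ∑ b ∈ range 6, al 5 b * X b F := by
  have hvol := volume_X F hF
  have f4 := family_X F hF 4
  have l2 := lift (al 4) 25 h4 F hF
  by_contra hcon
  have hc : ∑ b ∈ range 6, al 5 b * X b F ≤ 42 := by omega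
  clear hcon
  simp only [Finset.sum_range_succ, Finset.sum_range_zero, co, al] at f4 hvol l2 hc
  norm_num [Nat.choose] at f4 hvol l2 hc
  linarith

theorem h6 (F : Multiset (Fin 6 → Finset (Fin 3))) (hF : IsDoubleCover 3 6 F) :
    75 ≤ ∑ b ∈ range 7, al 6 b * X b F := by
  have hvol := volume_X F hF
  have f4 := family_X F hF 4
  have f5 := family_X F hF 5
  have l2 := lift (al 5) 43 h5 F hF
  by_contra hcon
  have hc : ∑ b ∈ range 7, al 6 b * X b F ≤ 74 := by omega
  clear hcon
  simp only [Finset.sum_range_succ, Finset.sum_range_zero, co, al] at f4 f5 hvol l2 hc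
  norm_num [Nat.choose] at f4 f5 hvol l2 hc
  linarith

section

variable (g4 : ∀ F : Multiset (Fin 4 → Finset (Fin 3)), IsDoubleCover 3 4 F → 21 ≤ F.card)

include g4

theorem low6'' (F : Multiset (Fin 6 → Finset (Fin 3))) (hF : IsDoubleCover 3 6 F) :
    70 ≤ F.card := by
  have hcard := card_eq_X F
  have hvol := volume_X F hF
  have f3 := family_X F hF 3
  have f4 := family_X F hF 4
  have f5 := family_X F hF 5
  have l1 := lift _ _ (fun G hG => lift (fun _ => 1) 21 (fun G hG => by
    rw [← card_eq_X]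
    exact g4 G hG) G hG) F hF
  have l2 := lift (al 5) 43 h5 F hF
  by_contra hcon
  simp only [Finset.sum_range_succ, Finset.sum_range_zero, co, al] at f3 f4 f5 hvol hcard l1 l2
  norm_num [Nat.choose] at f3 f4 f5 hvol hcard l1 l2
  push Not at hcon
  have hc : F.card ≤ 69 := by omega
  linarith

theorem low7'' (F : Multiset (Fin 7 → Finset (Fin 3))) (hF : IsDoubleCover 3 7 F) :
    128 ≤ F.card := by
  have hcard := card_eq_X F
  have hvol := volume_X F hF
  have f3 := family_X F hF 3
  have f4 := family_X F hF 4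
  have f5 := family_X F hF 5
  have f6 := family_X F hF 6
  have l1 := lift (fun _ => 1) 70 (fun G hG => by
    rw [← card_eq_X]
    exact low6'' g4 G hG) F hF
  have l2 := lift (al 6) 75 h6 F hF
  by_contra hcon
  simp only [Finset.sum_range_succ, Finset.sum_range_zero, co, al] at f3 f4 f5 f6 hvol hcard l1 l2
  norm_num [Nat.choose] at f3 f4 f5 f6 hvol hcard l1 l2
  push Not at hcon
  have hc : F.card ≤ 127 := by omega
  linarith

end

theorem g6b : 70 ≤ g 3 6 := by
  obtain ⟨F, hF, hc⟩ := Low.g_spec (n := 3) (d := 6) (by norm_num)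
  rw [← hc]
  exact low6'' low4t F hF

theorem g7b : 128 ≤ g 3 7 := by
  obtain ⟨F, hF, hc⟩ := Low.g_spec (n := 3) (d := 7) (by norm_num)
  rw [← hc]
  exact low7'' low4t F hF

theorem q2b (d : ℕ) (hd : d ≤ 7) : 2 ^ d ≤ g 3 d := by
  rcases Nat.lt_or_ge d 7 with h | h
  · exact q2 d (by omega)
  · have h7 : d = 7 := by omega
    rw [h7]
    exact g7b

end Pool.Agent.MP7489fb.Three
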